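import Pool.Agent.N940.CO.Stm

/-!
Project CO (helper940), leaf ANN: the annealed bound of the copolymer model.
-/

open MeasureTheory ProbabilityTheory Filter Topology

namespace Pool.Agent.N940.CO.Ann

noncomputable section

/-- `tau s i` is a measurable function of the configuration. -/
lemma measurable_tau (i : ℕ) : Measurable (fun s : ℕ → ℕ × Bool => tau s i) := by
  unfold tau
  refine Finset.measurable_sum _ fun l _ => ?_
  exact measurable_fst.comp (measurable_pi_apply l)

/-- `Del s n` is a measurable function of the configuration. -/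
lemma measurable_Del (n : ℕ) : Measurable (fun s : ℕ → ℕ × Bool => Del s n) := by
  unfold Del
  refine Measurable.ite ?_ measurable_const measurable_const
  have h1 : {s : ℕ → ℕ × Bool | ∃ i, tau s i < n ∧ n ≤ tau s (i + 1) ∧ (s i).2 = true}
      = ⋃ i, ({s | tau s i < n} ∩ ({s | n ≤ tau s (i + 1)} ∩ {s | (s i).2 = true})) := by
    ext s
    simp
  rw [h1]
  refine MeasurableSet.iUnion fun i => ?_
  refine MeasurableSet.inter ?_ (MeasurableSet.inter ?_ ?_)
  · exact measurableSet_lt (measurable_tau i) measurable_const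
  · exact measurableSet_le measurable_const (measurable_tau (i + 1))
  · exact measurableSet_eq_fun (measurable_snd.comp (measurable_pi_apply i)) measurable_const

lemma Del_cases (s : ℕ → ℕ × Bool) (n : ℕ) : Del s n = 0 ∨ Del s n = 1 := by
  unfold Del
  split_ifs
  · exact Or.inr rfl
  · exact Or.inl rfl

/-- **Annealed bound.** -/
theorem main (hb : S_BR) (he : S_EXPF) : S_ANN := by
  intro al K nu hK hnu Om _ P om hom lam h hle N
  have _ := hom.prob
  have _ := hnu.prob
  have hp1 : IsProbabilityMeasure (law1 K) := (hb K hK.nonneg hK.sum hK.zero).1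
  have hpS : IsProbabilityMeasure (lawS K) := by
    unfold lawS
    infer_instance
  set f : Om × (ℕ → ℕ × Bool) → ℝ := fun p =>
    Real.exp (-2 * lam * ∑ n ∈ Finset.Icc 1 N, Del p.2 n * (om n p.1 + h)) with hf
  have hfm : Measurable f := by
    rw [hf]
    refine Real.measurable_exp.comp (Measurable.const_mul ?_ _)
    refine Finset.measurable_sum _ fun n _ => ?_
    exact ((measurable_Del n).comp measurable_snd).mul
      (((hom.meas n).comp measurable_fst).add_const h)
  have hexp : ∀ s : ℕ → ℕ × Bool, ∀ w : Om, f (w, s)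
      = Real.exp (∑ n ∈ Finset.Icc 1 N, (-2 * lam * Del s n) * om n w)
        * ∏ n ∈ Finset.Icc 1 N, Real.exp (-2 * lam * Del s n * h) := by
    intro s w
    rw [← Real.exp_sum, ← Real.exp_add]
    change Real.exp (-2 * lam * ∑ n ∈ Finset.Icc 1 N, Del s n * (om n w + h)) = _
    congr 1
    rw [Finset.mul_sum, ← Finset.sum_add_distrib]
    refine Finset.sum_congr rfl fun n _ => ?_
    ring
  have hint : ∀ s : ℕ → ℕ × Bool, Integrable (fun w => f (w, s)) P := by
    intro s
    have h1 := (he Om P nu om hom hnu (Finset.Icc 1 N) (fun n => -2 * lam * Del s n)).1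
    have h2 : (fun w => f (w, s)) = fun w =>
        Real.exp (∑ n ∈ Finset.Icc 1 N, (-2 * lam * Del s n) * om n w)
        * ∏ n ∈ Finset.Icc 1 N, Real.exp (-2 * lam * Del s n * h) := by
      funext w
      exact hexp s w
    rw [h2]
    exact h1.mul_const _
  have hval : ∀ s : ℕ → ℕ × Bool, ∫ w, f (w, s) ∂P ≤ 1 := by
    intro s
    have h1 := (he Om P nu om hom hnu (Finset.Icc 1 N) (fun n => -2 * lam * Del s n)).2
    have h2 : ∫ w, f (w, s) ∂P = ∏ n ∈ Finset.Icc 1 N,
        (mgf id nu (-2 * lam * Del s n) * Real.exp (-2 * lam * Del s n * h)) := by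
      rw [Finset.prod_mul_distrib, ← h1, ← integral_mul_const]
      refine integral_congr_ae (Filter.Eventually.of_forall fun w => ?_)
      exact hexp s w
    rw [h2]
    refine Finset.prod_le_one (fun n _ => mul_nonneg mgf_nonneg (Real.exp_pos _).le) ?_
    intro n _
    rcases Del_cases s n with h0 | h0
    · rw [h0]
      simp
    · rw [h0, mul_one]
      exact hle
  have hpos : ∀ p, 0 < f p := fun p => Real.exp_pos _
  have hfi : Integrable f (P.prod (lawS K)) := by
    rw [integrable_prod_iff' hfm.aestronglyMeasurable]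
    refine ⟨Filter.Eventually.of_forall hint, ?_⟩
    have h3 : ∀ s : ℕ → ℕ × Bool, ∫ w, ‖f (w, s)‖ ∂P = ∫ w, f (w, s) ∂P := by
      intro s
      refine integral_congr_ae (Filter.Eventually.of_forall fun w => ?_)
      exact Real.norm_of_nonneg (hpos _).le
    have h4 : (fun s => ∫ w, ‖f (w, s)‖ ∂P) = fun s => ∫ w, f (w, s) ∂P := funext h3
    rw [h4]
    refine Integrable.of_bound (C := 1) ?_ ?_
    · exact (hfm.stronglyMeasurable.integral_prod_left').aestronglyMeasurable
    · refine Filter.Eventually.of_forall fun s => ?_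
      rw [Real.norm_of_nonneg (integral_nonneg fun w => (hpos _).le)]
      exact hval s
  have hZ : ∀ w, Zcop K lam h (fun n => om n w) N = ∫ s, f (w, s) ∂(lawS K) := fun w => rfl
  have hZi : Integrable (fun w => ∫ s, f (w, s) ∂(lawS K)) P := hfi.integral_prod_left
  have hZle : ∫ w, ∫ s, f (w, s) ∂(lawS K) ∂P ≤ 1 := by
    rw [integral_integral_swap (f := fun w s => f (w, s)) hfi]
    calc ∫ s, ∫ w, f (w, s) ∂P ∂(lawS K) ≤ ∫ s, (1 : ℝ) ∂(lawS K) := by
          refine integral_mono_of_nonneg
            (Filter.Eventually.of_forall fun s => integral_nonneg fun w => (hpos _).le)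
            (integrable_const _) (Filter.Eventually.of_forall hval)
      _ = 1 := by simp
  by_cases hl : Integrable (fun w => Real.log (Zcop K lam h (fun n => om n w) N)) P
  · calc ∫ w, Real.log (Zcop K lam h (fun n => om n w) N) ∂P
        ≤ ∫ w, ((∫ s, f (w, s) ∂(lawS K)) - 1) ∂P := by
          refine integral_mono_ae hl (hZi.sub (integrable_const 1)) ?_
          filter_upwards [hfi.prod_right_ae] with w hw
          rw [hZ w]
          refine Real.log_le_sub_one_of_pos ?_
          exact integral_exp_pos hw
      _ = (∫ w, ∫ s, f (w, s) ∂(lawS K) ∂P) - 1 := by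
          rw [integral_sub hZi (integrable_const 1)]
          simp
      _ ≤ 0 := by linarith
  · rw [integral_undef hl]

end

end Pool.Agent.N940.CO.Ann
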