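import Pool.Agent.N940.CO.Stm

/-!
Project CO: basic lemmas.
-/

open MeasureTheory ProbabilityTheory Filter Topology

namespace Pool.Agent.N940.CO

theorem u_zero (K : ℕ → ℝ) : u K 0 = 1 := by rw [u]

theorem u_succ (K : ℕ → ℝ) (n : ℕ) :
    u K (n + 1) = ∑ i ∈ Finset.range (n + 1), u K i * K (n + 1 - i) := by
  rw [u, Finset.sum_range]

theorem u_rec (K : ℕ → ℝ) {n : ℕ} (hn : 1 ≤ n) :
    u K n = ∑ i ∈ Finset.range n, u K i * K (n - i) := by
  obtain ⟨n, rfl⟩ : ∃ k, n = k + 1 := ⟨n - 1, by omega⟩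
  exact u_succ K n

theorem zc_zero (K e : ℕ → ℝ) : zc K e 0 = 1 := by rw [zc]

theorem zc_succ (K e : ℕ → ℝ) (n : ℕ) :
    zc K e (n + 1) = ∑ i ∈ Finset.range (n + 1),
      zc K e i * (K (n + 1 - i) * ew (En e i (n + 1))) := by
  rw [zc, Finset.sum_range]

theorem zc_rec (K e : ℕ → ℝ) {n : ℕ} (hn : 1 ≤ n) :
    zc K e n = ∑ i ∈ Finset.range n, zc K e i * (K (n - i) * ew (En e i n)) := by
  obtain ⟨n, rfl⟩ : ∃ k, n = k + 1 := ⟨n - 1, by omega⟩
  exact zc_succ K e n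

theorem ew_pos (s : ℝ) : 0 < ew s := by
  unfold ew; positivity

theorem ew_ge_half (s : ℝ) : 1 / 2 ≤ ew s := by
  unfold ew
  have := Real.exp_pos (-2 * s)
  linarith

theorem ew_ge_below (s : ℝ) : Real.exp (-2 * s) / 2 ≤ ew s := by
  unfold ew
  have := Real.exp_pos (-2 * s)
  linarith

theorem ew_ge_exp (s : ℝ) : Real.exp (-s) ≤ ew s := by
  unfold ew
  have h : Real.exp (-2 * s) = Real.exp (-s) ^ 2 := by
    rw [← Real.exp_nat_mul]; ring_nf
  rw [h]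
  nlinarith [sq_nonneg (Real.exp (-s) - 1)]

theorem ew_le_exp_abs (s : ℝ) : ew s ≤ Real.exp (2 * |s|) := by
  unfold ew
  have h1 : Real.exp (-2 * s) ≤ Real.exp (2 * |s|) :=
    Real.exp_le_exp.2 (by linarith [neg_abs_le s])
  have h2 : 1 ≤ Real.exp (2 * |s|) := Real.one_le_exp (by positivity)
  linarith

theorem u_nonneg {K : ℕ → ℝ} (hK : ∀ n, 0 ≤ K n) (n : ℕ) : 0 ≤ u K n := by
  induction n using Nat.strong_induction_on with
  | _ n ih =>
    rcases Nat.eq_zero_or_pos n with h | h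
    · subst h; rw [u_zero]; exact zero_le_one
    · rw [u_rec K h]
      exact Finset.sum_nonneg fun i hi =>
        mul_nonneg (ih i (Finset.mem_range.1 hi)) (hK _)

theorem zc_nonneg {K : ℕ → ℝ} (hK : ∀ n, 0 ≤ K n) (e : ℕ → ℝ) (n : ℕ) : 0 ≤ zc K e n := by
  induction n using Nat.strong_induction_on with
  | _ n ih =>
    rcases Nat.eq_zero_or_pos n with h | h
    · subst h; rw [zc_zero]; exact zero_le_one
    · rw [zc_rec K e h]
      exact Finset.sum_nonneg fun i hi =>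
        mul_nonneg (ih i (Finset.mem_range.1 hi)) (mul_nonneg (hK _) (ew_pos _).le)

theorem HA_nonneg {K : ℕ → ℝ} (hK : ∀ n, 0 ≤ K n) (e : ℕ → ℝ) (m j : ℕ) : 0 ≤ HA K e m j :=
  Finset.sum_nonneg fun _ _ => zc_nonneg hK e _

theorem HB_nonneg {K : ℕ → ℝ} (hK : ∀ n, 0 ≤ K n) (e : ℕ → ℝ) (m j : ℕ) : 0 ≤ HB K e m j :=
  Finset.sum_nonneg fun _ _ => mul_nonneg (zc_nonneg hK e _) (Real.exp_pos _).le

theorem En_add (e : ℕ → ℝ) {a b c : ℕ} (hab : a ≤ b) (hbc : b ≤ c) :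
    En e a b + En e b c = En e a c := by
  unfold En
  rw [← Finset.sum_union]
  · rw [Finset.Ioc_union_Ioc_eq_Ioc hab hbc]
  · exact Finset.Ioc_disjoint_Ioc_of_le le_rfl

theorem En_self (e : ℕ → ℝ) (a : ℕ) : En e a a = 0 := by simp [En]

theorem En_succ (e : ℕ → ℝ) {a b : ℕ} (hab : a ≤ b) :
    En e a (b + 1) = En e a b + e (b + 1) := by
  rw [← En_add e hab (Nat.le_succ b)]
  simp [En]

theorem th_zero (K : ℕ → ℝ) (m i : ℕ) : th K m 0 i = 0 := by simp [th]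
theorem th_one (K : ℕ → ℝ) (m i : ℕ) : th K m 1 i = wp K m i := by simp [th]
theorem th_two (K : ℕ → ℝ) (m i : ℕ) : th K m 2 i = 1 - wp K m i := by simp [th]
theorem th_three (K : ℕ → ℝ) (m i : ℕ) : th K m 3 i = 1 := by simp [th]

theorem Fc_zero (K : ℕ → ℝ) (m : ℕ) (e : ℕ → ℝ) (j : ℕ) : Fc K m e j 0 = 0 := by
  simp [Fc, th_zero]

theorem Ut_pos {K : ℕ → ℝ} (hK : ∀ n, 0 ≤ K n) {m : ℕ} (hm : 1 ≤ m) : 0 < Ut K m := by
  unfold Ut
  have h : u K (1 - 1) ≤ ∑ y ∈ Finset.Icc 1 m, ∑ y' ∈ Finset.Icc y m, u K (y' - y) := by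
    refine le_trans ?_ (Finset.single_le_sum (f := fun y => ∑ y' ∈ Finset.Icc y m, u K (y' - y))
      (fun y _ => Finset.sum_nonneg fun y' _ => u_nonneg hK _) (Finset.mem_Icc.2 ⟨le_rfl, hm⟩))
    exact Finset.single_le_sum (f := fun y' => u K (y' - 1))
      (fun y' _ => u_nonneg hK _) (Finset.mem_Icc.2 ⟨le_rfl, hm⟩)
  have h1 : u K (1 - 1) = 1 := u_zero K
  linarith

theorem sum_le_one {K : ℕ → ℝ} (hK : ∀ n, 0 ≤ K n) (hs : HasSum K 1) (s : Finset ℕ) :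
    ∑ i ∈ s, K i ≤ 1 := sum_le_hasSum s (fun i _ => hK i) hs

theorem Kbar_nonneg {K : ℕ → ℝ} (hK : ∀ n, 0 ≤ K n) (hs : HasSum K 1) (n : ℕ) :
    0 ≤ Kbar K n := by
  unfold Kbar; linarith [sum_le_one hK hs (Finset.range (n + 1))]

theorem Kbar_anti {K : ℕ → ℝ} (hK : ∀ n, 0 ≤ K n) {a b : ℕ} (hab : a ≤ b) :
    Kbar K b ≤ Kbar K a := by
  unfold Kbar
  have : ∑ i ∈ Finset.range (a + 1), K i ≤ ∑ i ∈ Finset.range (b + 1), K i :=
    Finset.sum_le_sum_of_subset_of_nonneg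
      (Finset.range_mono (by omega)) (fun i _ _ => hK i)
  linarith

theorem Jp_zero {k : ℕ} (g : Fin k → ℕ) : Jp g 0 = 0 := by simp [Jp]

theorem Jp_top {k : ℕ} (g : Fin k → ℕ) : Jp g k = ∑ i, g i := by
  unfold Jp
  exact Finset.sum_congr rfl fun l _ => by simp [l.2]

theorem Jp_succ {k : ℕ} (g : Fin k → ℕ) (l : ℕ) (hl : l < k) :
    Jp g (l + 1) = Jp g l + g ⟨l, hl⟩ := by
  unfold Jp
  have h : ∀ i : Fin k, (if i.val < l + 1 then g i else 0)
      = (if i.val < l then g i else 0) + (if i = ⟨l, hl⟩ then g i else 0) := by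
    intro i
    by_cases h1 : i.val < l
    · have h2 : i ≠ ⟨l, hl⟩ := by
        intro h; rw [h] at h1; simp at h1
      have h3 : i.val < l + 1 := by omega
      simp [h1, h2, h3]
    · by_cases h2 : i = ⟨l, hl⟩
      · subst h2; simp
      · have h3 : ¬ i.val < l + 1 := by
          intro h4
          exact h2 (Fin.ext (by simp; omega))
        simp [h1, h2, h3]
  rw [Finset.sum_congr rfl fun i _ => h i, Finset.sum_add_distrib]
  simp

theorem mem_Pat {k L R T : ℕ} {g : Fin k → ℕ} :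
    g ∈ Pat k L R T ↔ (∀ i, L ≤ g i ∧ g i ≤ R) ∧ ∑ i, g i = T := by
  simp [Pat, Fintype.mem_piFinset]

end Pool.Agent.N940.CO
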