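import Pool.Agent.N940.CO.Defs

/-!
Project CO: statements of the pieces.
-/

open MeasureTheory ProbabilityTheory Filter Topology

namespace Pool.Agent.N940.CO

noncomputable section

/-! ### deterministic part -/

def S_CUT : Prop := ∀ (K e : ℕ → ℝ), (∀ n, 0 ≤ K n) → ∀ b c : ℕ, 1 ≤ b → b ≤ c →
  ∑ y0 ∈ Finset.range b, ∑ y ∈ Finset.Icc b c,
    zc K e y0 * (K (y - y0) * ew (En e y0 y)) * (u K (c - y) * Real.exp (-En e y c)) ≤ zc K e c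

def S_UT : Prop := ∀ (al : ℝ) (K : ℕ → ℝ), Ren al K →
  ∃ c1 : ℝ, 0 < c1 ∧ ∀ m : ℕ, 1 ≤ m → c1 * (m : ℝ) ^ (1 + al) ≤ Ut K m

/-- `kap` and `N0` bound `K` from below. -/
def KLow (al : ℝ) (K : ℕ → ℝ) (kap : ℝ) (N0 : ℕ) : Prop :=
  ∀ n : ℕ, N0 ≤ n → 1 ≤ n → kap * (n : ℝ) ^ (-(1 + al)) ≤ K n

def S_KL : Prop := ∀ (al : ℝ) (K : ℕ → ℝ), Ren al K →
  (∃ kap : ℝ, 0 < kap ∧ ∃ N0 : ℕ, KLow al K kap N0) ∧
  (∃ c : ℝ, 0 < c ∧ ∀ N : ℕ, c * ((N : ℝ) + 1) ^ (-(1 + al)) ≤ Kbar K N)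

def S_STA : Prop := ∀ (al kap : ℝ) (K e : ℕ → ℝ) (N0 m j j' : ℕ), 0 < al → (∀ n, 0 ≤ K n) →
  0 ≤ kap → KLow al K kap N0 → 1 ≤ m → N0 ≤ m → j + 2 ≤ j' →
  HA K e m j * (kap / 2 * (((j' - j + 1) * m : ℕ) : ℝ) ^ (-(1 + al)) * Ut K m
    * Real.exp (Fc K m e j' 1)) ≤ HB K e m j'

def S_STB : Prop := ∀ (al kap : ℝ) (K e : ℕ → ℝ) (N0 m j j' : ℕ), 0 < al → (∀ n, 0 ≤ K n) →
  0 ≤ kap → KLow al K kap N0 → 1 ≤ m → N0 ≤ m → j + 2 ≤ j' →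
  HB K e m j * (kap / 2 * (((j' - j + 1) * m : ℕ) : ℝ) ^ (-(1 + al)) * Ut K m
    * Real.exp (∑ c ∈ Finset.Ioo j j', Fc K m e c 3 + Fc K m e j' 2)) ≤ HA K e m j'

def S_STS : Prop := ∀ (al kap : ℝ) (K e : ℕ → ℝ) (N0 m j : ℕ), 0 < al → (∀ n, 0 ≤ K n) →
  0 ≤ kap → KLow al K kap N0 → 1 ≤ m → N0 ≤ m → 1 ≤ j →
  kap / 2 * (((j + 1) * m : ℕ) : ℝ) ^ (-(1 + al)) * Ut K m
    * Real.exp (Fc K m e j 1) ≤ HB K e m j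

def S_END : Prop := ∀ (K e : ℕ → ℝ), (∀ n, 0 ≤ K n) → HasSum K 1 → K 0 = 0 →
  (∀ N : ℕ, Kbar K N / 2 ≤ zf K e N) ∧
  (∀ N m j : ℕ, (j + 1) * m ≤ N → HA K e m j * (Kbar K N / 2) ≤ zf K e N)

/-- The normalised cell steps. -/
structure Steps (al c2 : ℝ) (K : ℕ → ℝ) (m0 : ℕ) : Prop where
  c2pos : 0 < c2
  c2le : c2 ≤ 1
  A : ∀ m : ℕ, m0 ≤ m → ∀ (e : ℕ → ℝ) (j j' : ℕ), j + 2 ≤ j' →
    HA K e m j * (c2 * ((j' - j : ℕ) : ℝ) ^ (-(1 + al)) * Real.exp (Fc K m e j' 1))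
      ≤ HB K e m j'
  B : ∀ m : ℕ, m0 ≤ m → ∀ (e : ℕ → ℝ) (j j' : ℕ), j + 2 ≤ j' →
    HB K e m j * (c2 * ((j' - j : ℕ) : ℝ) ^ (-(1 + al))
      * Real.exp (∑ c ∈ Finset.Ioo j j', Fc K m e c 3 + Fc K m e j' 2)) ≤ HA K e m j'
  S : ∀ m : ℕ, m0 ≤ m → ∀ (e : ℕ → ℝ) (j : ℕ), 1 ≤ j →
    c2 * (j : ℝ) ^ (-(1 + al)) * Real.exp (Fc K m e j 1) ≤ HB K e m j

def S_DET : Prop := ∀ (al : ℝ) (K : ℕ → ℝ), Ren al K → ∃ (c2 : ℝ) (m0 : ℕ), Steps al c2 K m0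

def S_TY : Prop := ∀ (k : ℕ) (g : Fin k → ℕ), (∀ l, 2 ≤ g l) → ∀ F : ℕ → ℕ → ℝ,
  (∀ c, F c 0 = 0) →
  F 0 1 + ∑ l ∈ Finset.range k,
    (if Even l then ∑ c ∈ Finset.Ioo (Jp g l) (Jp g (l + 1)), F c 3 + F (Jp g (l + 1)) 2
      else F (Jp g (l + 1)) 1)
    = ∑ c ∈ Finset.range (∑ i, g i + 1), F c (ty g c)

def S_PC : Prop := ∀ (al c2 : ℝ) (K : ℕ → ℝ) (m0 : ℕ), Ren al K → Steps al c2 K m0 →
  ∀ m : ℕ, m0 ≤ m → ∀ (k : ℕ) (g : Fin k → ℕ), Odd k → (∀ l, 2 ≤ g l) →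
  ∀ (e : ℕ → ℝ) (a : ℕ),
    (∀ j, j + 2 ≤ a → HA K e m j * (c2 * ((a - j : ℕ) : ℝ) ^ (-(1 + al))) * Ag al c2 K m g a e
      ≤ HA K e m (a + ∑ i, g i)) ∧
    (1 ≤ a → c2 * (a : ℝ) ^ (-(1 + al)) * Ag al c2 K m g a e ≤ HA K e m (a + ∑ i, g i))

def S_CH : Prop := ∀ (al c2 : ℝ) (T B : ℕ) (H Y : ℕ → ℝ), 0 < al → 0 < c2 → c2 ≤ 1 →
  B = T + 2 → (∀ j, 0 ≤ H j) →
  (∀ j b : ℕ, j + 2 ≤ b * B + 1 →
    H j * (c2 * ((b * B + 1 - j : ℕ) : ℝ) ^ (-(1 + al))) * Real.exp (Y b) ≤ H (b * B + 1 + T)) →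
  (∀ b : ℕ, c2 * ((b * B + 1 : ℕ) : ℝ) ^ (-(1 + al)) * Real.exp (Y b) ≤ H (b * B + 1 + T)) →
  ∀ (n M : ℕ) (ze t : ℝ), 1 ≤ n → 0 < t →
  ∀ G : Finset ℕ, G = (Finset.range M).filter (fun i => ze ≤ ∑ b ∈ Finset.range n,
      (Y (i * n + b) + Real.log (c2 * (2 : ℝ) ^ (-(1 + al))))) → G.Nonempty →
  ∃ j : ℕ, j + 1 ≤ M * n * B ∧
    Real.exp ((G.card : ℝ) * (ze + Real.log c2 - (1 + al) * (Real.log t - 1))
      - (1 + al) * (M * n * B : ℕ) / t) ≤ H j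

/-- The deterministic lower bound of the free partition function. -/
def S_FZ : Prop := ∀ (al c2 : ℝ) (K : ℕ → ℝ) (m0 : ℕ), Ren al K → Steps al c2 K m0 →
  ∀ (m k L R T B : ℕ), m0 ≤ m → Odd k → 2 ≤ L → (Pat k L R T).Nonempty → B = T + 2 →
  ∀ (e : ℕ → ℝ) (n M N : ℕ) (ze t : ℝ), 1 ≤ n → 0 < t → M * n * B * m ≤ N →
  ∀ G : Finset ℕ, G = (Finset.range M).filter (fun i => ze ≤ ∑ b ∈ Finset.range n,
      (Real.log (Mx al c2 K m k L R T ((i * n + b) * B + 1) e)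
        + Real.log (c2 * (2 : ℝ) ^ (-(1 + al))))) →
  (G.card : ℝ) * (ze + Real.log c2 - (1 + al) * (Real.log t - 1))
      - (1 + al) * (M * n * B : ℕ) / t + Real.log (Kbar K N / 2) ≤ Real.log (zf K e N)

/-! ### combinatorics of patterns -/

/-- products over cells -/
def S_V : Prop := ∀ (k L R T : ℕ), Odd k → 2 ≤ L → ∀ f : ℕ → ℝ, f 0 = 1 → 0 < f 1 → 0 < f 2 →
  0 < f 3 → f 3 ≤ 1 →
  (∀ g ∈ Pat k L R T, (f 1 * f 2) ^ ((k + 1) / 2) * f 3 ^ T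
    ≤ ∏ c ∈ Finset.range (T + 1), f (ty g c)) ∧
  (∀ g ∈ Pat k L R T, ∀ g' ∈ Pat k L R T,
    f 3 ^ T * ∏ c ∈ Finset.range (T + 1), f (ty g' c)
      ≤ ∏ c ∈ Finset.range (T + 1), f (ty g c))

/-- displacement of the `i`-th switch -/
def dsp {k : ℕ} (g g' : Fin k → ℕ) (i : ℕ) : ℕ := ((Jp g' i : ℤ) - (Jp g i : ℤ)).natAbs

def S_NEAR : Prop := ∀ (k L R T : ℕ) (g g' : Fin k → ℕ), 8 ≤ L → g ∈ Pat k L R T →
  g' ∈ Pat k L R T → (∀ i, i ≤ k → dsp g g' i ≤ L / 2) →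
  ∑ i ∈ Finset.range k, (dsp g g' i - 1) ≤ Dd g g'

def S_FAR : Prop := ∀ (k L R T : ℕ) (g g' : Fin k → ℕ), 8 ≤ L → g ∈ Pat k L R T →
  g' ∈ Pat k L R T → (∃ i, i ≤ k ∧ L / 2 < dsp g g' i) → L / 2 - 3 ≤ Dd g g'

def S_NSUM : Prop := ∀ q : ℝ, 0 < q → q < 1 → ∃ D0 : ℝ, 1 ≤ D0 ∧ ∃ L0 : ℕ,
  ∀ (k L R T : ℕ), L0 ≤ L → 8 ≤ L → L ≤ R → ∀ g ∈ Pat k L R T,
  ∑ g' ∈ (Pat k L R T).filter (fun g' => ∀ i, i ≤ k → dsp g g' i ≤ L / 2),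
    (∏ l, Real.sqrt ((g l : ℝ) / (g' l : ℝ))) * q ^ (∑ i ∈ Finset.range k, (dsp g g' i - 1))
    ≤ D0 ^ k

def S_COMB : Prop := ∀ q : ℝ, 0 < q → q < 1 → ∃ D0 : ℝ, 1 ≤ D0 ∧ ∃ L0 : ℕ,
  ∀ (k L R T : ℕ), L0 ≤ L → 8 ≤ L → L ≤ R → ∀ g ∈ Pat k L R T,
  ∑ g' ∈ Pat k L R T, (∏ l, Real.sqrt ((g l : ℝ) / (g' l : ℝ))) * q ^ (Dd g g')
    ≤ D0 ^ k + (R : ℝ) ^ k * Real.sqrt ((R : ℝ) / (L : ℝ)) ^ k * q ^ (L / 2 - 3)

def S_PAR : Prop := ∀ (q c C : ℝ) (L0 : ℕ), 0 < q → q < 1 → 0 < c → 0 < C →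
  ∃ k L R T : ℕ, L0 ≤ L ∧ 8 ≤ L ∧ L ≤ R ∧ Odd k ∧
    (R : ℝ) ^ k * Real.sqrt ((R : ℝ) / (L : ℝ)) ^ k * q ^ (L / 2 - 3) ≤ 1 ∧
    C ≤ ∑ g ∈ Pat k L R T, ∏ l, (c / (g l : ℝ))

/-! ### probability -/

def S_HOLD : Prop := ∀ (Om : Type) [MeasurableSpace Om] (P : Measure Om), IsProbabilityMeasure P →
  ∀ (I : Type) (s : Finset I) (hs : s.Nonempty) (a : I → Om → ℝ) (gam : ℝ), 0 < gam →
  (∀ x, Measurable (a x)) → (∀ x w, 0 < a x w) →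
  (∀ x ∈ s, Integrable (fun w => (a x w) ^ gam) P) →
  Integrable (fun w => (s.sup' hs (fun x => a x w)) ^ gam) P ∧
  ∑ x ∈ s, (∫ w, (a x w) ^ gam ∂P) ^ 3 /
      (∑ y ∈ s, ∫ w, (a x w) ^ (gam / 2) * (a y w) ^ (gam / 2) ∂P) ^ 2
    ≤ ∫ w, (s.sup' hs (fun x => a x w)) ^ gam ∂P

def S_EXPF : Prop := ∀ (Om : Type) [MeasurableSpace Om] (P : Measure Om) (nu : Measure ℝ)
  (om : ℕ → Om → ℝ), IID P nu om → Dis nu → ∀ (s : Finset ℕ) (t : ℕ → ℝ),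
  Integrable (fun w => Real.exp (∑ n ∈ s, t n * om n w)) P ∧
  ∫ w, Real.exp (∑ n ∈ s, t n * om n w) ∂P = ∏ n ∈ s, mgf id nu (t n)

/-- Joint moments of two patterns (`gam1 = gam2 = gam / 2` or `gam1 = gam`, `gam2 = 0`). -/
def S_MOM : Prop := ∀ (Om : Type) [MeasurableSpace Om] (P : Measure Om) (nu : Measure ℝ)
  (om : ℕ → Om → ℝ), IID P nu om → Dis nu → ∀ (al c2 gam lam h : ℝ) (K : ℕ → ℝ)
  (m k T a : ℕ) (g g' : Fin k → ℕ), 0 < c2 → ∑ i, g i = T → ∑ i, g' i = T →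
  (∀ l, 1 ≤ g l) → (∀ l, 1 ≤ g' l) →
  (Integrable (fun w => (Ag al c2 K m g a (ee lam h (fun n => om n w))) ^ gam) P ∧
    ∫ w, (Ag al c2 K m g a (ee lam h (fun n => om n w))) ^ gam ∂P
      = (∏ l, (c2 * (g l : ℝ) ^ (-(1 + al)))) ^ gam
        * ∏ c ∈ Finset.range (T + 1), ph nu K m gam lam h (ty g c)) ∧
  ∫ w, (Ag al c2 K m g a (ee lam h (fun n => om n w))) ^ (gam / 2)
      * (Ag al c2 K m g' a (ee lam h (fun n => om n w))) ^ (gam / 2) ∂P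
    = ((∏ l, (c2 * (g l : ℝ) ^ (-(1 + al)))) * (∏ l, (c2 * (g' l : ℝ) ^ (-(1 + al))))) ^ (gam / 2)
      * ∏ c ∈ Finset.range (T + 1), ps nu K m gam lam h (ty g c) (ty g' c)

def S_PSI : Prop := ∀ (nu : Measure ℝ), Dis nu → ∀ (K : ℕ → ℝ) (m : ℕ) (gam lam h : ℝ)
  (s t : ℕ), 0 < ph nu K m gam lam h s ∧ 0 < ps nu K m gam lam h s t ∧
  ps nu K m gam lam h s t = ps nu K m gam lam h t s ∧
  ps nu K m gam lam h s t ≤ Real.sqrt (ph nu K m gam lam h s * ph nu K m gam lam h t)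

/-- Size of the cells. -/
def mm (lam : ℝ) : ℕ := ⌈1 / lam ^ 2⌉₊

def S_SM : Prop := ∀ (al : ℝ) (K : ℕ → ℝ) (nu : Measure ℝ), Ren al K → Dis nu → ∀ T : ℕ,
  ∃ eps : ℝ, 0 < eps ∧ eps ≤ 1 ∧ ∃ lam0 : ℝ, 0 < lam0 ∧ lam0 ≤ 1 ∧
  ∀ lam : ℝ, 0 < lam → lam < lam0 → ∀ gam h : ℝ, gam = 1 / (1 + al) → h = (gam + eps) * lam →
    ph nu K (mm lam) gam lam h 3 ≤ 1 ∧
    1 / 2 ≤ (ph nu K (mm lam) gam lam h 3) ^ T ∧
    ps nu K (mm lam) gam lam h 0 3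
      ≤ Real.exp (-(gam ^ 2 / 4)) * Real.sqrt (ph nu K (mm lam) gam lam h 3) ∧
    Real.exp (-8) ≤ ph nu K (mm lam) gam lam h 1 ∧
    Real.exp (-8) ≤ ph nu K (mm lam) gam lam h 2

/-- The fractional moment of the block is large, uniformly for small `lam`. -/
def S_I : Prop := ∀ (al c2 : ℝ) (K : ℕ → ℝ) (nu : Measure ℝ), Ren al K → Dis nu → 0 < c2 →
  c2 ≤ 1 → ∀ C : ℝ, 0 < C →
  ∃ k L R T : ℕ, Odd k ∧ 2 ≤ L ∧ (Pat k L R T).Nonempty ∧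
  ∃ eps : ℝ, 0 < eps ∧ ∃ lam0 : ℝ, 0 < lam0 ∧
  ∀ lam : ℝ, 0 < lam → lam < lam0 →
  ∀ (Om : Type) [MeasurableSpace Om] (P : Measure Om) (om : ℕ → Om → ℝ), IID P nu om →
  ∀ a : ℕ,
    Integrable (fun w => (Mx al c2 K (mm lam) k L R T a
      (ee lam ((1 / (1 + al) + eps) * lam) (fun n => om n w))) ^ (1 / (1 + al))) P ∧
    C ≤ ∫ w, (Mx al c2 K (mm lam) k L R T a
      (ee lam ((1 / (1 + al) + eps) * lam) (fun n => om n w))) ^ (1 / (1 + al)) ∂P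

/-- Blocks of an i.i.d. sequence are i.i.d. -/
def S_IIDB : Prop := ∀ (Om : Type) [MeasurableSpace Om] (P : Measure Om) (nu : Measure ℝ)
  (om : ℕ → Om → ℝ), IID P nu om → ∀ (len : ℕ) (F : (ℕ → ℝ) → ℝ), Measurable F →
  (∀ x y : ℕ → ℝ, (∀ i, 1 ≤ i → i ≤ len → x i = y i) → F x = F y) →
  iIndepFun (fun (b : ℕ) (w : Om) => F (fun i => om (b * len + i) w)) P ∧
  ∀ b : ℕ, P.map (fun w => F (fun i => om (b * len + i) w))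
    = P.map (fun w => F (fun i => om i w))

/-- From an exponential moment larger than `1` to good stretches. -/
def S_LOC : Prop := ∀ (Om : Type) [MeasurableSpace Om] (P : Measure Om), IsProbabilityMeasure P →
  ∀ (X : ℕ → Om → ℝ) (gam C : ℝ), 0 < gam → 0 < C → (∀ b, Measurable (X b)) →
  iIndepFun X P → (∀ b, P.map (X b) = P.map (X 0)) →
  Integrable (fun w => Real.exp (gam * X 0 w)) P → 2 ≤ ∫ w, Real.exp (gam * X 0 w) ∂P →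
  ∃ (n : ℕ) (ze p : ℝ), 1 ≤ n ∧ 0 < p ∧ p ≤ 1 ∧
    (∀ i : ℕ, (P {w | ze ≤ ∑ b ∈ Finset.range n, X (i * n + b) w}).toReal = p) ∧
    C * n < Real.exp (gam * ze) * p

/-- Integrability of the logarithm of the partition function. -/
def S_INT : Prop := ∀ (al : ℝ) (K : ℕ → ℝ) (nu : Measure ℝ), Ren al K → Dis nu →
  ∀ (Om : Type) [MeasurableSpace Om] (P : Measure Om) (om : ℕ → Om → ℝ), IID P nu om →
  ∀ (lam h : ℝ) (N : ℕ), Integrable (fun w => Real.log (zf K (ee lam h (fun n => om n w)) N)) P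

/-- Measurability of the best pattern weight. -/
def S_MS : Prop := ∀ (al c2 lam h : ℝ) (K : ℕ → ℝ) (m k L R T a : ℕ),
  Measurable (fun x : ℕ → ℝ => Mx al c2 K m k L R T a (ee lam h x)) ∧
  (0 < c2 → 1 ≤ L → ∀ x : ℕ → ℝ, 0 < Mx al c2 K m k L R T a (ee lam h x)) ∧
  (∀ x y : ℕ → ℝ, (∀ i, a * m < i → i ≤ (a + T + 1) * m → x i = y i) →
    Mx al c2 K m k L R T a (ee lam h x) = Mx al c2 K m k L R T a (ee lam h y)) ∧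
  (∀ (x : ℕ → ℝ) (s : ℕ), Mx al c2 K m k L R T (s + a) (ee lam h x)
    = Mx al c2 K m k L R T a (ee lam h (fun i => x (s * m + i))))

/-- Strict positivity of the free energy at `h = (1/(1+al) + eps) lam`. -/
def S_FIN : Prop := ∀ (al : ℝ) (K : ℕ → ℝ) (nu : Measure ℝ), Ren al K → Dis nu →
  ∃ eps : ℝ, 0 < eps ∧ ∃ lam0 : ℝ, 0 < lam0 ∧ ∀ lam : ℝ, 0 < lam → lam < lam0 →
  ∀ (Om : Type) [MeasurableSpace Om] (P : Measure Om) (om : ℕ → Om → ℝ), IID P nu om →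
  ∃ c : ℝ, 0 < c ∧ ∀ᶠ N : ℕ in atTop,
    c ≤ (1 / (N : ℝ)) *
      ∫ w, Real.log (zf K (ee lam ((1 / (1 + al) + eps) * lam) (fun n => om n w)) N) ∂P

/-! ### the partition function as an expectation -/

/-- Renewal epochs of a configuration `s` of (excursion length, sign). -/
def tau (s : ℕ → ℕ × Bool) (i : ℕ) : ℕ := ∑ l ∈ Finset.range i, (s l).1

open Classical in
/-- `Del s n = 1` if `n` lies in an excursion with negative sign (`true`), `0` otherwise. -/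
def Del (s : ℕ → ℕ × Bool) (n : ℕ) : ℝ :=
  if ∃ i, tau s i < n ∧ n ≤ tau s (i + 1) ∧ (s i).2 = true then 1 else 0

/-- Law of one (excursion length, sign): length with law `K`, independent fair sign. -/
def law1 (K : ℕ → ℝ) : Measure (ℕ × Bool) :=
  Measure.sum (fun n : ℕ => ENNReal.ofReal (K n / 2) •
    (Measure.dirac (n, true) + Measure.dirac (n, false)))

/-- Law of the whole configuration. -/
def lawS (K : ℕ → ℝ) : Measure (ℕ → ℕ × Bool) := Measure.infinitePi (fun _ : ℕ => law1 K)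

/-- The copolymer partition function `E exp(-2 lam sum_{n=1}^N Delta_n (omega_n + h))`. -/
def Zcop (K : ℕ → ℝ) (lam h : ℝ) (x : ℕ → ℝ) (N : ℕ) : ℝ :=
  ∫ s, Real.exp (-2 * lam * ∑ n ∈ Finset.Icc 1 N, Del s n * (x n + h)) ∂(lawS K)

/-- first-renewal recursion of the free partition function -/
def S_BR1 : Prop := ∀ (K e : ℕ → ℝ), K 0 = 0 → ∀ N : ℕ,
  zf K e N = ∑ n ∈ Finset.Icc 1 N, K n * ew (En e 0 n) * zf K (fun i => e (n + i)) (N - n)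
    + Kbar K N * ew (En e 0 N)

def S_BR : Prop := ∀ (K : ℕ → ℝ), (∀ n, 0 ≤ K n) → HasSum K 1 → K 0 = 0 →
  IsProbabilityMeasure (law1 K) ∧ ∀ (lam h : ℝ) (x : ℕ → ℝ) (N : ℕ),
  Zcop K lam h x N = zf K (ee lam h x) N

/-- annealed bound -/
def S_ANN : Prop := ∀ (al : ℝ) (K : ℕ → ℝ) (nu : Measure ℝ), Ren al K → Dis nu →
  ∀ (Om : Type) [MeasurableSpace Om] (P : Measure Om) (om : ℕ → Om → ℝ), IID P nu om →
  ∀ (lam h : ℝ), mgf id nu (-2 * lam) * Real.exp (-2 * lam * h) ≤ 1 →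
  ∀ N : ℕ, ∫ w, Real.log (Zcop K lam h (fun n => om n w) N) ∂P ≤ 0

end

end Pool.Agent.N940.CO
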