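import Mathlib
import Pool.Agent.N940.CO.Stm

/-!
Project CO (helper940): the partition function as an expectation (part BR, helper507).
-/

open MeasureTheory ProbabilityTheory Filter Topology

namespace Pool.Agent.N940.CO.Br

noncomputable section

theorem law1_univ {K : ℕ → ℝ} (h0 : ∀ n, 0 ≤ K n) (h1 : HasSum K 1) : law1 K Set.univ = 1 := by
  unfold law1
  rw [Measure.sum_apply _ MeasurableSet.univ]
  have h2 : ∀ n, (ENNReal.ofReal (K n / 2) • (Measure.dirac (n, true) +
      Measure.dirac (n, false)) : Measure (ℕ × Bool)) Set.univ = ENNReal.ofReal (K n) := by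
    intro n
    rw [Measure.smul_apply, Measure.add_apply, measure_univ, measure_univ, smul_eq_mul,
      one_add_one_eq_two, show (2 : ENNReal) = ENNReal.ofReal 2 by simp,
      ← ENNReal.ofReal_mul (by linarith [h0 n])]
    congr 1
    ring
  simp_rw [h2]
  rw [← ENNReal.ofReal_tsum_of_nonneg h0 h1.summable, h1.tsum_eq, ENNReal.ofReal_one]

/-- put an element in front of a sequence -/
def cs {α : Type} (p : α × (ℕ → α)) : ℕ → α
  | 0 => p.1
  | i + 1 => p.2 i

theorem meas_cs {α : Type} [MeasurableSpace α] : Measurable (cs : α × (ℕ → α) → ℕ → α) := by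
  rw [measurable_pi_iff]
  intro i
  cases i with
  | zero => exact measurable_fst
  | succ i => exact (measurable_pi_apply i).comp measurable_snd

theorem map_cs {α : Type} [MeasurableSpace α] (μ : Measure α) [IsProbabilityMeasure μ] :
    (μ.prod (Measure.infinitePi fun _ : ℕ => μ)).map cs = Measure.infinitePi fun _ : ℕ => μ := by
  classical
  apply Measure.eq_infinitePi
  intro s t ht
  obtain ⟨n, hn⟩ : ∃ n, s ⊆ Finset.range (n + 1) := by
    refine ⟨s.sup id, fun i hi => ?_⟩
    rw [Finset.mem_range, Nat.lt_succ_iff]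
    exact Finset.le_sup (f := id) hi
  obtain ⟨t', ht'⟩ : ∃ t' : ℕ → Set α, t' = fun i => if i ∈ s then t i else Set.univ := ⟨_, rfl⟩
  have htm : ∀ i, MeasurableSet (t' i) := by
    intro i
    rw [ht']
    beta_reduce
    split_ifs
    · exact ht i
    · exact MeasurableSet.univ
  have hin : ∀ i, i ∈ s → t' i = t i := by
    intro i hi
    rw [ht']
    exact if_pos hi
  have hout : ∀ i, i ∉ s → t' i = Set.univ := by
    intro i hi
    rw [ht']
    exact if_neg hi
  rw [Measure.map_apply meas_cs (MeasurableSet.pi s.countable_toSet (fun i _ => ht i))]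
  have e1 : cs ⁻¹' ((s : Set ℕ).pi t) =
      t' 0 ×ˢ ((Finset.range n : Finset ℕ) : Set ℕ).pi (fun i => t' (i + 1)) := by
    ext ⟨a, x⟩
    constructor
    · intro h
      refine ⟨?_, fun i _ => ?_⟩
      · show a ∈ t' 0
        by_cases h0 : 0 ∈ s
        · rw [hin 0 h0]
          exact h 0 h0
        · rw [hout 0 h0]
          exact Set.mem_univ _
      · show x i ∈ t' (i + 1)
        by_cases h0 : i + 1 ∈ s
        · rw [hin _ h0]
          exact h (i + 1) h0
        · rw [hout _ h0]
          exact Set.mem_univ _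
    · rintro ⟨h1, h2⟩ i hi
      cases i with
      | zero =>
        have h1' : a ∈ t' 0 := h1
        rw [hin 0 hi] at h1'
        exact h1'
      | succ i =>
        have h3 : i ∈ ((Finset.range n : Finset ℕ) : Set ℕ) := by
          have := Finset.mem_range.1 (hn hi)
          rw [Finset.mem_coe, Finset.mem_range]
          omega
        have h4 : x i ∈ t' (i + 1) := h2 i h3
        rw [hin _ hi] at h4
        exact h4
  rw [e1, Measure.prod_prod, Measure.infinitePi_pi _ (fun i _ => htm _)]
  have e2 : ∏ i ∈ s, μ (t i) = ∏ i ∈ Finset.range (n + 1), μ (t' i) := by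
    rw [← Finset.prod_subset hn (f := fun i => μ (t' i))]
    · exact Finset.prod_congr rfl fun i hi => by rw [hin i hi]
    · intro i _ hi
      rw [hout i hi, measure_univ]
  rw [e2, Finset.prod_range_succ', mul_comm]

/-! ### The configuration after the first excursion -/

theorem tau_cs (a : ℕ × Bool) (s : ℕ → ℕ × Bool) (i : ℕ) :
    tau (cs (a, s)) (i + 1) = a.1 + tau s i := by
  unfold tau
  rw [Finset.sum_range_succ', add_comm]
  rfl

theorem tau_zero (s : ℕ → ℕ × Bool) : tau s 0 = 0 := by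
  unfold tau
  simp

theorem Del_le (a : ℕ × Bool) (s : ℕ → ℕ × Bool) {n : ℕ} (h1 : 1 ≤ n) (h2 : n ≤ a.1) :
    Del (cs (a, s)) n = if a.2 = true then 1 else 0 := by
  classical
  unfold Del
  refine if_congr ?_ rfl rfl
  constructor
  · rintro ⟨i, h3, h4, h5⟩
    cases i with
    | zero => exact h5
    | succ i =>
      rw [tau_cs] at h3
      omega
  · intro h
    refine ⟨0, ?_, ?_, h⟩
    · rw [tau_zero]
      omega
    · rw [tau_cs, tau_zero]
      omega

theorem Del_gt (a : ℕ × Bool) (s : ℕ → ℕ × Bool) {n : ℕ} (h1 : 1 ≤ n) :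
    Del (cs (a, s)) (a.1 + n) = Del s n := by
  classical
  unfold Del
  refine if_congr ?_ rfl rfl
  constructor
  · rintro ⟨i, h3, h4, h5⟩
    cases i with
    | zero =>
      rw [tau_cs, tau_zero] at h4
      omega
    | succ i =>
      rw [tau_cs] at h3 h4
      exact ⟨i, by omega, by omega, h5⟩
  · rintro ⟨i, h3, h4, h5⟩
    refine ⟨i + 1, ?_, ?_, h5⟩
    · rw [tau_cs]
      omega
    · rw [tau_cs]
      omega

theorem meas_tau (i : ℕ) : Measurable fun s : ℕ → ℕ × Bool => tau s i := by
  unfold tau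
  exact Finset.measurable_sum _ fun l _ => (measurable_pi_apply l).fst

theorem meas_Del (n : ℕ) : Measurable fun s : ℕ → ℕ × Bool => Del s n := by
  unfold Del
  refine Measurable.ite ?_ measurable_const measurable_const
  have e : {s : ℕ → ℕ × Bool | ∃ i, tau s i < n ∧ n ≤ tau s (i + 1) ∧ (s i).2 = true} =
      ⋃ i, {s : ℕ → ℕ × Bool | tau s i < n ∧ n ≤ tau s (i + 1) ∧ (s i).2 = true} := by
    ext s
    simp
  rw [e]
  refine MeasurableSet.iUnion fun i => ?_
  have h1 : MeasurableSet {s : ℕ → ℕ × Bool | tau s i < n} :=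
    (meas_tau i) (MeasurableSet.of_discrete (s := Set.Iio n))
  have h2 : MeasurableSet {s : ℕ → ℕ × Bool | n ≤ tau s (i + 1)} :=
    (meas_tau (i + 1)) (MeasurableSet.of_discrete (s := Set.Ici n))
  have h3 : MeasurableSet {s : ℕ → ℕ × Bool | (s i).2 = true} :=
    ((measurable_pi_apply i).snd) (MeasurableSet.of_discrete (s := {true}))
  exact h1.inter (h2.inter h3)

/-- the integrand -/
def fB (e : ℕ → ℝ) (N : ℕ) (s : ℕ → ℕ × Bool) : ℝ :=
  Real.exp (-2 * ∑ n ∈ Finset.Icc 1 N, Del s n * e n)

theorem meas_fB (e : ℕ → ℝ) (N : ℕ) : Measurable (fB e N) := by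
  unfold fB
  refine Real.measurable_exp.comp (measurable_const.mul ?_)
  exact Finset.measurable_sum _ fun n _ => (meas_Del n).mul_const _

theorem Del_abs (s : ℕ → ℕ × Bool) (n : ℕ) : |Del s n| ≤ 1 := by
  unfold Del
  split_ifs <;> simp

theorem fB_le (e : ℕ → ℝ) (N : ℕ) (s : ℕ → ℕ × Bool) :
    ‖fB e N s‖ ≤ Real.exp (2 * ∑ n ∈ Finset.Icc 1 N, |e n|) := by
  unfold fB
  rw [Real.norm_eq_abs, abs_of_pos (Real.exp_pos _)]
  apply Real.exp_le_exp.2
  have h1 : -(∑ n ∈ Finset.Icc 1 N, Del s n * e n) ≤ ∑ n ∈ Finset.Icc 1 N, |e n| := by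
    rw [← Finset.sum_neg_distrib]
    refine Finset.sum_le_sum fun n _ => ?_
    calc -(Del s n * e n) ≤ |Del s n * e n| := neg_le_abs _
      _ = |Del s n| * |e n| := abs_mul _ _
      _ ≤ 1 * |e n| := mul_le_mul_of_nonneg_right (Del_abs s n) (abs_nonneg _)
      _ = |e n| := one_mul _
  linarith

theorem sum_le' (e : ℕ → ℝ) (N : ℕ) (a : ℕ × Bool) (s : ℕ → ℕ × Bool) (h : a.1 ≤ N) :
    ∑ n ∈ Finset.Icc 1 N, Del (cs (a, s)) n * e n =
      (if a.2 = true then 1 else 0) * En e 0 a.1 +
        ∑ n ∈ Finset.Icc 1 (N - a.1), Del s n * e (a.1 + n) := by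
  have h1 : Finset.Icc 1 N = Finset.Icc 1 a.1 ∪ (Finset.Icc 1 (N - a.1)).image (fun n => a.1 + n) := by
    ext n
    rw [Finset.mem_union, Finset.mem_image, Finset.mem_Icc, Finset.mem_Icc]
    constructor
    · rintro ⟨h2, h3⟩
      by_cases h4 : n ≤ a.1
      · exact Or.inl ⟨h2, h4⟩
      · right
        refine ⟨n - a.1, ?_, by omega⟩
        rw [Finset.mem_Icc]
        omega
    · rintro (⟨h2, h3⟩ | ⟨m, h2, h3⟩)
      · exact ⟨h2, by omega⟩
      · rw [Finset.mem_Icc] at h2
        omega
  have h2 : Disjoint (Finset.Icc 1 a.1) ((Finset.Icc 1 (N - a.1)).image (fun n => a.1 + n)) := by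
    rw [Finset.disjoint_left]
    intro n h3 h4
    rw [Finset.mem_image] at h4
    obtain ⟨m, h5, h6⟩ := h4
    rw [Finset.mem_Icc] at h3 h5
    omega
  rw [h1, Finset.sum_union h2, Finset.sum_image (fun x _ y _ h => by
    have : a.1 + x = a.1 + y := h
    omega)]
  congr 1
  · unfold En
    rw [Finset.mul_sum]
    have h3 : Finset.Ioc 0 a.1 = Finset.Icc 1 a.1 := by
      ext n
      rw [Finset.mem_Ioc, Finset.mem_Icc]
      omega
    rw [h3]
    refine Finset.sum_congr rfl fun n hn => ?_
    rw [Finset.mem_Icc] at hn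
    rw [Del_le a s hn.1 hn.2]
  · refine Finset.sum_congr rfl fun n hn => ?_
    rw [Finset.mem_Icc] at hn
    rw [Del_gt a s hn.1]

theorem sum_gt' (e : ℕ → ℝ) (N : ℕ) (a : ℕ × Bool) (s : ℕ → ℕ × Bool) (h : N < a.1) :
    ∑ n ∈ Finset.Icc 1 N, Del (cs (a, s)) n * e n =
      (if a.2 = true then 1 else 0) * En e 0 N := by
  unfold En
  rw [Finset.mul_sum]
  have h3 : Finset.Ioc 0 N = Finset.Icc 1 N := by
    ext n
    rw [Finset.mem_Ioc, Finset.mem_Icc]
    omega
  rw [h3]
  refine Finset.sum_congr rfl fun n hn => ?_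
  rw [Finset.mem_Icc] at hn
  rw [Del_le a s hn.1 (by omega)]

/-- the partition function -/
def Zb (K e : ℕ → ℝ) (N : ℕ) : ℝ := ∫ s, fB e N s ∂(lawS K)

theorem integral_law1 {K : ℕ → ℝ} (h0 : ∀ n, 0 ≤ K n) (g : ℕ × Bool → ℝ)
    (hg : Integrable g (law1 K)) :
    ∫ a, g a ∂(law1 K) = ∑' n, K n * ((g (n, true) + g (n, false)) / 2) := by
  unfold law1 at hg ⊢
  rw [integral_sum_measure hg]
  refine tsum_congr fun n => ?_
  rw [integral_smul_measure, integral_add_measure (integrable_dirac (by simp))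
    (integrable_dirac (by simp)), integral_dirac, integral_dirac,
    ENNReal.toReal_ofReal (by linarith [h0 n]), smul_eq_mul]
  ring

/-- the recursion -/
theorem Zb_rec {K : ℕ → ℝ} (h0 : ∀ n, 0 ≤ K n) (h1 : HasSum K 1) (hK0 : K 0 = 0) (e : ℕ → ℝ)
    (N : ℕ) : Zb K e N = ∑ n ∈ Finset.Icc 1 N, K n * ew (En e 0 n) *
      Zb K (fun i => e (n + i)) (N - n) + Kbar K N * ew (En e 0 N) := by
  haveI : IsProbabilityMeasure (law1 K) := ⟨law1_univ h0 h1⟩
  haveI : IsProbabilityMeasure (lawS K) := by unfold lawS; infer_instance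
  have hbd : ∀ p, ‖fB e N (cs p)‖ ≤ Real.exp (2 * ∑ n ∈ Finset.Icc 1 N, |e n|) :=
    fun p => fB_le e N _
  have hmeas : Measurable fun p : (ℕ × Bool) × (ℕ → ℕ × Bool) => fB e N (cs p) :=
    (meas_fB e N).comp meas_cs
  have hint : Integrable (fun p : (ℕ × Bool) × (ℕ → ℕ × Bool) => fB e N (cs p))
      ((law1 K).prod (lawS K)) :=
    Integrable.of_bound hmeas.aestronglyMeasurable _ (Eventually.of_forall hbd)
  have e1 : Zb K e N = ∫ a, ∫ s, fB e N (cs (a, s)) ∂(lawS K) ∂(law1 K) := by
    unfold Zb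
    have h2 : lawS K = ((law1 K).prod (lawS K)).map cs := (map_cs (law1 K)).symm
    conv_lhs => rw [h2]
    rw [integral_map meas_cs.aemeasurable (meas_fB e N).aestronglyMeasurable]
    exact integral_prod _ hint
  rw [e1, integral_law1 h0 _ hint.integral_prod_left]
  -- the inner integrals
  obtain ⟨H, hH⟩ : ∃ H : ℕ → ℝ, H = fun n => if n ≤ N then
      ew (En e 0 n) * Zb K (fun i => e (n + i)) (N - n) else ew (En e 0 N) := ⟨_, rfl⟩
  have hinner : ∀ n, ((∫ s, fB e N (cs ((n, true), s)) ∂(lawS K)) +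
      (∫ s, fB e N (cs ((n, false), s)) ∂(lawS K))) / 2 = H n := by
    intro n
    rw [hH]
    by_cases hn : n ≤ N
    · have h2 : ∀ b : Bool, (∫ s, fB e N (cs ((n, b), s)) ∂(lawS K)) =
          Real.exp (-2 * ((if b = true then 1 else 0) * En e 0 n)) *
            Zb K (fun i => e (n + i)) (N - n) := by
        intro b
        unfold Zb
        rw [← integral_const_mul]
        congr 1
        funext s
        unfold fB
        rw [sum_le' e N (n, b) s hn, mul_add, Real.exp_add]
      rw [h2, h2]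
      simp only [if_true, Bool.false_eq_true, if_false, one_mul, zero_mul, mul_zero, Real.exp_zero,
        if_pos hn, ew]
      ring
    · have h2 : ∀ b : Bool, (∫ s, fB e N (cs ((n, b), s)) ∂(lawS K)) =
          Real.exp (-2 * ((if b = true then 1 else 0) * En e 0 N)) := by
        intro b
        have h3 : ∀ s, fB e N (cs ((n, b), s)) =
            Real.exp (-2 * ((if b = true then 1 else 0) * En e 0 N)) := by
          intro s
          unfold fB
          rw [sum_gt' e N (n, b) s (by push Not at hn; exact hn)]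
        simp_rw [h3]
        rw [integral_const]
        simp
      rw [h2, h2]
      simp only [if_true, Bool.false_eq_true, if_false, one_mul, zero_mul, mul_zero, Real.exp_zero,
        if_neg hn, ew]
      ring
  simp_rw [hinner]
  -- the sum
  have hsum : HasSum (fun n => K n * H n) (∑ n ∈ Finset.range (N + 1), K n * H n +
      Kbar K N * ew (En e 0 N)) := by
    have h2 : HasSum (fun n => K (n + (N + 1)) * H (n + (N + 1))) (Kbar K N * ew (En e 0 N)) := by
      have h3 : HasSum (fun n => K (n + (N + 1))) (Kbar K N) := by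
        unfold Kbar
        rw [hasSum_nat_add_iff]
        rw [sub_add_cancel]
        exact h1
      have h4 : (fun n => K (n + (N + 1)) * H (n + (N + 1))) =
          fun n => K (n + (N + 1)) * ew (En e 0 N) := by
        funext n
        rw [hH]
        beta_reduce
        rw [if_neg (by omega)]
      rw [h4]
      exact h3.mul_right _
    rw [add_comm]
    exact (hasSum_nat_add_iff (f := fun n => K n * H n) (N + 1)).1 h2
  rw [hsum.tsum_eq]
  congr 1
  rw [Finset.sum_range_succ', hK0, zero_mul, add_zero]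
  have h5 : Finset.Icc 1 N = (Finset.range N).image (fun n => n + 1) := by
    ext n
    rw [Finset.mem_Icc, Finset.mem_image]
    constructor
    · rintro ⟨h6, h7⟩
      exact ⟨n - 1, Finset.mem_range.2 (by omega), by omega⟩
    · rintro ⟨m, h6, h7⟩
      rw [Finset.mem_range] at h6
      omega
  rw [h5, Finset.sum_image (fun x _ y _ h => by
    have : x + 1 = y + 1 := h
    omega)]
  refine Finset.sum_congr rfl fun n hn => ?_
  rw [Finset.mem_range] at hn
  rw [hH]
  beta_reduce
  rw [if_pos (by omega)]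
  ring

theorem main (h1 : S_BR1) : S_BR := by
  intro K hK hsum hK0
  refine ⟨⟨law1_univ hK hsum⟩, fun lam h x N => ?_⟩
  have hmain : ∀ N e, Zb K e N = zf K e N := by
    intro N
    induction N using Nat.strong_induction_on with
    | _ N ih =>
      intro e
      rw [Zb_rec hK hsum hK0, h1 K e hK0 N]
      congr 1
      refine Finset.sum_congr rfl fun n hn => ?_
      rw [Finset.mem_Icc] at hn
      rw [ih (N - n) (by omega)]
  rw [← hmain]
  unfold Zcop Zb
  congr 1
  funext s
  unfold fB ee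
  congr 1
  have e1 : lam * ∑ n ∈ Finset.Icc 1 N, Del s n * (x n + h) =
      ∑ n ∈ Finset.Icc 1 N, Del s n * (lam * (x n + h)) := by
    rw [Finset.mul_sum]
    refine Finset.sum_congr rfl fun n _ => ?_
    ring
  rw [mul_assoc, e1]

end

end Pool.Agent.N940.CO.Br
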