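import Mathlib
import Pool.Agent.N940.CO.Stm

/-!
Project CO: the recursion of the free partition function at the first renewal.
-/

namespace Pool.Agent.N940.CO.Br1

open Pool.Agent.N940.CO Finset

theorem zc_rec (K e : ℕ → ℝ) (N : ℕ) (hN : 1 ≤ N) :
    zc K e N = ∑ i ∈ range N, zc K e i * (K (N - i) * ew (En e i N)) := by
  obtain ⟨M, rfl⟩ : ∃ M, N = M + 1 := ⟨N - 1, by omega⟩
  rw [zc, Finset.sum_range]

theorem swap (N : ℕ) (F : ℕ → ℕ → ℝ) :
    ∑ i ∈ range (N + 1), ∑ n ∈ Icc 1 i, F n i
      = ∑ n ∈ Icc 1 N, ∑ j ∈ range (N - n + 1), F n (n + j) := by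
  have h1 : ∑ i ∈ range (N + 1), ∑ n ∈ Icc 1 i, F n i
      = ∑ n ∈ Icc 1 N, ∑ i ∈ Ico n (N + 1), F n i := by
    refine Finset.sum_comm' ?_
    intro x y
    simp only [mem_range, mem_Icc, mem_Ico]
    omega
  rw [h1]
  refine Finset.sum_congr rfl fun n hn => ?_
  rw [mem_Icc] at hn
  rw [Finset.sum_Ico_eq_sum_range, show N + 1 - n = N - n + 1 by omega]

theorem En_shift (e : ℕ → ℝ) (n a b : ℕ) :
    En (fun i => e (n + i)) a b = En e (n + a) (n + b) := by
  unfold En
  rw [← Finset.sum_image (f := e) (g := fun i => n + i) (by intro x _ y _ h; simpa using h)]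
  refine Finset.sum_congr ?_ fun _ _ => rfl
  ext x
  simp only [mem_image, mem_Ioc]
  constructor
  · rintro ⟨i, hi, rfl⟩; omega
  · intro hx; exact ⟨x - n, by omega, by omega⟩

theorem zc_first (K e : ℕ → ℝ) (N : ℕ) :
    zc K e N = (if N = 0 then 1 else 0) +
      ∑ n ∈ Icc 1 N, K n * ew (En e 0 n) * zc K (fun i => e (n + i)) (N - n) := by
  induction N using Nat.strong_induction_on with
  | _ N ih =>
    rcases Nat.eq_zero_or_pos N with rfl | hN
    · simp [zc]
    · obtain ⟨M, rfl⟩ : ∃ M, N = M + 1 := ⟨N - 1, by omega⟩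
      rw [zc_rec K e (M + 1) hN]
      have h1 : ∀ i ∈ range (M + 1), zc K e i * (K (M + 1 - i) * ew (En e i (M + 1)))
          = (if i = 0 then K (M + 1) * ew (En e 0 (M + 1)) else 0) +
            ∑ n ∈ Icc 1 i, K n * ew (En e 0 n) * (zc K (fun i => e (n + i)) (i - n) *
              (K (M + 1 - i) * ew (En e i (M + 1)))) := by
        intro i hi
        rw [mem_range] at hi
        rw [ih i hi, add_mul, Finset.sum_mul]
        congr 1
        · by_cases h0 : i = 0
          · subst h0; simp
          · simp [h0]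
        · refine Finset.sum_congr rfl fun n _ => ?_
          ring
      rw [Finset.sum_congr rfl h1, Finset.sum_add_distrib,
        swap M (fun n i => K n * ew (En e 0 n) * (zc K (fun i => e (n + i)) (i - n) *
              (K (M + 1 - i) * ew (En e i (M + 1)))))]
      rw [Finset.sum_ite_eq' (range (M + 1)) 0, if_pos (by simp), if_neg (by omega), zero_add]
      have h2 : ∀ n ∈ Icc 1 M, ∑ j ∈ range (M - n + 1), K n * ew (En e 0 n) *
            (zc K (fun i => e (n + i)) (n + j - n) *
              (K (M + 1 - (n + j)) * ew (En e (n + j) (M + 1))))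
          = K n * ew (En e 0 n) * zc K (fun i => e (n + i)) (M + 1 - n) := by
        intro n hn
        rw [mem_Icc] at hn
        rw [zc_rec K (fun i => e (n + i)) (M + 1 - n) (by omega), Finset.mul_sum,
          show M + 1 - n = M - n + 1 by omega]
        refine Finset.sum_congr rfl fun j hj => ?_
        rw [mem_range] at hj
        rw [En_shift, show n + j - n = j by omega, show M + 1 - (n + j) = M - n + 1 - j by omega,
          show n + (M - n + 1) = M + 1 by omega]
      rw [Finset.sum_congr rfl h2]
      rw [Finset.sum_Icc_succ_top (by omega)]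
      simp [zc]
      ring

theorem main : S_BR1 := by
  intro K e _ N
  unfold zf
  have h1 : ∀ i ∈ range (N + 1), zc K e i * (Kbar K (N - i) * ew (En e i N))
      = (if i = 0 then Kbar K N * ew (En e 0 N) else 0) +
        ∑ n ∈ Icc 1 i, K n * ew (En e 0 n) * (zc K (fun i => e (n + i)) (i - n) *
          (Kbar K (N - i) * ew (En e i N))) := by
    intro i hi
    rw [zc_first K e i, add_mul, Finset.sum_mul]
    congr 1
    · by_cases h0 : i = 0
      · subst h0; simp
      · simp [h0]
    · refine Finset.sum_congr rfl fun n _ => ?_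
      ring
  rw [Finset.sum_congr rfl h1, Finset.sum_add_distrib,
    swap N (fun n i => K n * ew (En e 0 n) * (zc K (fun i => e (n + i)) (i - n) *
          (Kbar K (N - i) * ew (En e i N)))),
    Finset.sum_ite_eq' (range (N + 1)) 0, if_pos (by simp), add_comm]
  congr 1
  refine Finset.sum_congr rfl fun n hn => ?_
  rw [mem_Icc] at hn
  rw [Finset.mul_sum]
  refine Finset.sum_congr rfl fun j hj => ?_
  rw [mem_range] at hj
  rw [En_shift, show n + j - n = j by omega, show N - (n + j) = N - n - j by omega,
    show n + (N - n) = N by omega]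

end Pool.Agent.N940.CO.Br1
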