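import Pool.Agent.N940.CO.Stm

set_option autoImplicit false

/-! Project CO, piece CH: chaining of the superblocks (helper769). -/

namespace Pool.Agent.N940.CO.Ch

open Finset

/-- the elementary inequality `log d ≤ log t - 1 + d / t` in exponential form -/
theorem cost {al c2 ze t : ℝ} (hal : 0 < al) (hc2 : 0 < c2) (ht : 0 < t) {d : ℕ} (hd : 1 ≤ d) :
    Real.exp ((ze + Real.log c2 - (1 + al) * (Real.log t - 1)) - (1 + al) * d / t) ≤
      c2 * (d : ℝ) ^ (-(1 + al)) * Real.exp ze := by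
  have hd0 : (0 : ℝ) < d := by exact_mod_cast hd
  have h1 : c2 * (d : ℝ) ^ (-(1 + al)) * Real.exp ze =
      Real.exp (Real.log c2 + Real.log d * (-(1 + al)) + ze) := by
    rw [Real.exp_add, Real.exp_add, Real.exp_log hc2, Real.rpow_def_of_pos hd0]
  rw [h1, Real.exp_le_exp]
  have h2 : Real.log d ≤ Real.log t - 1 + d / t := by
    have h3 := Real.log_le_sub_one_of_pos (show (0 : ℝ) < d / t by positivity)
    rw [Real.log_div hd0.ne' ht.ne'] at h3
    linarith
  have h4 := mul_le_mul_of_nonneg_left h2 (show (0 : ℝ) ≤ 1 + al by linarith)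
  have h5 : (1 + al) * (d : ℝ) / t = (1 + al) * (d / t) := by ring
  rw [h5]
  linarith

section

variable {al c2 : ℝ} {T B : ℕ} {H Y : ℕ → ℝ}

theorem inside (hal : 0 < al) (hc2 : 0 < c2) (hB : B = T + 2) (hH : ∀ j, 0 ≤ H j)
    (h1 : ∀ j b : ℕ, j + 2 ≤ b * B + 1 →
      H j * (c2 * ((b * B + 1 - j : ℕ) : ℝ) ^ (-(1 + al))) * Real.exp (Y b) ≤ H (b * B + 1 + T))
    {V : ℝ} {b0 : ℕ} (hV : V * Real.exp (Y b0) ≤ H (b0 * B + 1 + T)) :
    ∀ r : ℕ, V * Real.exp (∑ b ∈ range (r + 1),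
      (Y (b0 + b) + Real.log (c2 * (2 : ℝ) ^ (-(1 + al))))) ≤
      (c2 * (2 : ℝ) ^ (-(1 + al))) * H ((b0 + r) * B + 1 + T) := by
  obtain ⟨κ, hκ⟩ : ∃ κ : ℝ, κ = c2 * (2 : ℝ) ^ (-(1 + al)) := ⟨_, rfl⟩
  have hκ0 : 0 < κ := by rw [hκ]; positivity
  rw [← hκ]
  intro r
  induction r with
  | zero =>
    simp only [zero_add, sum_range_one, add_zero]
    rw [Real.exp_add, Real.exp_log hκ0]
    have := mul_le_mul_of_nonneg_left hV hκ0.le
    linarith
  | succ r ih =>
    rw [sum_range_succ, Real.exp_add, Real.exp_add, Real.exp_log hκ0]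
    have hj : (b0 + r) * B + 1 + T + 2 = (b0 + (r + 1)) * B + 1 := by
      rw [hB]; ring
    have h2 := h1 ((b0 + r) * B + 1 + T) (b0 + (r + 1)) hj.le
    have h3 : (b0 + (r + 1)) * B + 1 - ((b0 + r) * B + 1 + T) = 2 := by omega
    rw [h3] at h2
    push_cast at h2
    rw [← hκ] at h2
    have h4 := mul_le_mul_of_nonneg_right ih
      (show 0 ≤ Real.exp (Y (b0 + (r + 1))) * κ by positivity)
    have h5 := mul_le_mul_of_nonneg_left h2 hκ0.le
    calc _ = V * Real.exp (∑ b ∈ range (r + 1), (Y (b0 + b) + Real.log κ)) *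
          (Real.exp (Y (b0 + (r + 1))) * κ) := by ring
      _ ≤ _ := h4
      _ = κ * (H ((b0 + r) * B + 1 + T) * κ * Real.exp (Y (b0 + (r + 1)))) := by ring
      _ ≤ _ := h5

/-- one good superblock -/
theorem good (hal : 0 < al) (hc2 : 0 < c2) (hc1 : c2 ≤ 1) (hB : B = T + 2) (hH : ∀ j, 0 ≤ H j)
    (h1 : ∀ j b : ℕ, j + 2 ≤ b * B + 1 →
      H j * (c2 * ((b * B + 1 - j : ℕ) : ℝ) ^ (-(1 + al))) * Real.exp (Y b) ≤ H (b * B + 1 + T))
    {n : ℕ} (hn : 1 ≤ n) {ze : ℝ} {i : ℕ}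
    (hi : ze ≤ ∑ b ∈ range n, (Y (i * n + b) + Real.log (c2 * (2 : ℝ) ^ (-(1 + al)))))
    {V : ℝ} (hV0 : 0 ≤ V) (hV : V * Real.exp (Y (i * n)) ≤ H (i * n * B + 1 + T)) :
    V * Real.exp ze ≤ H ((i + 1) * n * B - 1) := by
  obtain ⟨r, rfl⟩ : ∃ r, n = r + 1 := ⟨n - 1, by omega⟩
  have h2 := inside hal hc2 hB hH h1 hV r
  have h3 : (i * (r + 1) + r) * B + 1 + T = (i + 1) * (r + 1) * B - 1 := by
    have : (i + 1) * (r + 1) * B = (i * (r + 1) + r) * B + B := by ring
    omega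
  rw [h3] at h2
  have h4 : c2 * (2 : ℝ) ^ (-(1 + al)) ≤ 1 := by
    have h5 : (2 : ℝ) ^ (-(1 + al)) ≤ 1 :=
      Real.rpow_le_one_of_one_le_of_nonpos (by norm_num) (by linarith)
    have h6 : (0 : ℝ) ≤ (2 : ℝ) ^ (-(1 + al)) := by positivity
    nlinarith
  have h7 := hH ((i + 1) * (r + 1) * B - 1)
  calc V * Real.exp ze ≤ _ := mul_le_mul_of_nonneg_left (Real.exp_le_exp.2 hi) hV0
    _ ≤ _ := h2
    _ ≤ _ := by
      have := mul_le_mul_of_nonneg_right h4 h7
      linarith

end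

theorem main : S_CH := by
  intro al c2 T B H Y hal hc2 hc1 hB hH h1 h2 n M ze t hn ht G hG hGn
  obtain ⟨A, hA⟩ : ∃ A : ℝ, A = ze + Real.log c2 - (1 + al) * (Real.log t - 1) := ⟨_, rfl⟩
  have hcost : ∀ d : ℕ, 1 ≤ d → Real.exp (A - (1 + al) * d / t) ≤
      c2 * (d : ℝ) ^ (-(1 + al)) * Real.exp ze := by
    intro d hd
    rw [hA]
    exact cost hal hc2 ht hd
  have hnB : 2 ≤ n * B := by
    have : 1 * 2 ≤ n * B := Nat.mul_le_mul hn (by omega)
    omega
  have key : ∀ M : ℕ, ((range M).filter (fun i => ze ≤ ∑ b ∈ range n,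
      (Y (i * n + b) + Real.log (c2 * (2 : ℝ) ^ (-(1 + al)))))).Nonempty →
      ∃ j : ℕ, j + 1 ≤ M * n * B ∧ Real.exp ((((range M).filter (fun i => ze ≤ ∑ b ∈ range n,
      (Y (i * n + b) + Real.log (c2 * (2 : ℝ) ^ (-(1 + al)))))).card : ℝ) * A
        - (1 + al) * j / t) ≤ H j := by
    intro M
    induction M with
    | zero => intro h; simp at h
    | succ M ih =>
      intro hne
      have e1 : (M + 1) * n * B = M * n * B + n * B := by ring
      rw [range_add_one, filter_insert] at hne ⊢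
      split_ifs at hne ⊢ with hM
      · rw [card_insert_of_notMem (by simp)]
        by_cases hG : ((range M).filter (fun i => ze ≤ ∑ b ∈ range n,
          (Y (i * n + b) + Real.log (c2 * (2 : ℝ) ^ (-(1 + al)))))).Nonempty
        · obtain ⟨j, hj1, hj2⟩ := ih hG
          refine ⟨(M + 1) * n * B - 1, by omega, ?_⟩
          have h3 := good hal hc2 hc1 hB hH h1 hn hM
            (V := H j * (c2 * ((M * n * B + 1 - j : ℕ) : ℝ) ^ (-(1 + al))))
            (mul_nonneg (hH j) (by positivity)) (h1 j (M * n) (by omega))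
          refine le_trans ?_ h3
          have h4 := hcost (M * n * B + 1 - j) (by omega)
          have h5 : Real.exp ((((range M).filter (fun i => ze ≤ ∑ b ∈ range n,
              (Y (i * n + b) + Real.log (c2 * (2 : ℝ) ^ (-(1 + al)))))).card : ℝ) * A
              - (1 + al) * j / t) * Real.exp (A - (1 + al) * (M * n * B + 1 - j : ℕ) / t) ≤
              H j * (c2 * ((M * n * B + 1 - j : ℕ) : ℝ) ^ (-(1 + al)) * Real.exp ze) :=
            mul_le_mul hj2 h4 (Real.exp_pos _).le (hH j)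
          refine le_trans (le_trans ?_ h5) (le_of_eq (by ring))
          rw [← Real.exp_add, Real.exp_le_exp]
          have h6 : ((M * n * B + 1 - j : ℕ) : ℝ) = (M * n * B + 1 : ℕ) - (j : ℝ) := by
            rw [Nat.cast_sub (by omega)]
          have h7 : ((M * n * B + 1 : ℕ) : ℝ) ≤ (((M + 1) * n * B - 1 : ℕ) : ℝ) := by
            exact_mod_cast (by omega : M * n * B + 1 ≤ (M + 1) * n * B - 1)
          have h8 : (1 + al) * ((M * n * B + 1 : ℕ) : ℝ) / t ≤
              (1 + al) * (((M + 1) * n * B - 1 : ℕ) : ℝ) / t := by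
            have : 0 ≤ 1 + al := by linarith
            gcongr
          rw [h6]
          push_cast at h8 ⊢
          have h9 : (1 + al) * (((M : ℝ) * n * B + 1) - j) / t =
            (1 + al) * ((M : ℝ) * n * B + 1) / t - (1 + al) * j / t := by ring
          rw [h9]
          linarith
        · rw [not_nonempty_iff_eq_empty] at hG
          rw [hG]
          refine ⟨(M + 1) * n * B - 1, by omega, ?_⟩
          have h3 := good hal hc2 hc1 hB hH h1 hn hM
            (V := c2 * ((M * n * B + 1 : ℕ) : ℝ) ^ (-(1 + al)))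
            (by positivity) (h2 (M * n))
          refine le_trans ?_ h3
          refine le_trans ?_ (hcost (M * n * B + 1) (by omega))
          rw [Real.exp_le_exp]
          have h7 : ((M * n * B + 1 : ℕ) : ℝ) ≤ (((M + 1) * n * B - 1 : ℕ) : ℝ) := by
            exact_mod_cast (by omega : M * n * B + 1 ≤ (M + 1) * n * B - 1)
          have h8 : (1 + al) * ((M * n * B + 1 : ℕ) : ℝ) / t ≤
              (1 + al) * (((M + 1) * n * B - 1 : ℕ) : ℝ) / t := by
            have : 0 ≤ 1 + al := by linarith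
            gcongr
          simp only [card_empty, zero_add, Nat.cast_one, one_mul]
          linarith
      · obtain ⟨j, hj1, hj2⟩ := ih hne
        exact ⟨j, by omega, hj2⟩
  rw [hG] at hGn
  obtain ⟨j, hj1, hj2⟩ := key M hGn
  refine ⟨j, hj1, le_trans ?_ hj2⟩
  rw [hG, ← hA, Real.exp_le_exp]
  have h7 : (j : ℝ) ≤ ((M * n * B : ℕ) : ℝ) := by exact_mod_cast (by omega : j ≤ M * n * B)
  have h8 : (1 + al) * (j : ℝ) / t ≤ (1 + al) * ((M * n * B : ℕ) : ℝ) / t := by
    have : 0 ≤ 1 + al := by linarith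
    gcongr
  linarith

end Pool.Agent.N940.CO.Ch
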