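import Pool.Agent.N940.CO.Stm

/-!
Project CO: cutting the partition function at the first renewal after `b` (helper395).
-/

namespace Pool.Agent.N940.CO.Cut

open Pool.Agent.N940.CO

theorem ew_ge (s : ℝ) : Real.exp (-s) ≤ ew s := by
  unfold ew
  have h : Real.exp (-2 * s) = Real.exp (-s) * Real.exp (-s) := by
    rw [← Real.exp_add]
    congr 1
    ring
  rw [h]
  nlinarith [sq_nonneg (1 - Real.exp (-s))]

theorem ew_nonneg (s : ℝ) : 0 ≤ ew s := (Real.exp_pos _).le.trans (ew_ge s)

theorem zc_rec (K e : ℕ → ℝ) (n : ℕ) (hn : 1 ≤ n) :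
    zc K e n = ∑ i ∈ Finset.range n, zc K e i * (K (n - i) * ew (En e i n)) := by
  obtain ⟨m, rfl⟩ : ∃ m, n = m + 1 := ⟨n - 1, by omega⟩
  rw [zc, Finset.sum_range]

theorem u_rec (K : ℕ → ℝ) (n : ℕ) (hn : 1 ≤ n) :
    u K n = ∑ i ∈ Finset.range n, u K i * K (n - i) := by
  obtain ⟨m, rfl⟩ : ∃ m, n = m + 1 := ⟨n - 1, by omega⟩
  rw [u, Finset.sum_range]

theorem zc_nonneg (K e : ℕ → ℝ) (hK : ∀ n, 0 ≤ K n) : ∀ n, 0 ≤ zc K e n := by
  intro n
  induction n using Nat.strong_induction_on with
  | _ n ih =>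
    rcases Nat.eq_zero_or_pos n with rfl | hn
    · rw [zc]
      norm_num
    · rw [zc_rec K e n hn]
      refine Finset.sum_nonneg fun i hi => ?_
      exact mul_nonneg (ih i (Finset.mem_range.mp hi)) (mul_nonneg (hK _) (ew_nonneg _))

theorem u_nonneg (K : ℕ → ℝ) (hK : ∀ n, 0 ≤ K n) : ∀ n, 0 ≤ u K n := by
  intro n
  induction n using Nat.strong_induction_on with
  | _ n ih =>
    rcases Nat.eq_zero_or_pos n with rfl | hn
    · rw [u]
      norm_num
    · rw [u_rec K n hn]
      refine Finset.sum_nonneg fun i hi => ?_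
      exact mul_nonneg (ih i (Finset.mem_range.mp hi)) (hK _)

theorem En_add (e : ℕ → ℝ) (a b c : ℕ) (h1 : a ≤ b) (h2 : b ≤ c) :
    En e a b + En e b c = En e a c := by
  unfold En
  exact Finset.sum_Ioc_consecutive e h1 h2

theorem En_self (e : ℕ → ℝ) (a : ℕ) : En e a a = 0 := by
  unfold En
  simp

theorem main : S_CUT := by
  intro K e hK b c hb
  induction c using Nat.strong_induction_on with
  | _ c ih =>
    intro hbc
    set B : ℕ → ℝ := fun y => ∑ y0 ∈ Finset.range b, zc K e y0 * (K (y - y0) * ew (En e y0 y))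
      with hB
    have hB0 : ∀ y, 0 ≤ B y := fun y => Finset.sum_nonneg fun y0 _ =>
      mul_nonneg (zc_nonneg K e hK y0) (mul_nonneg (hK _) (ew_nonneg _))
    have hW : ∀ i, b ≤ i → ∑ y0 ∈ Finset.range b, ∑ y ∈ Finset.Icc b i,
        zc K e y0 * (K (y - y0) * ew (En e y0 y)) * (u K (i - y) * Real.exp (-En e y i)) =
        ∑ y ∈ Finset.Ico b (i + 1), B y * (u K (i - y) * Real.exp (-En e y i)) := by
      intro i _
      rw [Finset.sum_comm]
      have hI : Finset.Icc b i = Finset.Ico b (i + 1) := by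
        ext z
        simp only [Finset.mem_Icc, Finset.mem_Ico]
        omega
      rw [hI]
      refine Finset.sum_congr rfl fun y _ => ?_
      rw [hB, Finset.sum_mul]
    rw [hW c hbc, Finset.sum_Ico_succ_top hbc, Nat.sub_self, En_self]
    have hu0 : u K 0 = 1 := by rw [u]
    rw [hu0, neg_zero, Real.exp_zero, mul_one, mul_one]
    rw [zc_rec K e c (by omega), ← Finset.sum_range_add_sum_Ico _ hbc]
    have h1 : ∑ i ∈ Finset.range b, zc K e i * (K (c - i) * ew (En e i c)) = B c := rfl
    rw [h1, add_comm]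
    refine add_le_add_right ?_ _
    have h2 : ∀ i ∈ Finset.Ico b c,
        (∑ y ∈ Finset.Ico b (i + 1), B y * (u K (i - y) * Real.exp (-En e y i))) *
          (K (c - i) * Real.exp (-En e i c)) ≤ zc K e i * (K (c - i) * ew (En e i c)) := by
      intro i hi
      rw [Finset.mem_Ico] at hi
      have h3 := ih i hi.2 hi.1
      rw [hW i hi.1] at h3
      refine mul_le_mul h3 (mul_le_mul_of_nonneg_left (ew_ge _) (hK _))
        (mul_nonneg (hK _) (Real.exp_pos _).le) (zc_nonneg K e hK i)
    refine le_trans (le_of_eq ?_) (Finset.sum_le_sum h2)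
    have h4 : ∀ i ∈ Finset.Ico b c,
        (∑ y ∈ Finset.Ico b (i + 1), B y * (u K (i - y) * Real.exp (-En e y i))) *
          (K (c - i) * Real.exp (-En e i c)) =
        ∑ y ∈ Finset.Ico b (i + 1), B y * Real.exp (-En e y c) * (u K (i - y) * K (c - i)) := by
      intro i hi
      rw [Finset.mem_Ico] at hi
      rw [Finset.sum_mul]
      refine Finset.sum_congr rfl fun y hy => ?_
      rw [Finset.mem_Ico] at hy
      have h5 : Real.exp (-En e y c) = Real.exp (-En e y i) * Real.exp (-En e i c) := by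
        rw [← Real.exp_add, ← En_add e y i c (by omega) (by omega)]
        congr 1
        ring
      rw [h5]
      ring
    rw [Finset.sum_congr rfl h4, ← Finset.sum_Ico_Ico_comm]
    refine Finset.sum_congr rfl fun y hy => ?_
    rw [Finset.mem_Ico] at hy
    rw [← Finset.mul_sum]
    have h6 : ∑ i ∈ Finset.Ico y c, u K (i - y) * K (c - i) = u K (c - y) := by
      rw [u_rec K (c - y) (by omega), Finset.sum_Ico_eq_sum_range]
      refine Finset.sum_congr rfl fun i hi => ?_
      rw [Finset.mem_range] at hi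
      have e1 : y + i - y = i := by omega
      have e2 : c - (y + i) = c - y - i := by omega
      rw [e1, e2]
    rw [h6]
    ring

end Pool.Agent.N940.CO.Cut
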