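import Mathlib

/-!
Project CO: the slope at the origin of the critical curve of the copolymer model.
Definitions.
-/

open MeasureTheory ProbabilityTheory Filter Topology

namespace Pool.Agent.N940.CO

noncomputable section

/-- Standing assumptions on the return law `K` and the exponent `al`. -/
structure Ren (al : ℝ) (K : ℕ → ℝ) : Prop where
  al0 : 0 < al
  al1 : al < 1
  zero : K 0 = 0
  nonneg : ∀ n, 0 ≤ K n
  sum : HasSum K 1
  tail : ∃ cK : ℝ, 0 < cK ∧
    Tendsto (fun n : ℕ => K n * (n : ℝ) ^ (1 + al)) atTop (𝓝 cK)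

/-- Standing assumptions on the law `nu` of one charge. -/
structure Dis (nu : Measure ℝ) : Prop where
  prob : IsProbabilityMeasure nu
  exp : ∀ t : ℝ, Integrable (fun x => Real.exp (t * x)) nu
  mean : ∫ x, x ∂nu = 0
  var : ∫ x, x ^ 2 ∂nu = 1

/-- `om` is an i.i.d. sequence with law `nu` on the probability space `(Om, P)`. -/
structure IID {Om : Type} [MeasurableSpace Om] (P : Measure Om) (nu : Measure ℝ)
    (om : ℕ → Om → ℝ) : Prop where
  prob : IsProbabilityMeasure P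
  meas : ∀ n, Measurable (om n)
  indep : iIndepFun om P
  law : ∀ n, P.map (om n) = nu

/-- Renewal mass function. -/
def u (K : ℕ → ℝ) : ℕ → ℝ
  | 0 => 1
  | (n + 1) => ∑ i : Fin (n + 1), u K i * K (n + 1 - i)

/-- Tail of the return law: `Kbar K n = P(tau_1 > n)`. -/
def Kbar (K : ℕ → ℝ) (n : ℕ) : ℝ := 1 - ∑ i ∈ Finset.range (n + 1), K i

/-- Sum of the energies over `(a, b]`. -/
def En (e : ℕ → ℝ) (a b : ℕ) : ℝ := ∑ n ∈ Finset.Ioc a b, e n

/-- Weight of one excursion after averaging its sign. -/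
def ew (s : ℝ) : ℝ := (1 + Real.exp (-2 * s)) / 2

/-- Constrained partition function (decomposition at the last renewal). -/
def zc (K e : ℕ → ℝ) : ℕ → ℝ
  | 0 => 1
  | (n + 1) => ∑ i : Fin (n + 1), zc K e i * (K (n + 1 - i) * ew (En e i (n + 1)))

/-- Free partition function. -/
def zf (K e : ℕ → ℝ) (N : ℕ) : ℝ :=
  ∑ i ∈ Finset.range (N + 1), zc K e i * (Kbar K (N - i) * ew (En e i N))

/-- Total renewal mass of a cell of size `m`. -/
def Ut (K : ℕ → ℝ) (m : ℕ) : ℝ :=
  ∑ y ∈ Finset.Icc 1 m, ∑ y' ∈ Finset.Icc y m, u K (y' - y)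

/-- The profile of a switch cell (from above to below), position `i` in `1..m`. -/
def wp (K : ℕ → ℝ) (m i : ℕ) : ℝ :=
  (∑ y ∈ Finset.Icc 1 m, ∑ y' ∈ Finset.Icc y m,
    u K (y' - y) * ((if y' < i then (1 : ℝ) else 0) + (if y < i ∧ i ≤ y' then (1 / 2 : ℝ) else 0)))
    / Ut K m

/-- Coefficient at position `i` of a cell of type `t`:
`3` = below, `1` = switch above to below, `2` = switch below to above, other = above. -/
def th (K : ℕ → ℝ) (m t i : ℕ) : ℝ :=
  if t = 3 then 1 else if t = 1 then wp K m i else if t = 2 then 1 - wp K m i else 0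

/-- The (log) contribution of cell `j` (positions `j*m+1 .. j*m+m`) when it has type `t`. -/
def Fc (K : ℕ → ℝ) (m : ℕ) (e : ℕ → ℝ) (j t : ℕ) : ℝ :=
  ∑ i ∈ Finset.Icc 1 m, (-2) * (th K m t i * e (j * m + i))

/-- Partition function with the last point in cell `j`, about to leave above. -/
def HA (K e : ℕ → ℝ) (m j : ℕ) : ℝ := ∑ y ∈ Finset.Ioc (j * m) ((j + 1) * m), zc K e y

/-- Partition function with the last point in cell `j`, about to leave below. -/
def HB (K e : ℕ → ℝ) (m j : ℕ) : ℝ :=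
  ∑ y ∈ Finset.Ioc (j * m) ((j + 1) * m), zc K e y * Real.exp (-2 * En e y ((j + 1) * m))

/-- Positions of the switches of a pattern given by its gaps. -/
def Jp {k : ℕ} (g : Fin k → ℕ) (i : ℕ) : ℕ := ∑ l : Fin k, if l.val < i then g l else 0

/-- Patterns with `k` gaps in `[L, R]` and total length `T`. -/
def Pat (k L R T : ℕ) : Finset (Fin k → ℕ) :=
  (Fintype.piFinset fun _ => Finset.Icc L R).filter (fun g => ∑ i, g i = T)

/-- Type of the (relative) cell `c` in the pattern `g`: gaps with even index are below. -/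
def ty {k : ℕ} (g : Fin k → ℕ) (c : ℕ) : ℕ :=
  if ∃ l, l ≤ k ∧ Even l ∧ c = Jp g l then 1
  else if ∃ l, l ≤ k ∧ Odd l ∧ c = Jp g l then 2
  else if ∃ l, l < k ∧ Even l ∧ Jp g l < c ∧ c < Jp g (l + 1) then 3
  else 0

/-- The number of cells where one pattern is above and the other one below. -/
def Dd {k : ℕ} (g g' : Fin k → ℕ) : ℕ :=
  ((Finset.range (∑ i, g i + 1)).filter
    (fun c => (ty g c = 0 ∧ ty g' c = 3) ∨ (ty g c = 3 ∧ ty g' c = 0))).card

/-- Energy sequence of the copolymer: `e_n = lam (omega_n + h)`. -/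
def ee (lam h : ℝ) (x : ℕ → ℝ) (n : ℕ) : ℝ := lam * (x n + h)

/-- Exponent of the pattern `g` started at cell `a`. -/
def Rg (K : ℕ → ℝ) (m : ℕ) {k : ℕ} (g : Fin k → ℕ) (a : ℕ) (e : ℕ → ℝ) : ℝ :=
  ∑ c ∈ Finset.range (∑ i, g i + 1), Fc K m e (a + c) (ty g c)

/-- Weight of the pattern `g` started at cell `a`. -/
def Ag (al c2 : ℝ) (K : ℕ → ℝ) (m : ℕ) {k : ℕ} (g : Fin k → ℕ) (a : ℕ) (e : ℕ → ℝ) : ℝ :=
  (∏ l, (c2 * (g l : ℝ) ^ (-(1 + al)))) * Real.exp (Rg K m g a e)

/-- Best pattern weight. -/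
def Mx (al c2 : ℝ) (K : ℕ → ℝ) (m k L R T a : ℕ) (e : ℕ → ℝ) : ℝ :=
  if hne : (Pat k L R T).Nonempty then
    (Pat k L R T).sup' hne (fun g => Ag al c2 K m g a e) else 1

/-- Moment of order `gam` of a cell of type `t`. -/
def ph (nu : Measure ℝ) (K : ℕ → ℝ) (m : ℕ) (gam lam h : ℝ) (t : ℕ) : ℝ :=
  ∏ i ∈ Finset.Icc 1 m, (mgf id nu (-2 * lam * gam * th K m t i)
    * Real.exp (-2 * lam * gam * h * th K m t i))

/-- Joint moment of order `gam / 2` of a cell which has types `s` and `t`. -/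
def ps (nu : Measure ℝ) (K : ℕ → ℝ) (m : ℕ) (gam lam h : ℝ) (s t : ℕ) : ℝ :=
  ∏ i ∈ Finset.Icc 1 m, (mgf id nu (-lam * gam * (th K m s i + th K m t i))
    * Real.exp (-lam * gam * h * (th K m s i + th K m t i)))

end

end Pool.Agent.N940.CO
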