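import Pool.Agent.N940.CO.Stm

/-!
Project CO: the last excursion and the normalised cell steps (helper747).
-/

open MeasureTheory ProbabilityTheory Filter Topology

namespace Pool.Agent.N940.CO.End

open Pool.Agent.N940.CO

noncomputable section

lemma ew_ge (s : ℝ) : 1 / 2 ≤ ew s := by
  unfold ew
  have := Real.exp_pos (-2 * s)
  linarith

lemma zc_succ (K e : ℕ → ℝ) (n : ℕ) :
    zc K e (n + 1) = ∑ i : Fin (n + 1), zc K e i * (K (n + 1 - i) * ew (En e i (n + 1))) := by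
  rw [zc]

lemma zc_nonneg {K : ℕ → ℝ} (hK : ∀ n, 0 ≤ K n) (e : ℕ → ℝ) : ∀ n, 0 ≤ zc K e n := by
  intro n
  induction n using Nat.strong_induction_on with
  | _ n ih =>
    cases n with
    | zero => rw [zc]; exact zero_le_one
    | succ n =>
      rw [zc_succ]
      refine Finset.sum_nonneg fun i _ => mul_nonneg (ih i i.2) (mul_nonneg (hK _) ?_)
      exact le_trans (by norm_num) (ew_ge _)

lemma Kbar_nonneg {K : ℕ → ℝ} (hK : ∀ n, 0 ≤ K n) (hs : HasSum K 1) (N : ℕ) :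
    0 ≤ Kbar K N := by
  unfold Kbar
  have := sum_le_hasSum (Finset.range (N + 1)) (fun i _ => hK i) hs
  linarith

lemma Kbar_anti {K : ℕ → ℝ} (hK : ∀ n, 0 ≤ K n) (N i : ℕ) : Kbar K N ≤ Kbar K (N - i) := by
  unfold Kbar
  have : ∑ i ∈ Finset.range (N - i + 1), K i ≤ ∑ i ∈ Finset.range (N + 1), K i :=
    Finset.sum_le_sum_of_subset_of_nonneg
      (Finset.range_mono (by omega)) (fun j _ _ => hK j)
  linarith

theorem main : S_END := by
  intro K e hK hs h0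
  have hterm : ∀ N i : ℕ, zc K e i * (Kbar K N / 2) ≤
      zc K e i * (Kbar K (N - i) * ew (En e i N)) := by
    intro N i
    refine mul_le_mul_of_nonneg_left ?_ (zc_nonneg hK e i)
    have h1 := Kbar_anti hK N i
    have h2 := ew_ge (En e i N)
    have h3 := Kbar_nonneg hK hs N
    calc Kbar K N / 2 = Kbar K N * (1 / 2) := by ring
      _ ≤ Kbar K (N - i) * ew (En e i N) := mul_le_mul h1 h2 (by norm_num) (h3.trans h1)
  have hpos : ∀ N i : ℕ, 0 ≤ zc K e i * (Kbar K (N - i) * ew (En e i N)) := by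
    intro N i
    exact mul_nonneg (zc_nonneg hK e i) (mul_nonneg (Kbar_nonneg hK hs _)
      (le_trans (by norm_num) (ew_ge _)))
  refine ⟨fun N => ?_, fun N m j hj => ?_⟩
  · unfold zf
    have h1 := Finset.single_le_sum (f := fun i => zc K e i * (Kbar K (N - i) * ew (En e i N)))
      (fun i _ => hpos N i) (Finset.mem_range.mpr (Nat.succ_pos N))
    refine le_trans ?_ h1
    refine le_trans ?_ (hterm N 0)
    have : zc K e 0 = 1 := by rw [zc]
    rw [this, one_mul]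
  · unfold HA zf
    rw [Finset.sum_mul]
    refine le_trans (Finset.sum_le_sum fun y _ => hterm N y) ?_
    refine Finset.sum_le_sum_of_subset_of_nonneg ?_ (fun i _ _ => hpos N i)
    intro y hy
    rw [Finset.mem_Ioc] at hy
    rw [Finset.mem_range]
    omega

lemma key {al kap c1 c2 U : ℝ} (h0 : 0 < al) (hkap : 0 < kap) (hc1 : 0 < c1)
    (hc2 : c2 ≤ kap * c1 * (2 : ℝ) ^ (-(1 + al)) / 2) {m d D : ℕ} (hm : 1 ≤ m) (hd : 1 ≤ d)
    (hD : 1 ≤ D) (hDd : D ≤ 2 * d * m) (hU : c1 * (m : ℝ) ^ (1 + al) ≤ U) :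
    c2 * (d : ℝ) ^ (-(1 + al)) ≤ kap / 2 * (D : ℝ) ^ (-(1 + al)) * U := by
  have hm' : (0 : ℝ) < m := by exact_mod_cast hm
  have hd' : (0 : ℝ) < d := by exact_mod_cast hd
  have hD' : (0 : ℝ) < D := by exact_mod_cast hD
  have h1 : (D : ℝ) ≤ 2 * d * m := by exact_mod_cast hDd
  have h2 : (2 * (d : ℝ) * m) ^ (-(1 + al)) ≤ (D : ℝ) ^ (-(1 + al)) :=
    Real.rpow_le_rpow_of_nonpos hD' h1 (by linarith)
  have h3 : (2 * (d : ℝ) * m) ^ (-(1 + al)) =
      (2 : ℝ) ^ (-(1 + al)) * (d : ℝ) ^ (-(1 + al)) * (m : ℝ) ^ (-(1 + al)) := by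
    rw [Real.mul_rpow (by positivity) hm'.le, Real.mul_rpow (by norm_num) hd'.le]
  have h4 : (m : ℝ) ^ (-(1 + al)) * (m : ℝ) ^ (1 + al) = 1 := by
    rw [← Real.rpow_add hm', neg_add_cancel, Real.rpow_zero]
  have hdp : 0 < (d : ℝ) ^ (-(1 + al)) := Real.rpow_pos_of_pos hd' _
  have hmp : 0 < (m : ℝ) ^ (1 + al) := Real.rpow_pos_of_pos hm' _
  have hDp : 0 < (D : ℝ) ^ (-(1 + al)) := Real.rpow_pos_of_pos hD' _
  calc c2 * (d : ℝ) ^ (-(1 + al))
      ≤ kap * c1 * (2 : ℝ) ^ (-(1 + al)) / 2 * (d : ℝ) ^ (-(1 + al)) :=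
        mul_le_mul_of_nonneg_right hc2 hdp.le
    _ = kap / 2 * ((2 : ℝ) ^ (-(1 + al)) * (d : ℝ) ^ (-(1 + al)) * (m : ℝ) ^ (-(1 + al))) *
        (c1 * (m : ℝ) ^ (1 + al)) := by
        linear_combination (- kap * c1 * (2 : ℝ) ^ (-(1 + al)) / 2 * (d : ℝ) ^ (-(1 + al))) * h4
    _ ≤ kap / 2 * (D : ℝ) ^ (-(1 + al)) * (c1 * (m : ℝ) ^ (1 + al)) := by
        rw [← h3]
        refine mul_le_mul_of_nonneg_right (mul_le_mul_of_nonneg_left h2 (by positivity)) ?_
        positivity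
    _ ≤ kap / 2 * (D : ℝ) ^ (-(1 + al)) * U :=
        mul_le_mul_of_nonneg_left hU (by positivity)

lemma HA_nonneg {K : ℕ → ℝ} (hK : ∀ n, 0 ≤ K n) (e : ℕ → ℝ) (m j : ℕ) : 0 ≤ HA K e m j :=
  Finset.sum_nonneg fun y _ => zc_nonneg hK e y

lemma HB_nonneg {K : ℕ → ℝ} (hK : ∀ n, 0 ≤ K n) (e : ℕ → ℝ) (m j : ℕ) : 0 ≤ HB K e m j :=
  Finset.sum_nonneg fun y _ => mul_nonneg (zc_nonneg hK e y) (Real.exp_pos _).le

theorem det (h1 : S_UT) (h2 : S_KL) (h3 : S_STA) (h4 : S_STB) (h5 : S_STS) : S_DET := by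
  intro al K hR
  obtain ⟨c1, hc1, hUt⟩ := h1 al K hR
  obtain ⟨⟨kap, hkap, N0, hKL⟩, -⟩ := h2 al K hR
  have hp2 : (0 : ℝ) < (2 : ℝ) ^ (-(1 + al)) := Real.rpow_pos_of_pos (by norm_num) _
  have hpos : 0 < kap * c1 * (2 : ℝ) ^ (-(1 + al)) / 2 := by positivity
  refine ⟨min 1 (kap * c1 * (2 : ℝ) ^ (-(1 + al)) / 2), max N0 1,
    { c2pos := lt_min one_pos hpos
      c2le := min_le_left _ _
      A := ?_
      B := ?_
      S := ?_ }⟩
  · intro m hm e j j' hj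
    have hm0 : N0 ≤ m := (le_max_left _ _).trans hm
    have hm1 : 1 ≤ m := (le_max_right _ _).trans hm
    refine le_trans ?_ (h3 al kap K e N0 m j j' hR.al0 hR.nonneg hkap.le hKL hm1 hm0 hj)
    refine mul_le_mul_of_nonneg_left ?_ (HA_nonneg hR.nonneg e m j)
    refine mul_le_mul_of_nonneg_right ?_ (Real.exp_pos _).le
    refine key hR.al0 hkap hc1 (min_le_right _ _) hm1 (by omega) ?_ ?_ (hUt m hm1)
    · exact Nat.mul_pos (by omega) (by omega)
    · exact Nat.mul_le_mul_right m (by omega)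
  · intro m hm e j j' hj
    have hm0 : N0 ≤ m := (le_max_left _ _).trans hm
    have hm1 : 1 ≤ m := (le_max_right _ _).trans hm
    refine le_trans ?_ (h4 al kap K e N0 m j j' hR.al0 hR.nonneg hkap.le hKL hm1 hm0 hj)
    refine mul_le_mul_of_nonneg_left ?_ (HB_nonneg hR.nonneg e m j)
    refine mul_le_mul_of_nonneg_right ?_ (Real.exp_pos _).le
    refine key hR.al0 hkap hc1 (min_le_right _ _) hm1 (by omega) ?_ ?_ (hUt m hm1)
    · exact Nat.mul_pos (by omega) (by omega)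
    · exact Nat.mul_le_mul_right m (by omega)
  · intro m hm e j hj
    have hm0 : N0 ≤ m := (le_max_left _ _).trans hm
    have hm1 : 1 ≤ m := (le_max_right _ _).trans hm
    refine le_trans ?_ (h5 al kap K e N0 m j hR.al0 hR.nonneg hkap.le hKL hm1 hm0 hj)
    refine mul_le_mul_of_nonneg_right ?_ (Real.exp_pos _).le
    refine key hR.al0 hkap hc1 (min_le_right _ _) hm1 hj ?_ ?_ (hUt m hm1)
    · exact Nat.mul_pos (by omega) (by omega)
    · exact Nat.mul_le_mul_right m (by omega)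

end

end Pool.Agent.N940.CO.End
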