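import Pool.Agent.N940.CO.Bas

/-!
Project CO (helper940), piece FAR (helper592): patterns with a large displacement differ in many cells.
-/

set_option autoImplicit false

namespace Pool.Agent.N940.CO.Far

open Pool.Agent.N940.CO

theorem Jp_mono {k : ℕ} (g : Fin k → ℕ) {a b : ℕ} (h : a ≤ b) : Jp g a ≤ Jp g b := by
  unfold Jp
  refine Finset.sum_le_sum fun l _ => ?_
  by_cases h1 : l.val < a
  · rw [if_pos h1, if_pos (by omega)]
  · rw [if_neg h1]; exact Nat.zero_le _

theorem ty_even {k : ℕ} (g : Fin k → ℕ) {l c : ℕ} (hl : l < k) (he : Even l)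
    (h1 : Jp g l < c) (h2 : c < Jp g (l + 1)) : ty g c = 3 := by
  have hne : ∀ l', c ≠ Jp g l' := by
    intro l' h
    rcases Nat.lt_or_ge l l' with h3 | h3
    · have := Jp_mono g (show l + 1 ≤ l' by omega)
      omega
    · have := Jp_mono g h3
      omega
  unfold ty
  rw [if_neg, if_neg, if_pos]
  · exact ⟨l, hl, he, h1, h2⟩
  · rintro ⟨l', _, _, h⟩; exact hne l' h
  · rintro ⟨l', _, _, h⟩; exact hne l' h

theorem ty_odd {k : ℕ} (g : Fin k → ℕ) {l c : ℕ} (he : Odd l)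
    (h1 : Jp g l < c) (h2 : c < Jp g (l + 1)) : ty g c = 0 := by
  have hne : ∀ l', c ≠ Jp g l' := by
    intro l' h
    rcases Nat.lt_or_ge l l' with h3 | h3
    · have := Jp_mono g (show l + 1 ≤ l' by omega)
      omega
    · have := Jp_mono g h3
      omega
  unfold ty
  rw [if_neg, if_neg, if_neg]
  · rintro ⟨l', _, he', h3, h4⟩
    rcases Nat.lt_trichotomy l' l with h5 | h5 | h5
    · have := Jp_mono g (show l' + 1 ≤ l by omega)
      omega
    · subst h5
      exact (Nat.not_even_iff_odd.2 he) he'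
    · have := Jp_mono g (show l + 1 ≤ l' by omega)
      omega
  · rintro ⟨l', _, _, h⟩; exact hne l' h
  · rintro ⟨l', _, _, h⟩; exact hne l' h

/-- Cells in gaps of different parity. -/
theorem cell {k : ℕ} (g g' : Fin k → ℕ) {j c : ℕ} (hj : j + 1 < k)
    (h1 : Jp g (j + 1) < c) (h2 : c < Jp g (j + 1 + 1)) (h3 : Jp g' j < c)
    (h4 : c < Jp g' (j + 1)) :
    (ty g c = 0 ∧ ty g' c = 3) ∨ (ty g c = 3 ∧ ty g' c = 0) := by
  rcases Nat.even_or_odd j with he | ho
  · left
    exact ⟨ty_odd g he.add_one h1 h2, ty_even g' (by omega) he h3 h4⟩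
  · right
    exact ⟨ty_even g hj ho.add_one h1 h2, ty_odd g' ho h3 h4⟩

theorem far1 {k L T : ℕ} (g g' : Fin k → ℕ) (hL : 8 ≤ L) (hg : ∀ l, L ≤ g l)
    (hT : ∑ i, g i = T) {j : ℕ} (hj : j + 1 < k) (hd : Jp g' j ≤ Jp g j + L / 2)
    (hi : Jp g (j + 1) + L / 2 < Jp g' (j + 1)) :
    L / 2 ≤ ((Finset.range (T + 1)).filter
      (fun c => (ty g c = 0 ∧ ty g' c = 3) ∨ (ty g c = 3 ∧ ty g' c = 0))).card := by
  have h1 : Jp g (j + 1) = Jp g j + g ⟨j, by omega⟩ := Jp_succ g j (by omega)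
  have h2 : Jp g (j + 1 + 1) = Jp g (j + 1) + g ⟨j + 1, hj⟩ := Jp_succ g (j + 1) hj
  have h3 := hg ⟨j, by omega⟩
  have h4 := hg ⟨j + 1, hj⟩
  have h5 : Jp g (j + 1 + 1) ≤ T := by
    rw [← hT, ← Jp_top]; exact Jp_mono g (by omega)
  have h6 : (Finset.Ioc (Jp g (j + 1)) (Jp g (j + 1) + L / 2)).card = L / 2 := by
    rw [Nat.card_Ioc]; omega
  rw [← h6]
  refine Finset.card_le_card ?_
  intro c hc
  rw [Finset.mem_Ioc] at hc
  rw [Finset.mem_filter, Finset.mem_range]
  exact ⟨by omega, cell g g' hj hc.1 (by omega) (by omega) (by omega)⟩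

theorem main : S_FAR := by
  classical
  intro k L R T g g' hL hg hg' hex
  rw [mem_Pat] at hg hg'
  obtain ⟨hgL, hgT⟩ := hg
  obtain ⟨hgL', hgT'⟩ := hg'
  have hfi := Nat.find_spec hex
  have hmin := fun m (hm : m < Nat.find hex) => Nat.find_min hex hm
  set i := Nat.find hex with hidef
  obtain ⟨hik, hid⟩ := hfi
  have h0 : dsp g g' 0 = 0 := by simp [dsp, Jp_zero]
  have hk : dsp g g' k = 0 := by simp [dsp, Jp_top, hgT, hgT']
  have hi0 : i ≠ 0 := by
    intro h; rw [h, h0] at hid; omega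
  have hik' : i ≠ k := by
    intro h; rw [h, hk] at hid; omega
  obtain ⟨j, hj⟩ : ∃ j, i = j + 1 := ⟨i - 1, by omega⟩
  have hjd : dsp g g' j ≤ L / 2 := by
    by_contra h
    exact hmin j (by omega) ⟨by omega, by omega⟩
  rw [hj] at hid hik hik'
  unfold dsp at hid hjd
  unfold Dd
  rw [hgT]
  rcases Nat.lt_or_ge (Jp g (j + 1)) (Jp g' (j + 1)) with h | h
  · have := far1 g g' hL (fun l => (hgL l).1) hgT (j := j) (by omega) (by omega) (by omega)
    omega
  · have := far1 g' g hL (fun l => (hgL' l).1) hgT' (j := j) (by omega) (by omega) (by omega)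
    have h2 : ((Finset.range (T + 1)).filter
      (fun c => (ty g' c = 0 ∧ ty g c = 3) ∨ (ty g' c = 3 ∧ ty g c = 0))).card =
      ((Finset.range (T + 1)).filter
      (fun c => (ty g c = 0 ∧ ty g' c = 3) ∨ (ty g c = 3 ∧ ty g' c = 0))).card := by
      congr 1
      refine Finset.filter_congr fun c _ => ?_
      tauto
    omega

end Pool.Agent.N940.CO.Far
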