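import Pool.Agent.N940.CO.Bas

/-!
Project CO: assembly of the strict positivity of the free energy.
-/

open MeasureTheory ProbabilityTheory Filter Topology

namespace Pool.Agent.N940.CO.Fin

/-- `log (N + 1) / N -> 0`. -/
theorem log_div_tendsto :
    Tendsto (fun N : ℕ => Real.log ((N : ℝ) + 1) / (N : ℝ)) atTop (𝓝 0) := by
  have h1 : Tendsto (fun x : ℝ => Real.log x / x) atTop (𝓝 0) := by
    have := Real.isLittleO_log_id_atTop.tendsto_div_nhds_zero
    simpa using this
  have h2 : Tendsto (fun N : ℕ => (N : ℝ) + 1) atTop atTop :=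
    tendsto_atTop_add_const_right _ _ tendsto_natCast_atTop_atTop
  have h3 := h1.comp h2
  have h4 : Tendsto (fun N : ℕ => ((N : ℝ) + 1) / (N : ℝ)) atTop (𝓝 1) := by
    have h5 : Tendsto (fun N : ℕ => 1 + 1 / (N : ℝ)) atTop (𝓝 (1 + 0)) :=
      tendsto_const_nhds.add tendsto_one_div_atTop_nhds_zero_nat
    rw [add_zero] at h5
    refine h5.congr' ?_
    filter_upwards [eventually_gt_atTop 0] with N hN
    have : (N : ℝ) ≠ 0 := by positivity
    field_simp
  have h6 := h3.mul h4
  rw [zero_mul] at h6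
  refine h6.congr' ?_
  filter_upwards [eventually_gt_atTop 0] with N hN
  have h7 : (N : ℝ) ≠ 0 := by positivity
  have h8 : (N : ℝ) + 1 ≠ 0 := by positivity
  simp only [Function.comp]
  field_simp

/-- the final numerical step -/
theorem numer (D b : ℝ) (q : ℕ) (hq : 1 ≤ q) (hD : 0 < D) (c : ℝ) (hc : 0 < c)
    (E : ℕ → ℝ) (kb : ℕ → ℝ) (hkb : ∀ N : ℕ, c * ((N : ℝ) + 1) ^ (-b) ≤ kb N)
    (hE : ∀ N : ℕ, ((N / q : ℕ) : ℝ) * D + Real.log (kb N / 2) ≤ E N) :
    ∃ c' : ℝ, 0 < c' ∧ ∀ᶠ N : ℕ in atTop, c' ≤ (1 / (N : ℝ)) * E N := by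
  have hq' : (0 : ℝ) < q := by exact_mod_cast hq
  refine ⟨D / q / 2, by positivity, ?_⟩
  have h1 : Tendsto (fun N : ℕ => (D / q) - (1 / (N : ℝ)) * D + (1 / (N : ℝ)) * Real.log (c / 2)
      - b * (Real.log ((N : ℝ) + 1) / (N : ℝ))) atTop
      (𝓝 ((D / q) - 0 * D + 0 * Real.log (c / 2) - b * 0)) := by
    refine Tendsto.sub (Tendsto.add (Tendsto.sub tendsto_const_nhds ?_) ?_) ?_
    · exact tendsto_one_div_atTop_nhds_zero_nat.mul_const D
    · exact tendsto_one_div_atTop_nhds_zero_nat.mul_const _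
    · exact log_div_tendsto.const_mul b
  simp only [zero_mul, mul_zero, sub_zero, add_zero] at h1
  have h2 : D / q / 2 < D / q := by
    have : 0 < D / q := by positivity
    linarith
  filter_upwards [(tendsto_order.1 h1).1 _ h2, eventually_gt_atTop 0] with N hN hN0
  have hNr : (0 : ℝ) < N := by exact_mod_cast hN0
  have h3 : (N : ℝ) / q - 1 ≤ ((N / q : ℕ) : ℝ) := by
    have h4 : N < q * (N / q) + q := Nat.lt_mul_div_succ N hq
    have h5 : (N : ℝ) < q * ((N / q : ℕ) : ℝ) + q := by exact_mod_cast h4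
    rw [sub_le_iff_le_add, div_le_iff₀ hq']
    nlinarith
  have h6 : Real.log (c / 2) - b * Real.log ((N : ℝ) + 1) ≤ Real.log (kb N / 2) := by
    have h7 : 0 < c / 2 * ((N : ℝ) + 1) ^ (-b) := by positivity
    have h8 : c / 2 * ((N : ℝ) + 1) ^ (-b) ≤ kb N / 2 := by linarith [hkb N]
    have h9 := Real.log_le_log h7 h8
    rw [Real.log_mul (by positivity) (by positivity), Real.log_rpow (by positivity)] at h9
    linarith
  have h10 : ((N : ℝ) / q - 1) * D + (Real.log (c / 2) - b * Real.log ((N : ℝ) + 1)) ≤ E N := by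
    refine le_trans ?_ (hE N)
    have := mul_le_mul_of_nonneg_right h3 hD.le
    linarith
  have h11 : (1 / (N : ℝ)) * (((N : ℝ) / q - 1) * D
      + (Real.log (c / 2) - b * Real.log ((N : ℝ) + 1)))
      = (D / q) - (1 / (N : ℝ)) * D + (1 / (N : ℝ)) * Real.log (c / 2)
      - b * (Real.log ((N : ℝ) + 1) / (N : ℝ)) := by
    field_simp
    ring
  have h12 := mul_le_mul_of_nonneg_left h10 (show (0 : ℝ) ≤ 1 / (N : ℝ) by positivity)
  rw [h11] at h12
  linarith

/-- expected number of good superblocks -/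
theorem card_exp {Om : Type} [MeasurableSpace Om] (P : Measure Om) [IsProbabilityMeasure P]
    (M : ℕ) (f : ℕ → Om → ℝ) (hf : ∀ i, Measurable (f i)) (ze p : ℝ)
    (hp : ∀ i, (P {w | ze ≤ f i w}).toReal = p) :
    Integrable (fun w => (((Finset.range M).filter (fun i => ze ≤ f i w)).card : ℝ)) P ∧
    ∫ w, (((Finset.range M).filter (fun i => ze ≤ f i w)).card : ℝ) ∂P = M * p := by
  have h1 : ∀ w, (((Finset.range M).filter (fun i => ze ≤ f i w)).card : ℝ)
      = ∑ i ∈ Finset.range M, ({w | ze ≤ f i w}.indicator (fun _ => (1 : ℝ)) w) := by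
    intro w
    rw [Finset.card_filter]
    push_cast
    refine Finset.sum_congr rfl fun i _ => ?_
    by_cases h : ze ≤ f i w
    · simp [h]
    · simp [h]
  have hm : ∀ i, MeasurableSet {w | ze ≤ f i w} := fun i =>
    measurableSet_le measurable_const (hf i)
  have hi : ∀ i ∈ Finset.range M,
      Integrable (fun w => ({w | ze ≤ f i w}.indicator (fun _ => (1 : ℝ)) w)) P := fun i _ =>
    (integrable_const (1 : ℝ)).indicator (hm i)
  simp_rw [h1]
  refine ⟨integrable_finsetSum _ hi, ?_⟩
  rw [integral_finsetSum _ hi]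
  have h2 : ∀ i ∈ Finset.range M,
      ∫ w, ({w | ze ≤ f i w}.indicator (fun _ => (1 : ℝ)) w) ∂P = p := by
    intro i _
    rw [integral_indicator (hm i)]
    simp only [integral_const, smul_eq_mul, mul_one]
    rw [← hp i]
    simp [Measure.real]
  rw [Finset.sum_congr rfl h2]
  simp

theorem main (hdet : S_DET) (hfz : S_FZ) (hi : S_I) (hb : S_IIDB) (hl : S_LOC) (hint : S_INT)
    (hms : S_MS) (hk : S_KL) : S_FIN := by
  intro al K nu hR hD
  obtain ⟨c2, m0, hS⟩ := hdet al K hR
  have hc2 := hS.c2pos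
  have hal := hR.al0
  set gam : ℝ := 1 / (1 + al) with hgam
  have hg0 : 0 < gam := by positivity
  have hg1 : (1 + al) * gam = 1 := by rw [hgam]; field_simp
  have hc2g : 0 < c2 ^ gam := Real.rpow_pos_of_pos hc2 _
  obtain ⟨k, L, R, T, hodd, hL, hne, eps, heps, lam0, hlam0, hI⟩ :=
    hi al c2 K nu hR hD hc2 hS.c2le (4 / c2 ^ gam) (by positivity)
  refine ⟨eps, heps, min lam0 (1 / ((m0 : ℝ) + 1)), by positivity, ?_⟩
  intro lam hlam hlam1 Om _ P om hom
  haveI := hom.prob
  have hlam2 : lam < lam0 := lt_of_lt_of_le hlam1 (min_le_left _ _)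
  have hlam3 : lam < 1 / ((m0 : ℝ) + 1) := lt_of_lt_of_le hlam1 (min_le_right _ _)
  set m := mm lam with hm
  have hm0 : m0 ≤ m := by
    have h1 : (m0 : ℝ) + 1 < 1 / lam := by
      rw [lt_div_iff₀ hlam]
      rw [lt_div_iff₀ (by positivity)] at hlam3
      linarith
    have h2 : (1 : ℝ) ≤ (m0 : ℝ) + 1 := by
      have : (0 : ℝ) ≤ m0 := Nat.cast_nonneg _
      linarith
    have h3 : (m0 : ℝ) ≤ 1 / lam ^ 2 := by
      have h4 : 1 / lam ^ 2 = (1 / lam) * (1 / lam) := by
        field_simp
      rw [h4]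
      nlinarith
    have h5 : 1 / lam ^ 2 ≤ (m : ℝ) := Nat.le_ceil _
    exact_mod_cast h3.trans h5
  set h : ℝ := (gam + eps) * lam with hh
  set B := T + 2 with hB
  set cc : ℝ := Real.log (c2 * (2 : ℝ) ^ (-(1 + al))) with hcc
  set F : (ℕ → ℝ) → ℝ := fun x =>
    Real.log (Mx al c2 K m k L R T 1 (ee lam h x)) + cc with hF
  obtain ⟨hms1, hms2, hms3, hms4⟩ := hms al c2 lam h K m k L R T 1
  have hFm : Measurable F := (Real.measurable_log.comp hms1).add_const _
  have hFd : ∀ x y : ℕ → ℝ, (∀ i, 1 ≤ i → i ≤ B * m → x i = y i) → F x = F y := by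
    intro x y hxy
    simp only [hF]
    rw [hms3 x y]
    intro i hi1 hi2
    refine hxy i (by omega) ?_
    have : (1 + T + 1) * m = B * m := by rw [hB]; ring
    omega
  obtain ⟨hind, hlaw⟩ := hb Om P nu om hom (B * m) F hFm hFd
  set X : ℕ → Om → ℝ := fun b w => F (fun i => om (b * (B * m) + i) w) with hX
  have hXe : ∀ b w, X b w
      = Real.log (Mx al c2 K m k L R T (b * B + 1) (ee lam h (fun n => om n w))) + cc := by
    intro b w
    simp only [hX, hF]
    obtain ⟨_, _, _, hms4'⟩ := hms al c2 lam h K m k L R T 1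
    rw [hms4' (fun n => om n w) (b * B)]
    have : ∀ i, b * (B * m) + i = b * B * m + i := fun i => by ring
    simp only [this]
  have hXm : ∀ b, Measurable (X b) := by
    intro b
    refine hFm.comp ?_
    exact measurable_pi_lambda _ fun i => hom.meas _
  have hXlaw : ∀ b, P.map (X b) = P.map (X 0) := by
    intro b
    rw [show P.map (X b) = _ from hlaw b, show P.map (X 0) = _ from hlaw 0]
  -- the exponential moment
  obtain ⟨hI1, hI2⟩ := hI lam hlam hlam2 Om P om hom 1
  have hX0 : ∀ w, Real.exp (gam * X 0 w)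
      = (c2 ^ gam / 2) * (Mx al c2 K m k L R T 1 (ee lam h (fun n => om n w))) ^ gam := by
    intro w
    have hpos : 0 < Mx al c2 K m k L R T 1 (ee lam h (fun n => om n w)) :=
      hms2 hc2 (by omega) _
    rw [hXe]
    simp only [Nat.zero_mul, Nat.zero_add]
    rw [mul_add, Real.exp_add, Real.rpow_def_of_pos hpos, hcc]
    have h1 : Real.exp (gam * Real.log (c2 * (2 : ℝ) ^ (-(1 + al)))) = c2 ^ gam / 2 := by
      rw [Real.log_mul hc2.ne' (by positivity), mul_add, Real.exp_add, mul_comm gam (Real.log c2),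
        ← Real.rpow_def_of_pos hc2, Real.log_rpow (by norm_num)]
      have : gam * (-(1 + al) * Real.log 2) = -Real.log 2 := by
        have : gam * (-(1 + al) * Real.log 2) = -((1 + al) * gam) * Real.log 2 := by ring
        rw [this, hg1]; ring
      rw [this, Real.exp_neg, Real.exp_log (by norm_num)]
      ring
    rw [h1, mul_comm gam (Real.log _)]
    ring
  have hint0 : Integrable (fun w => Real.exp (gam * X 0 w)) P := by
    simp_rw [hX0]
    exact hI1.const_mul _
  have hge : 2 ≤ ∫ w, Real.exp (gam * X 0 w) ∂P := by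
    simp_rw [hX0]
    rw [integral_const_mul]
    have h1 : (c2 ^ gam / 2) * (4 / c2 ^ gam) = 2 := by field_simp; norm_num
    calc (2 : ℝ) = (c2 ^ gam / 2) * (4 / c2 ^ gam) := h1.symm
      _ ≤ _ := mul_le_mul_of_nonneg_left hI2 (by positivity)
  have hBpos : (0 : ℝ) < B := by
    rw [hB]; positivity
  obtain ⟨n, ze, p, hn, hp0, hp1, hpi, hloc⟩ := hl Om P inferInstance X gam (B / c2 ^ gam) hg0
    (by positivity) hXm hind hXlaw hint0 hge
  have hnpos : (0 : ℝ) < n := by exact_mod_cast hn
  set t : ℝ := n * B / p with ht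
  have htpos : 0 < t := by positivity
  set D : ℝ := ze + Real.log c2 - (1 + al) * Real.log t with hDdef
  have hDpos : 0 < D := by
    -- n B / p < exp (gam ze) c2 ^ gam
    have h1 : t < Real.exp (gam * ze) * c2 ^ gam := by
      rw [ht, div_lt_iff₀ hp0]
      have h2 : B / c2 ^ gam * n * c2 ^ gam < Real.exp (gam * ze) * p * c2 ^ gam :=
        mul_lt_mul_of_pos_right hloc hc2g
      have h3 : B / c2 ^ gam * n * c2 ^ gam = n * B := by field_simp
      rw [h3] at h2
      linarith
    have h4 : Real.log t < gam * ze + gam * Real.log c2 := by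
      have h5 := Real.log_lt_log htpos h1
      rw [Real.log_mul (Real.exp_pos _).ne' hc2g.ne', Real.log_exp, Real.log_rpow hc2] at h5
      exact h5
    have h6 : (1 + al) * Real.log t < (1 + al) * (gam * ze + gam * Real.log c2) :=
      mul_lt_mul_of_pos_left h4 (by positivity)
    have h7 : (1 + al) * (gam * ze + gam * Real.log c2) = ze + Real.log c2 := by
      have : (1 + al) * (gam * ze + gam * Real.log c2)
        = ((1 + al) * gam) * (ze + Real.log c2) := by ring
      rw [this, hg1, one_mul]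
    rw [hDdef]
    linarith
  obtain ⟨_, ck, hck, hkb⟩ := hk al K hR
  have hm1 : 1 ≤ m := by
    rw [hm]
    unfold mm
    exact Nat.one_le_ceil_iff.2 (by positivity)
  have hq : 1 ≤ n * B * m := by
    have : 1 ≤ n * B := Nat.one_le_iff_ne_zero.2 (by
      rw [hB]; positivity)
    exact Nat.one_le_iff_ne_zero.2 (Nat.mul_ne_zero (by omega) (by omega))
  refine numer (p * D) (1 + al) (n * B * m) hq (by positivity) ck hck
    (fun N => ∫ w, Real.log (zf K (ee lam h (fun n => om n w)) N) ∂P) (fun N => Kbar K N)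
    hkb ?_
  intro N
  set M := N / (n * B * m) with hM
  have hMN : M * n * B * m ≤ N := by
    have : M * (n * B * m) ≤ N := Nat.div_mul_le_self _ _
    calc M * n * B * m = M * (n * B * m) := by ring
      _ ≤ N := this
  set f : ℕ → Om → ℝ := fun i w => ∑ b ∈ Finset.range n, X (i * n + b) w with hf
  have hfm : ∀ i, Measurable (f i) := fun i =>
    Finset.measurable_sum _ fun b _ => hXm _
  obtain ⟨hci, hce⟩ := card_exp P M f hfm ze p hpi
  have hpt : ∀ w, (((Finset.range M).filter (fun i => ze ≤ f i w)).card : ℝ)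
      * (ze + Real.log c2 - (1 + al) * (Real.log t - 1))
      + (-((1 + al) * (M * n * B : ℕ) / t) + Real.log (Kbar K N / 2))
      ≤ Real.log (zf K (ee lam h (fun n => om n w)) N) := by
    intro w
    have := hfz al c2 K m0 hR hS m k L R T B hm0 hodd hL hne hB (ee lam h (fun n => om n w))
      n M N ze t hn htpos hMN ((Finset.range M).filter (fun i => ze ≤ f i w)) (by
        refine Finset.filter_congr fun i _ => ?_
        simp only [hf, hXe, hcc])
    linarith
  have hmono := integral_mono ((hci.mul_const _).add (integrable_const _))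
    (hint al K nu hR hD Om P om hom lam h N) hpt
  have hcalc : ∫ w, ((((Finset.range M).filter (fun i => ze ≤ f i w)).card : ℝ)
      * (ze + Real.log c2 - (1 + al) * (Real.log t - 1))
      + (-((1 + al) * (M * n * B : ℕ) / t) + Real.log (Kbar K N / 2))) ∂P
      = (M : ℝ) * (p * D) + Real.log (Kbar K N / 2) := by
    rw [integral_add (hci.mul_const _) (integrable_const _), integral_mul_const, hce]
    simp only [integral_const, smul_eq_mul, probReal_univ, one_mul]
    have h1 : (1 + al) * (M * n * B : ℕ) / t = (1 + al) * (M * p) := by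
      rw [ht]
      push_cast
      field_simp
    rw [h1, hDdef]
    ring
  exact hcalc.symm.le.trans hmono

end Pool.Agent.N940.CO.Fin
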