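import Pool.Agent.N940.CO.Stm

/-!
Project CO, piece FZ: the deterministic lower bound of the free partition function.
-/

open MeasureTheory ProbabilityTheory Filter Topology

namespace Pool.Agent.N940.CO.Fz

theorem ew_pos (s : ℝ) : 0 < ew s := by
  unfold ew
  have := Real.exp_pos (-2 * s)
  linarith

theorem zc_nonneg (K e : ℕ → ℝ) (hK : ∀ n, 0 ≤ K n) (n : ℕ) : 0 ≤ zc K e n := by
  induction n using Nat.strong_induction_on with
  | _ n ih =>
    cases n with
    | zero => simp [zc]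
    | succ n =>
      rw [zc]
      apply Finset.sum_nonneg
      intro i _
      exact mul_nonneg (ih i i.isLt) (mul_nonneg (hK _) (ew_pos _).le)

theorem HA_nonneg (K e : ℕ → ℝ) (hK : ∀ n, 0 ≤ K n) (m j : ℕ) : 0 ≤ HA K e m j := by
  unfold HA
  exact Finset.sum_nonneg fun y _ => zc_nonneg K e hK y

theorem Ag_pos (al c2 : ℝ) (K : ℕ → ℝ) (m : ℕ) {k : ℕ} (g : Fin k → ℕ) (a : ℕ) (e : ℕ → ℝ)
    (hc : 0 < c2) (hg : ∀ l, 2 ≤ g l) : 0 < Ag al c2 K m g a e := by
  unfold Ag
  apply mul_pos _ (Real.exp_pos _)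
  apply Finset.prod_pos
  intro l _
  have h1 : (0 : ℝ) < (g l : ℝ) := by
    have := hg l
    exact_mod_cast (by omega : 0 < g l)
  exact mul_pos hc (Real.rpow_pos_of_pos h1 _)

theorem mem_Pat {k L R T : ℕ} {g : Fin k → ℕ} (h : g ∈ Pat k L R T) (hL : 2 ≤ L) :
    (∀ l, 2 ≤ g l) ∧ ∑ i, g i = T := by
  unfold Pat at h
  rw [Finset.mem_filter, Fintype.mem_piFinset] at h
  refine ⟨fun l => ?_, h.2⟩
  have := Finset.mem_Icc.mp (h.1 l)
  omega

theorem main (hp : S_PC) (hch : S_CH) (he : S_END) (hk : S_KL) : S_FZ := by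
  intro al c2 K m0 hR hS m k L R T B hm hk2 hL hne hB e n M N ze t hn ht hN G hG
  have hKnn := hR.nonneg
  obtain ⟨cc, hcc, hKl⟩ := (hk al K hR).2
  have hKb : 0 < Kbar K N := by
    refine lt_of_lt_of_le ?_ (hKl N)
    have h1 : (0 : ℝ) < (N : ℝ) + 1 := by positivity
    exact mul_pos hcc (Real.rpow_pos_of_pos h1 _)
  have hc2 := hS.c2pos
  have hc2' := hS.c2le
  obtain ⟨he1, he2⟩ := he K e hKnn hR.sum hR.zero
  have hzf : 0 < zf K e N := lt_of_lt_of_le (by linarith) (he1 N)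
  have hMx : ∀ a : ℕ, ∃ g ∈ Pat k L R T, Mx al c2 K m k L R T a e = Ag al c2 K m g a e := by
    intro a
    unfold Mx
    rw [dif_pos hne]
    exact Finset.exists_mem_eq_sup' hne _
  have hMxp : ∀ a : ℕ, 0 < Mx al c2 K m k L R T a e := by
    intro a
    obtain ⟨g, hg, h⟩ := hMx a
    rw [h]
    exact Ag_pos al c2 K m g a e hc2 (mem_Pat hg hL).1
  have hchain := hch al c2 T B (fun j => HA K e m j)
    (fun b => Real.log (Mx al c2 K m k L R T (b * B + 1) e)) hR.al0 hc2 hc2' hB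
    (fun j => HA_nonneg K e hKnn m j)
    (by
      intro j b hjb
      obtain ⟨g, hg, h⟩ := hMx (b * B + 1)
      obtain ⟨hg1, hg2⟩ := mem_Pat hg hL
      have h3 := (hp al c2 K m0 hR hS m hm k g hk2 hg1 e (b * B + 1)).1 j hjb
      rw [hg2] at h3
      rw [Real.exp_log (hMxp _), h]
      exact h3)
    (by
      intro b
      obtain ⟨g, hg, h⟩ := hMx (b * B + 1)
      obtain ⟨hg1, hg2⟩ := mem_Pat hg hL
      have h3 := (hp al c2 K m0 hR hS m hm k g hk2 hg1 e (b * B + 1)).2 (by omega)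
      rw [hg2] at h3
      rw [Real.exp_log (hMxp _), h]
      exact h3)
    n M ze t hn ht G hG
  have hal := hR.al0
  rcases Finset.eq_empty_or_nonempty G with h0 | h0
  · rw [h0]
    simp only [Finset.card_empty, Nat.cast_zero, zero_mul, zero_sub]
    have h1 : Real.log (Kbar K N / 2) ≤ Real.log (zf K e N) :=
      Real.log_le_log (by linarith) (he1 N)
    have h2 : 0 ≤ (1 + al) * ((M * n * B : ℕ) : ℝ) / t := by positivity
    linarith
  · obtain ⟨j, hj, hje⟩ := hchain h0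
    have h1 : (j + 1) * m ≤ N := le_trans (Nat.mul_le_mul_right m hj) hN
    have h2 := he2 N m j h1
    have h3 := le_trans (mul_le_mul_of_nonneg_right hje (by linarith : 0 ≤ Kbar K N / 2)) h2
    have h4 := Real.log_le_log (mul_pos (Real.exp_pos _) (by linarith)) h3
    rw [Real.log_mul (Real.exp_pos _).ne' (by linarith), Real.log_exp] at h4
    exact h4

end Pool.Agent.N940.CO.Fz
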