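import Pool.Agent.N940.CO.Stm

/-! Project CO: the Hoelder type lower bound for the moment of a maximum (helper199). -/

set_option autoImplicit false

open MeasureTheory ProbabilityTheory Filter Topology

namespace Pool.Agent.N940.CO.Hold

open Pool.Agent.N940.CO

lemma amgm {q Y s0 : ℝ} (hq : 0 < q) (hY : 0 < Y) (hs : 0 < s0) :
    3 * q ^ 2 ≤ s0 ^ 2 * (q ^ 4 / Y ^ 2) + 2 * (q * Y) / s0 := by
  obtain ⟨r, hr⟩ : ∃ r, r = s0 * q / Y := ⟨_, rfl⟩
  have hr0 : 0 < r := by rw [hr]; positivity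
  have h1 : s0 ^ 2 * (q ^ 4 / Y ^ 2) = q ^ 2 * r ^ 2 := by
    rw [hr]
    field_simp
  have h2 : 2 * (q * Y) / s0 = q ^ 2 * (2 / r) := by
    rw [hr]
    field_simp
  have h3 : 3 ≤ r ^ 2 + 2 / r := by
    have h4 : r ^ 2 + 2 / r - 3 = (r - 1) ^ 2 * (r + 2) / r := by
      field_simp
      ring
    have h5 : 0 ≤ (r - 1) ^ 2 * (r + 2) / r := by positivity
    linarith
  rw [h1, h2]
  nlinarith [sq_nonneg q, mul_le_mul_of_nonneg_left h3 (sq_nonneg q)]

lemma measurable_sup_aux {Om I : Type} [MeasurableSpace Om] {s : Finset I} (hs : s.Nonempty)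
    (a : I → Om → ℝ) (hm : ∀ x, Measurable (a x)) :
    Measurable fun w => s.sup' hs (fun x => a x w) := by
  have h := Finset.measurable_sup' (f := a) hs fun x _ => hm x
  have h1 : s.sup' hs a = fun w => s.sup' hs (fun x => a x w) := by
    funext w
    exact Finset.sup'_apply hs a w
  rwa [h1] at h

theorem main : S_HOLD := by
  intro Om _ P _ I s hs a gam hgam hm hp hint
  obtain ⟨c, hc⟩ : ∃ c : I → Om → ℝ, ∀ x w, c x w = (a x w) ^ (gam / 2) := ⟨_, fun _ _ => rfl⟩
  have hc0 : ∀ x w, 0 < c x w := fun x w => by rw [hc]; exact Real.rpow_pos_of_pos (hp x w) _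
  have hcb : ∀ x w, (a x w) ^ gam = c x w ^ 2 := by
    intro x w
    rw [hc, ← Real.rpow_natCast, ← Real.rpow_mul (hp x w).le]
    congr 1
    push_cast
    ring
  have hcm : ∀ x, Measurable (c x) := by
    intro x
    have : c x = fun w => (a x w) ^ (gam / 2) := funext fun w => hc x w
    rw [this]
    exact (hm x).pow_const _
  obtain ⟨Z, hZ⟩ : ∃ Z : Om → ℝ, ∀ w, Z w = (s.sup' hs (fun x => a x w)) ^ gam :=
    ⟨_, fun _ => rfl⟩
  have hZm : Measurable Z := by
    have : Z = fun w => (s.sup' hs (fun x => a x w)) ^ gam := funext hZ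
    rw [this]
    exact (measurable_sup_aux hs a hm).pow_const _
  have hZge : ∀ x ∈ s, ∀ w, c x w ^ 2 ≤ Z w := by
    intro x hx w
    rw [hZ, ← hcb]
    exact Real.rpow_le_rpow (hp x w).le (Finset.le_sup' (fun x => a x w) hx) hgam.le
  have hZeq : ∀ w, ∃ x ∈ s, Z w = c x w ^ 2 := by
    intro w
    obtain ⟨x, hx, h⟩ := Finset.exists_mem_eq_sup' hs (fun x => a x w)
    exact ⟨x, hx, by rw [hZ, h, hcb]⟩
  have hZ0 : ∀ w, 0 ≤ Z w := by
    intro w
    obtain ⟨x, hx, h⟩ := hZeq w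
    rw [h]
    positivity
  have hZle : ∀ w, Z w ≤ ∑ x ∈ s, c x w ^ 2 := by
    intro w
    obtain ⟨x, hx, h⟩ := hZeq w
    rw [h]
    exact Finset.single_le_sum (f := fun x => c x w ^ 2) (fun y _ => sq_nonneg _) hx
  have hi2 : ∀ x ∈ s, Integrable (fun w => c x w ^ 2) P := by
    intro x hx
    exact (hint x hx).congr (Eventually.of_forall fun w => hcb x w)
  have hZi : Integrable Z P := by
    refine (integrable_finsetSum s hi2).mono' hZm.aestronglyMeasurable
      (Eventually.of_forall fun w => ?_)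
    rw [Real.norm_of_nonneg (hZ0 w)]
    exact hZle w
  have hZf : (fun w => (s.sup' hs (fun x => a x w)) ^ gam) = Z := funext fun w => (hZ w).symm
  rw [hZf]
  refine ⟨hZi, ?_⟩
  obtain ⟨Y, hY⟩ : ∃ Y : Om → ℝ, ∀ w, Y w = ∑ y ∈ s, c y w := ⟨_, fun _ => rfl⟩
  have hYm : Measurable Y := by
    have : Y = fun w => ∑ y ∈ s, c y w := funext hY
    rw [this]
    exact Finset.measurable_sum _ fun y _ => hcm y
  have hYc : ∀ x ∈ s, ∀ w, c x w ≤ Y w := by
    intro x hx w
    rw [hY]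
    exact Finset.single_le_sum (f := fun x => c x w) (fun y _ => (hc0 y w).le) hx
  have hY0 : ∀ w, 0 < Y w := by
    intro w
    obtain ⟨x, hx⟩ := hs
    exact (hc0 x w).trans_le (hYc x hx w)
  have hcc : ∀ x ∈ s, ∀ y ∈ s, Integrable (fun w => c x w * c y w) P := by
    intro x hx y hy
    refine ((hi2 x hx).add (hi2 y hy)).mono' ((hcm x).mul (hcm y)).aestronglyMeasurable
      (Eventually.of_forall fun w => ?_)
    rw [Real.norm_of_nonneg (mul_nonneg (hc0 x w).le (hc0 y w).le)]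
    show c x w * c y w ≤ c x w ^ 2 + c y w ^ 2
    nlinarith [sq_nonneg (c x w - c y w), sq_nonneg (c x w), sq_nonneg (c y w)]
  have hAi : ∀ x ∈ s, Integrable (fun w => c x w ^ 4 / Y w ^ 2) P := by
    intro x hx
    refine (hi2 x hx).mono' (((hcm x).pow_const 4).div (hYm.pow_const 2)).aestronglyMeasurable
      (Eventually.of_forall fun w => ?_)
    have h1 := hY0 w
    have h2 := hc0 x w
    rw [Real.norm_of_nonneg (by positivity), div_le_iff₀ (by positivity)]
    have h3 := pow_le_pow_left₀ h2.le (hYc x hx w) 2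
    nlinarith [mul_le_mul_of_nonneg_left h3 (sq_nonneg (c x w))]
  -- the sum of the `A x`
  have hAZ : ∀ w, ∑ x ∈ s, c x w ^ 4 / Y w ^ 2 ≤ Z w := by
    intro w
    have h1 := hY0 w
    rw [← Finset.sum_div, div_le_iff₀ (by positivity)]
    have h2 : ∑ x ∈ s, c x w ^ 4 ≤ Z w * ∑ x ∈ s, c x w ^ 2 := by
      rw [Finset.mul_sum]
      refine Finset.sum_le_sum fun x hx => ?_
      nlinarith [mul_le_mul_of_nonneg_right (hZge x hx w) (sq_nonneg (c x w))]
    have h3 : ∑ x ∈ s, c x w ^ 2 ≤ Y w ^ 2 := by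
      have h4 : Y w ^ 2 = ∑ x ∈ s, c x w * Y w := by
        rw [← Finset.sum_mul, ← hY, sq]
      rw [h4]
      refine Finset.sum_le_sum fun x hx => ?_
      rw [sq]
      exact mul_le_mul_of_nonneg_left (hYc x hx w) (hc0 x w).le
    exact h2.trans (mul_le_mul_of_nonneg_left h3 (hZ0 w))
  have hsum : ∑ x ∈ s, ∫ w, c x w ^ 4 / Y w ^ 2 ∂P ≤ ∫ w, Z w ∂P := by
    rw [← integral_finsetSum s hAi]
    exact integral_mono (integrable_finsetSum s hAi) hZi hAZ
  refine le_trans (Finset.sum_le_sum fun x hx => ?_) hsum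
  obtain ⟨v, hv⟩ : ∃ v, v = ∫ w, c x w ^ 2 ∂P := ⟨_, rfl⟩
  obtain ⟨W, hW⟩ : ∃ W, W = ∑ y ∈ s, ∫ w, c x w * c y w ∂P := ⟨_, rfl⟩
  have e1 : ∫ w, (a x w) ^ gam ∂P = v := by
    rw [hv]
    exact integral_congr_ae (Eventually.of_forall fun w => hcb x w)
  have e2 : ∑ y ∈ s, ∫ w, (a x w) ^ (gam / 2) * (a y w) ^ (gam / 2) ∂P = W := by
    rw [hW]
    refine Finset.sum_congr rfl fun y _ => integral_congr_ae (Eventually.of_forall fun w => ?_)
    show (a x w) ^ (gam / 2) * (a y w) ^ (gam / 2) = c x w * c y w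
    rw [hc, hc]
  rw [e1, e2]
  have hv0 : 0 < v := by
    rw [hv, integral_pos_iff_support_of_nonneg (fun w => sq_nonneg _) (hi2 x hx)]
    have h1 : Function.support (fun w => c x w ^ 2) = Set.univ := by
      ext w
      simp only [Function.mem_support, Set.mem_univ, iff_true]
      exact (pow_pos (hc0 x w) 2).ne'
    rw [h1, measure_univ]
    exact one_pos
  have hWv : v ≤ W := by
    rw [hW]
    have h1 : v = ∫ w, c x w * c x w ∂P := by
      rw [hv]
      exact integral_congr_ae (Eventually.of_forall fun w => sq (c x w))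
    rw [h1]
    exact Finset.single_le_sum (f := fun y => ∫ w, c x w * c y w ∂P)
      (fun y _ => integral_nonneg fun w => mul_nonneg (hc0 x w).le (hc0 y w).le) hx
  have hW0 : 0 < W := hv0.trans_le hWv
  have hWB : ∫ w, c x w * Y w ∂P = W := by
    rw [hW, ← integral_finsetSum s (hcc x hx)]
    refine integral_congr_ae (Eventually.of_forall fun w => ?_)
    show c x w * Y w = ∑ y ∈ s, c x w * c y w
    rw [hY, Finset.mul_sum]
  have hBi : Integrable (fun w => c x w * Y w) P := by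
    refine (integrable_finsetSum s (hcc x hx)).congr (Eventually.of_forall fun w => ?_)
    show ∑ y ∈ s, c x w * c y w = c x w * Y w
    rw [hY, Finset.mul_sum]
  obtain ⟨t, ht⟩ : ∃ t, t = W / v := ⟨_, rfl⟩
  have ht0 : 0 < t := by rw [ht]; positivity
  have h1 : ∫ w, 3 * c x w ^ 2 ∂P ≤
      ∫ w, (t ^ 2 * (c x w ^ 4 / Y w ^ 2) + 2 / t * (c x w * Y w)) ∂P := by
    refine integral_mono ((hi2 x hx).const_mul 3)
      (((hAi x hx).const_mul _).add (hBi.const_mul _)) fun w => ?_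
    have h2 := amgm (hc0 x w) (hY0 w) ht0
    show 3 * c x w ^ 2 ≤ t ^ 2 * (c x w ^ 4 / Y w ^ 2) + 2 / t * (c x w * Y w)
    have h3 : 2 / t * (c x w * Y w) = 2 * (c x w * Y w) / t := by ring
    rw [h3]
    exact h2
  rw [integral_const_mul, integral_add ((hAi x hx).const_mul _) (hBi.const_mul _),
    integral_const_mul, integral_const_mul, ← hv, hWB] at h1
  have h2 : 2 / t * W = 2 * v := by
    rw [ht]
    field_simp
  rw [h2] at h1
  have h3 : v ≤ t ^ 2 * ∫ w, c x w ^ 4 / Y w ^ 2 ∂P := by linarith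
  rw [ht, div_pow, div_mul_eq_mul_div, le_div_iff₀ (by positivity)] at h3
  rw [div_le_iff₀ (by positivity)]
  calc v ^ 3 = v * v ^ 2 := by ring
    _ ≤ W ^ 2 * ∫ w, c x w ^ 4 / Y w ^ 2 ∂P := h3
    _ = _ := by ring

end Pool.Agent.N940.CO.Hold
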