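import Pool.Agent.N940.CO.Stm

/-!
Project CO, part I: the fractional moment of the best pattern (assembly).
-/

set_option autoImplicit false

open MeasureTheory ProbabilityTheory Filter Topology

namespace Pool.Agent.N940.CO.I

open Pool.Agent.N940.CO

/-- one factor: the `gam`-th power of the weight of a gap -/
lemma fac_one {al c2 : ℝ} (ha : 0 < al) (hc : 0 < c2) {n : ℕ} (hn : 1 ≤ n) :
    (c2 * (n : ℝ) ^ (-(1 + al))) ^ (1 / (1 + al)) = c2 ^ (1 / (1 + al)) / n := by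
  have hn0 : (0 : ℝ) < n := by exact_mod_cast hn
  rw [Real.mul_rpow hc.le (Real.rpow_nonneg hn0.le _), ← Real.rpow_mul hn0.le]
  have h1 : -(1 + al) * (1 / (1 + al)) = -1 := by
    have : (1 + al) ≠ 0 := by positivity
    field_simp
  rw [h1, Real.rpow_neg_one]
  rfl

/-- two factors -/
lemma fac_two {al c2 : ℝ} (ha : 0 < al) (hc : 0 < c2) {n n' : ℕ} (hn : 1 ≤ n) (hn' : 1 ≤ n') :
    (c2 * (n : ℝ) ^ (-(1 + al)) * (c2 * (n' : ℝ) ^ (-(1 + al)))) ^ (1 / (1 + al) / 2) =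
      c2 ^ (1 / (1 + al)) / n * Real.sqrt ((n : ℝ) / n') := by
  have hn0 : (0 : ℝ) < n := by exact_mod_cast hn
  have hn0' : (0 : ℝ) < n' := by exact_mod_cast hn'
  have hx : 0 < c2 * (n : ℝ) ^ (-(1 + al)) := mul_pos hc (Real.rpow_pos_of_pos hn0 _)
  have hx' : 0 < c2 * (n' : ℝ) ^ (-(1 + al)) := mul_pos hc (Real.rpow_pos_of_pos hn0' _)
  have e1 : (1 / (1 + al) / 2 : ℝ) = 1 / (1 + al) * (1 / 2) := by ring
  rw [e1, Real.rpow_mul (mul_pos hx hx').le, Real.mul_rpow hx.le hx'.le, fac_one ha hc hn,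
    fac_one ha hc hn', ← Real.sqrt_eq_rpow]
  have hcg : 0 < c2 ^ (1 / (1 + al)) := Real.rpow_pos_of_pos hc _
  have e2 : c2 ^ (1 / (1 + al)) / n * (c2 ^ (1 / (1 + al)) / n') =
      (c2 ^ (1 / (1 + al)) / n) ^ 2 * ((n : ℝ) / n') := by
    field_simp
  rw [e2, Real.sqrt_mul (by positivity), Real.sqrt_sq (by positivity)]

lemma ty_le {k : ℕ} (g : Fin k → ℕ) (c : ℕ) : ty g c = 0 ∨ ty g c = 1 ∨ ty g c = 2 ∨ ty g c = 3 := by
  unfold ty
  split_ifs <;> simp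

lemma mem_pat {k L R T : ℕ} {g : Fin k → ℕ} (h : g ∈ Pat k L R T) :
    (∀ l, L ≤ g l) ∧ ∑ i, g i = T := by
  unfold Pat at h
  rw [Finset.mem_filter, Fintype.mem_piFinset] at h
  exact ⟨fun l => (Finset.mem_Icc.1 (h.1 l)).1, h.2⟩

/-- products of the joint moments over the cells -/
lemma prod_ps {k T : ℕ} (g g' : Fin k → ℕ) (hT : ∑ i, g i = T) (f : ℕ → ℝ) (p : ℕ → ℕ → ℝ) (q : ℝ)
    (hf : ∀ t, 0 < f t) (hp : ∀ s t, 0 < p s t) (hsym : ∀ s t, p s t = p t s)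
    (hle : ∀ s t, p s t ≤ Real.sqrt (f s * f t)) (hf0 : f 0 = 1)
    (h03 : p 0 3 ≤ q * Real.sqrt (f 3)) :
    ∏ c ∈ Finset.range (T + 1), p (ty g c) (ty g' c) ≤
      Real.sqrt ((∏ c ∈ Finset.range (T + 1), f (ty g c)) *
        ∏ c ∈ Finset.range (T + 1), f (ty g' c)) * q ^ (Dd g g') := by
  have e1 : Real.sqrt ((∏ c ∈ Finset.range (T + 1), f (ty g c)) *
      ∏ c ∈ Finset.range (T + 1), f (ty g' c)) =
      ∏ c ∈ Finset.range (T + 1), Real.sqrt (f (ty g c) * f (ty g' c)) := by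
    rw [← Finset.prod_mul_distrib]
    rw [Real.sqrt_eq_rpow, ← Real.finsetProd_rpow _ _ (fun c _ => (mul_pos (hf _) (hf _)).le)]
    refine Finset.prod_congr rfl fun c _ => ?_
    rw [Real.sqrt_eq_rpow]
  have e2 : q ^ (Dd g g') = ∏ c ∈ Finset.range (T + 1),
      (if (ty g c = 0 ∧ ty g' c = 3) ∨ (ty g c = 3 ∧ ty g' c = 0) then q else 1) := by
    rw [Finset.prod_ite, Finset.prod_const_one, mul_one, Finset.prod_const]
    unfold Dd
    rw [hT]
  rw [e1, e2, ← Finset.prod_mul_distrib]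
  refine Finset.prod_le_prod (fun c _ => (hp _ _).le) fun c _ => ?_
  split_ifs with h
  · rcases h with ⟨h1, h2⟩ | ⟨h1, h2⟩
    · rw [h1, h2, hf0, one_mul, mul_comm]
      exact h03
    · rw [h1, h2, hf0, mul_one, mul_comm, hsym]
      exact h03
  · rw [mul_one]
    exact hle _ _

/-- the constants: `c' / g` -/
lemma const_le {k : ℕ} (hk : 1 ≤ k) {cg D0 : ℝ} (hcg : 0 < cg) (hD0 : 1 ≤ D0) (g : Fin k → ℕ)
    (hg : ∀ l, 1 ≤ g l) {Phi : ℝ} (hPhi : Real.exp (-16) ^ k * (1 / 2) ≤ Phi) :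
    ∏ l, (cg * Real.exp (-16) / (16 * D0 ^ 2) / (g l : ℝ)) ≤
      ((∏ l, (cg / (g l : ℝ))) * Phi) / (8 * (D0 ^ k) ^ 2) := by
  have hD : 0 < D0 := by linarith
  have h1 : ∏ l, (cg * Real.exp (-16) / (16 * D0 ^ 2) / (g l : ℝ)) =
      (∏ l, (cg / (g l : ℝ))) * (Real.exp (-16) ^ k * (1 / 16) ^ k / (D0 ^ k) ^ 2) := by
    have h2 : ∀ l, cg * Real.exp (-16) / (16 * D0 ^ 2) / (g l : ℝ) =
        cg / (g l : ℝ) * (Real.exp (-16) * (1 / 16) / D0 ^ 2) := by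
      intro l
      have : (0 : ℝ) < g l := by exact_mod_cast hg l
      field_simp
    rw [Finset.prod_congr rfl fun l _ => h2 l, Finset.prod_mul_distrib, Finset.prod_const,
      Finset.card_univ, Fintype.card_fin]
    congr 1
    rw [div_pow, mul_pow, ← pow_mul, ← pow_mul, mul_comm 2 k]
  have h1' : ((∏ l, (cg / (g l : ℝ))) * Phi) / (8 * (D0 ^ k) ^ 2) =
      (∏ l, (cg / (g l : ℝ))) * (Phi / (8 * (D0 ^ k) ^ 2)) := mul_div_assoc _ _ _
  rw [h1, h1']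
  have h3 : 0 ≤ ∏ l, (cg / (g l : ℝ)) := Finset.prod_nonneg fun l _ => by positivity
  refine mul_le_mul_of_nonneg_left ?_ h3
  rw [div_le_div_iff₀ (by positivity) (by positivity)]
  have h4 : ((1 : ℝ) / 16) ^ k ≤ 1 / 16 := by
    calc ((1 : ℝ) / 16) ^ k ≤ (1 / 16) ^ 1 := pow_le_pow_of_le_one (by norm_num) (by norm_num) hk
      _ = 1 / 16 := pow_one _
  have h5 : Real.exp (-16) ^ k * (1 / 16) ^ k ≤ Real.exp (-16) ^ k * (1 / 16) :=
    mul_le_mul_of_nonneg_left h4 (by positivity)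
  have h6 : Real.exp (-16) ^ k * (1 / 16) ^ k * 8 ≤ Phi := by
    calc Real.exp (-16) ^ k * (1 / 16) ^ k * 8 ≤ Real.exp (-16) ^ k * (1 / 16) * 8 := by linarith
      _ = Real.exp (-16) ^ k * (1 / 2) := by ring
      _ ≤ Phi := hPhi
  have h7 : (0 : ℝ) < (D0 ^ k) ^ 2 := by positivity
  calc Real.exp (-16) ^ k * (1 / 16) ^ k * (8 * (D0 ^ k) ^ 2) =
      (Real.exp (-16) ^ k * (1 / 16) ^ k * 8) * (D0 ^ k) ^ 2 := by ring
    _ ≤ Phi * (D0 ^ k) ^ 2 := mul_le_mul_of_nonneg_right h6 h7.le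

/-- the quotient in the Hoelder inequality -/
lemma quot_le {V S D : ℝ} (hV : 0 < V) (hS : 0 < S) (hD : 0 < D)
    (h : S ≤ Real.sqrt 2 * V * (2 * D)) : V / (8 * D ^ 2) ≤ V ^ 3 / S ^ 2 := by
  have h1 : S ^ 2 ≤ (Real.sqrt 2 * V * (2 * D)) ^ 2 := pow_le_pow_left₀ hS.le h 2
  have h2 : (Real.sqrt 2 * V * (2 * D)) ^ 2 = 8 * V ^ 2 * D ^ 2 := by
    rw [mul_pow, mul_pow, Real.sq_sqrt (by norm_num)]
    ring
  rw [h2] at h1
  rw [div_le_div_iff₀ (by positivity) (by positivity)]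
  calc V * S ^ 2 ≤ V * (8 * V ^ 2 * D ^ 2) := mul_le_mul_of_nonneg_left h1 hV.le
    _ = V ^ 3 * (8 * D ^ 2) := by ring

/-- the weight is positive -/
lemma Ag_pos {al c2 : ℝ} (hc : 0 < c2) (K : ℕ → ℝ) (m : ℕ) {k : ℕ} (g : Fin k → ℕ)
    (hg : ∀ l, 1 ≤ g l) (a : ℕ) (e : ℕ → ℝ) : 0 < Ag al c2 K m g a e := by
  unfold Ag
  refine mul_pos (Finset.prod_pos fun l _ => mul_pos hc (Real.rpow_pos_of_pos ?_ _)) (Real.exp_pos _)
  exact_mod_cast hg l

lemma Ag_meas {Om : Type} [MeasurableSpace Om] {om : ℕ → Om → ℝ} (hm : ∀ n, Measurable (om n))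
    (al c2 lam h : ℝ) (K : ℕ → ℝ) (m : ℕ) {k : ℕ} (g : Fin k → ℕ) (a : ℕ) :
    Measurable (fun w => Ag al c2 K m g a (ee lam h (fun n => om n w))) := by
  unfold Ag Rg Fc ee
  refine measurable_const.mul (Real.measurable_exp.comp ?_)
  refine Finset.measurable_sum _ fun c _ => Finset.measurable_sum _ fun i _ => ?_
  exact measurable_const.mul (measurable_const.mul (measurable_const.mul ((hm _).add measurable_const)))

theorem main (h1 : S_HOLD) (h2 : S_MOM) (h3 : S_PSI) (h4 : S_SM) (h5 : S_V) (h6 : S_COMB)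
    (h7 : S_PAR) : S_I := by
  classical
  intro al c2 K nu hR hD hc2 hc2' C hC
  have hal := hR.al0
  obtain ⟨gam, hgam⟩ : ∃ gam : ℝ, gam = 1 / (1 + al) := ⟨_, rfl⟩
  have hgam0 : 0 < gam := by rw [hgam]; positivity
  obtain ⟨q, hq⟩ : ∃ q : ℝ, q = Real.exp (-(gam ^ 2 / 4)) := ⟨_, rfl⟩
  have hq0 : 0 < q := by rw [hq]; exact Real.exp_pos _
  have hq1 : q < 1 := by
    rw [hq, Real.exp_lt_one_iff]
    have : 0 < gam ^ 2 / 4 := by positivity
    linarith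
  obtain ⟨D0, hD0, L0, hcomb⟩ := h6 q hq0 hq1
  have hcg : 0 < c2 ^ gam := Real.rpow_pos_of_pos hc2 _
  have hD00 : 0 < D0 := by linarith
  obtain ⟨k, L, R, T, hL0, h8L, hLR, hodd, hsmall, hCs⟩ :=
    h7 q (c2 ^ gam * Real.exp (-16) / (16 * D0 ^ 2)) C L0 hq0 hq1 (by positivity) hC
  have hk1 : 1 ≤ k := hodd.pos
  have hne : (Pat k L R T).Nonempty := by
    rw [Finset.nonempty_iff_ne_empty]
    intro he
    rw [he, Finset.sum_empty] at hCs
    linarith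
  obtain ⟨eps, heps, heps1, lam0, hlam0, hlam01, hsm⟩ := h4 al K nu hR hD T
  refine ⟨k, L, R, T, hodd, by omega, hne, eps, heps, lam0, hlam0, ?_⟩
  intro lam hl hl0 Om _ P om hI a
  rw [← hgam]
  obtain ⟨h, hh⟩ : ∃ h : ℝ, h = (gam + eps) * lam := ⟨_, rfl⟩
  rw [← hh]
  obtain ⟨m, hm⟩ : ∃ m : ℕ, m = mm lam := ⟨_, rfl⟩
  obtain ⟨hf3, hf3T, hps03, hf1, hf2⟩ := hsm lam hl hl0 gam h hgam hh
  rw [← hm] at hf3 hf3T hps03 hf1 hf2 ⊢
  rw [← hq] at hps03
  have hPr := hI.prob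
  have hnu := hD.prob
  obtain ⟨f, hf⟩ : ∃ f : ℕ → ℝ, ∀ t, f t = ph nu K m gam lam h t := ⟨_, fun _ => rfl⟩
  obtain ⟨p, hp⟩ : ∃ p : ℕ → ℕ → ℝ, ∀ s t, p s t = ps nu K m gam lam h s t := ⟨_, fun _ _ => rfl⟩
  rw [← hf] at hf3 hf3T hps03 hf1 hf2
  rw [← hp] at hps03
  have hfpos : ∀ t, 0 < f t := fun t => by
    rw [hf]
    exact (h3 nu hD K m gam lam h t t).1
  have hppos : ∀ s t, 0 < p s t := fun s t => by
    rw [hp]
    exact (h3 nu hD K m gam lam h s t).2.1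
  have hpsym : ∀ s t, p s t = p t s := fun s t => by
    rw [hp, hp]
    exact (h3 nu hD K m gam lam h s t).2.2.1
  have hple : ∀ s t, p s t ≤ Real.sqrt (f s * f t) := fun s t => by
    rw [hp, hf, hf]
    exact (h3 nu hD K m gam lam h s t).2.2.2
  have hf0 : f 0 = 1 := by
    rw [hf]
    unfold ph
    refine Finset.prod_eq_one fun i _ => ?_
    have e0 : th K m 0 i = 0 := by
      unfold th
      simp
    rw [e0, mul_zero, mul_zero, mgf_zero, Real.exp_zero, mul_one]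
  obtain ⟨hV1, hV2⟩ := h5 k L R T hodd (by omega) f hf0 (hfpos 1) (hfpos 2) (hfpos 3) hf3
  obtain ⟨Phi, hPhi⟩ : ∃ Phi : (Fin k → ℕ) → ℝ, ∀ g, Phi g =
      ∏ c ∈ Finset.range (T + 1), f (ty g c) := ⟨_, fun _ => rfl⟩
  have hPhi0 : ∀ g, 0 < Phi g := fun g => by
    rw [hPhi]
    exact Finset.prod_pos fun c _ => hfpos _
  obtain ⟨V, hV⟩ : ∃ V : (Fin k → ℕ) → ℝ, ∀ g, V g = (∏ l, (c2 ^ gam / (g l : ℝ))) * Phi g :=
    ⟨_, fun _ => rfl⟩
  have hge : ∀ g ∈ Pat k L R T, ∀ l, 1 ≤ g l := fun g hg l => by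
    have := (mem_pat hg).1 l
    omega
  have hV0 : ∀ g ∈ Pat k L R T, 0 < V g := fun g hg => by
    rw [hV]
    refine mul_pos (Finset.prod_pos fun l _ => div_pos hcg ?_) (hPhi0 g)
    exact_mod_cast hge g hg l
  obtain ⟨W, hW⟩ : ∃ W : (Fin k → ℕ) → (Fin k → ℕ) → ℝ, ∀ g g', W g g' =
      ((∏ l, (c2 * (g l : ℝ) ^ (-(1 + al)))) * (∏ l, (c2 * (g' l : ℝ) ^ (-(1 + al))))) ^ (gam / 2)
      * ∏ c ∈ Finset.range (T + 1), p (ty g c) (ty g' c) := ⟨_, fun _ _ => rfl⟩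
  have hxpos : ∀ g ∈ Pat k L R T, ∀ l, 0 < c2 * (g l : ℝ) ^ (-(1 + al)) := fun g hg l => by
    refine mul_pos hc2 (Real.rpow_pos_of_pos ?_ _)
    exact_mod_cast hge g hg l
  have hW0 : ∀ g ∈ Pat k L R T, ∀ g' ∈ Pat k L R T, 0 < W g g' := fun g hg g' hg' => by
    rw [hW]
    refine mul_pos (Real.rpow_pos_of_pos (mul_pos (Finset.prod_pos fun l _ => hxpos g hg l)
      (Finset.prod_pos fun l _ => hxpos g' hg' l)) _) (Finset.prod_pos fun c _ => hppos _ _)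
  have hWle : ∀ g ∈ Pat k L R T, ∀ g' ∈ Pat k L R T, W g g' ≤ Real.sqrt 2 * V g *
      ((∏ l, Real.sqrt ((g l : ℝ) / (g' l : ℝ))) * q ^ (Dd g g')) := fun g hg g' hg' => by
    rw [hW]
    have e1 : ((∏ l, (c2 * (g l : ℝ) ^ (-(1 + al)))) *
        (∏ l, (c2 * (g' l : ℝ) ^ (-(1 + al))))) ^ (gam / 2) =
        (∏ l, (c2 ^ gam / (g l : ℝ))) * ∏ l, Real.sqrt ((g l : ℝ) / (g' l : ℝ)) := by
      rw [← Finset.prod_mul_distrib, ← Finset.prod_mul_distrib,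
        ← Real.finsetProd_rpow _ _ (fun l _ => (mul_pos (hxpos g hg l) (hxpos g' hg' l)).le)]
      refine Finset.prod_congr rfl fun l _ => ?_
      rw [hgam]
      exact fac_two hal hc2 (hge g hg l) (hge g' hg' l)
    have e2 := prod_ps g g' (mem_pat hg).2 f p q hfpos hppos hpsym hple hf0 hps03
    rw [← hPhi, ← hPhi] at e2
    have e3 : Real.sqrt (Phi g * Phi g') ≤ Real.sqrt 2 * Phi g := by
      have e4 : Phi g' ≤ 2 * Phi g := by
        have e5 := hV2 g hg g' hg'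
        rw [← hPhi, ← hPhi] at e5
        have e6 : 1 / 2 * Phi g' ≤ f 3 ^ T * Phi g' :=
          mul_le_mul_of_nonneg_right hf3T (hPhi0 g').le
        linarith
      have e7 : Phi g * Phi g' ≤ 2 * Phi g ^ 2 := by
        have := mul_le_mul_of_nonneg_left e4 (hPhi0 g).le
        nlinarith
      calc Real.sqrt (Phi g * Phi g') ≤ Real.sqrt (2 * Phi g ^ 2) := Real.sqrt_le_sqrt e7
        _ = Real.sqrt 2 * Phi g := by
          rw [Real.sqrt_mul (by norm_num), Real.sqrt_sq (hPhi0 g).le]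
    rw [e1, hV]
    have e8 : 0 ≤ (∏ l, (c2 ^ gam / (g l : ℝ))) * ∏ l, Real.sqrt ((g l : ℝ) / (g' l : ℝ)) :=
      mul_nonneg (Finset.prod_nonneg fun l _ => by positivity)
        (Finset.prod_nonneg fun l _ => Real.sqrt_nonneg _)
    have e9 : ∏ c ∈ Finset.range (T + 1), p (ty g c) (ty g' c) ≤
        Real.sqrt 2 * Phi g * q ^ (Dd g g') :=
      e2.trans (mul_le_mul_of_nonneg_right e3 (pow_nonneg hq0.le _))
    refine (mul_le_mul_of_nonneg_left e9 e8).trans (le_of_eq ?_)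
    ring
  have hSle : ∀ g ∈ Pat k L R T, ∑ g' ∈ Pat k L R T, W g g' ≤
      Real.sqrt 2 * V g * (2 * D0 ^ k) := fun g hg => by
    calc ∑ g' ∈ Pat k L R T, W g g' ≤ ∑ g' ∈ Pat k L R T, Real.sqrt 2 * V g *
          ((∏ l, Real.sqrt ((g l : ℝ) / (g' l : ℝ))) * q ^ (Dd g g')) :=
          Finset.sum_le_sum fun g' hg' => hWle g hg g' hg'
      _ = Real.sqrt 2 * V g * ∑ g' ∈ Pat k L R T,
          ((∏ l, Real.sqrt ((g l : ℝ) / (g' l : ℝ))) * q ^ (Dd g g')) := by rw [Finset.mul_sum]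
      _ ≤ Real.sqrt 2 * V g * (2 * D0 ^ k) := by
        have e1 := hcomb k L R T hL0 h8L hLR g hg
        have e2 : (1 : ℝ) ≤ D0 ^ k := one_le_pow₀ hD0
        have e3 := hV0 g hg
        refine mul_le_mul_of_nonneg_left ?_ (by positivity)
        linarith
  -- the family of weights
  obtain ⟨A, hA⟩ : ∃ A : (Fin k → ℕ) → Om → ℝ, ∀ g w, A g w =
      if g ∈ Pat k L R T then Ag al c2 K m g a (ee lam h (fun n => om n w)) else 1 :=
    ⟨_, fun _ _ => rfl⟩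
  have hA1 : ∀ g ∈ Pat k L R T, A g = fun w => Ag al c2 K m g a (ee lam h (fun n => om n w)) :=
    fun g hg => by
      funext w
      rw [hA, if_pos hg]
  have hAm : ∀ g, Measurable (A g) := fun g => by
    by_cases hg : g ∈ Pat k L R T
    · rw [hA1 g hg]
      exact Ag_meas hI.meas al c2 lam h K m g a
    · have : A g = fun _ => 1 := by
        funext w
        rw [hA, if_neg hg]
      rw [this]
      exact measurable_const
  have hA0 : ∀ g w, 0 < A g w := fun g w => by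
    rw [hA]
    split_ifs with hg
    · exact Ag_pos hc2 K m g (hge g hg) a _
    · exact one_pos
  have hmom := fun (g : Fin k → ℕ) (hg : g ∈ Pat k L R T) (g' : Fin k → ℕ)
    (hg' : g' ∈ Pat k L R T) => h2 Om P nu om hI hD al c2 gam lam h K m k T a g g' hc2
      (mem_pat hg).2 (mem_pat hg').2 (hge g hg) (hge g' hg')
  have hAi : ∀ g ∈ Pat k L R T, Integrable (fun w => (A g w) ^ gam) P := fun g hg => by
    rw [hA1 g hg]
    exact (hmom g hg g hg).1.1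
  obtain ⟨hint, hmain⟩ := h1 Om P hPr (Fin k → ℕ) (Pat k L R T) hne A gam hgam0 hAm hA0 hAi
  have hMx : ∀ w, Mx al c2 K m k L R T a (ee lam h (fun n => om n w)) =
      (Pat k L R T).sup' hne (fun g => A g w) := fun w => by
    unfold Mx
    rw [dif_pos hne]
    refine Finset.sup'_congr hne rfl fun g hg => ?_
    rw [hA, if_pos hg]
  simp only [hMx]
  refine ⟨hint, (hCs.trans ?_).trans hmain⟩
  refine Finset.sum_le_sum fun g hg => ?_
  have e1 : ∫ w, (A g w) ^ gam ∂P = V g := by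
    rw [hA1 g hg, (hmom g hg g hg).1.2, hV, hPhi]
    congr 1
    · rw [← Real.finsetProd_rpow _ _ (fun l _ => (hxpos g hg l).le)]
      refine Finset.prod_congr rfl fun l _ => ?_
      rw [hgam]
      exact fac_one hal hc2 (hge g hg l)
    · exact Finset.prod_congr rfl fun c _ => (hf _).symm
  have e2 : ∑ g' ∈ Pat k L R T, ∫ w, (A g w) ^ (gam / 2) * (A g' w) ^ (gam / 2) ∂P =
      ∑ g' ∈ Pat k L R T, W g g' := by
    refine Finset.sum_congr rfl fun g' hg' => ?_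
    rw [hA1 g hg, hA1 g' hg', (hmom g hg g' hg').2, hW]
    congr 1
    exact Finset.prod_congr rfl fun c _ => (hp _ _).symm
  rw [e1, e2]
  have hS0 : 0 < ∑ g' ∈ Pat k L R T, W g g' := Finset.sum_pos (fun g' hg' => hW0 g hg g' hg') hne
  have e3 := quot_le (hV0 g hg) hS0 (pow_pos hD00 k) (hSle g hg)
  refine le_trans ?_ e3
  have e4 : Real.exp (-16) ^ k * (1 / 2) ≤ Phi g := by
    have e5 := hV1 g hg
    rw [← hPhi] at e5
    refine le_trans ?_ e5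
    refine mul_le_mul ?_ hf3T (by norm_num) (pow_nonneg (mul_pos (hfpos 1) (hfpos 2)).le _)
    have e6 : Real.exp (-16) ≤ f 1 * f 2 := by
      calc Real.exp (-16) = Real.exp (-8) * Real.exp (-8) := by
            rw [← Real.exp_add]
            norm_num
        _ ≤ f 1 * f 2 := mul_le_mul hf1 hf2 (Real.exp_pos _).le (hfpos 1).le
    have e7 : Real.exp (-16) ≤ 1 := Real.exp_le_one_iff.2 (by norm_num)
    calc Real.exp (-16) ^ k ≤ Real.exp (-16) ^ ((k + 1) / 2) :=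
          pow_le_pow_of_le_one (Real.exp_pos _).le e7 (by omega)
      _ ≤ (f 1 * f 2) ^ ((k + 1) / 2) := pow_le_pow_left₀ (Real.exp_pos _).le e6 _
  have e8 := const_le hk1 hcg hD0 g (hge g hg) e4
  rw [hV]
  exact e8

end Pool.Agent.N940.CO.I
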