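import Pool.Agent.N940.CO.Stm

/-!
Project CO: blocks of an i.i.d. sequence are i.i.d.
-/

set_option autoImplicit false

open MeasureTheory ProbabilityTheory Filter Topology

namespace Pool.Agent.N940.CO.Iidb

/-- extension of a finite vector by zero -/
noncomputable def ext0 (len : ℕ) (z : Fin len → ℝ) (i : ℕ) : ℝ :=
  if h : 1 ≤ i ∧ i ≤ len then z ⟨i - 1, by omega⟩ else 0

lemma ext0_meas (len : ℕ) : Measurable (ext0 len) := by
  rw [measurable_pi_iff]
  intro i
  unfold ext0
  by_cases h : 1 ≤ i ∧ i ≤ len
  · simp only [h, and_self, dite_true]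
    exact measurable_pi_apply _
  · simp only [h, dite_false]
    exact measurable_const

lemma blocks {Om : Type} [MeasurableSpace Om] (P : Measure Om) (nu : Measure ℝ)
    (om : ℕ → Om → ℝ) (h : IID P nu om) (len : ℕ) :
    iIndepFun (fun (b : ℕ) (w : Om) => fun j : Fin len => om (b * len + j + 1) w) P ∧
    ∀ b : ℕ, P.map (fun (w : Om) => fun j : Fin len => om (b * len + j + 1) w) =
      Measure.infinitePi (fun _ : Fin len => nu) := by
  have := h.prob
  have hnu : IsProbabilityMeasure nu := by
    rw [← h.law 0]
    exact Measure.isProbabilityMeasure_map (h.meas 0).aemeasurable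
  let em : ℕ × Fin len → ℕ := fun p => p.1 * len + p.2 + 1
  have hinj : Function.Injective em := by
    rintro ⟨b, j⟩ ⟨b', j'⟩ hh
    have h0 : b * len + j + 1 = b' * len + j' + 1 := hh
    have h1 : b * len + j = b' * len + j' := by omega
    have hlen : 0 < len := by have := j.2; omega
    have h2 : (b * len + j) / len = b := by
      rw [Nat.add_comm, Nat.add_mul_div_right _ _ hlen, Nat.div_eq_of_lt j.2, Nat.zero_add]
    have h3 : (b' * len + j') / len = b' := by
      rw [Nat.add_comm, Nat.add_mul_div_right _ _ hlen, Nat.div_eq_of_lt j'.2, Nat.zero_add]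
    have h4 : b = b' := by rw [← h2, h1, h3]
    subst h4
    have h5 : (j : ℕ) = j' := by omega
    rw [Fin.ext h5]
  have h1 : iIndepFun (fun p : ℕ × Fin len => om (em p)) P := h.indep.precomp hinj
  have h2 : P.map (fun w => fun p : ℕ × Fin len => om (em p) w) =
      Measure.infinitePi (fun _ : ℕ × Fin len => nu) := by
    rw [h1.map_fun_eq_infinitePi_map (fun p => h.meas (em p))]
    congr 1
    funext p
    exact h.law (em p)
  have hmeas : Measurable (fun w => fun p : ℕ × Fin len => om (em p) w) :=
    measurable_pi_iff.mpr fun p => h.meas (em p)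
  have h3 : P.map (fun (w : Om) => fun (b : ℕ) => fun j : Fin len => om (b * len + j + 1) w) =
      Measure.infinitePi (fun _ : ℕ => Measure.infinitePi (fun _ : Fin len => nu)) := by
    have e1 := Measure.infinitePi_map_curry (fun (_ : ℕ) (_ : Fin len) => nu)
    rw [← e1, ← h2, Measure.map_map (MeasurableEquiv.measurable _) hmeas]
    rfl
  have hVm : ∀ b : ℕ, Measurable (fun (w : Om) => fun j : Fin len => om (b * len + j + 1) w) :=
    fun b => measurable_pi_iff.mpr fun j => h.meas _
  have h4 : ∀ b : ℕ, P.map (fun (w : Om) => fun j : Fin len => om (b * len + j + 1) w) =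
      Measure.infinitePi (fun _ : Fin len => nu) := by
    intro b
    have e2 := Measure.infinitePi_map_eval
      (fun _ : ℕ => Measure.infinitePi (fun _ : Fin len => nu)) b
    rw [← e2, ← h3, Measure.map_map (measurable_pi_apply b) (measurable_pi_iff.mpr hVm)]
    rfl
  refine ⟨?_, h4⟩
  rw [iIndepFun_iff_map_fun_eq_infinitePi_map hVm, h3]
  congr 1
  funext b
  exact (h4 b).symm

theorem main : S_IIDB := by
  intro Om _ P nu om h len F hF hloc
  have key : ∀ (b : ℕ) (w : Om), F (fun i => om (b * len + i) w) =
      (F ∘ ext0 len) (fun j : Fin len => om (b * len + j + 1) w) := by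
    intro b w
    refine hloc _ _ fun i hi1 hi2 => ?_
    show om (b * len + i) w = ext0 len (fun j : Fin len => om (b * len + j + 1) w) i
    unfold ext0
    rw [dif_pos ⟨hi1, hi2⟩]
    show om (b * len + i) w = om (b * len + (i - 1) + 1) w
    have : b * len + (i - 1) + 1 = b * len + i := by omega
    rw [this]
  obtain ⟨h1, h2⟩ := blocks P nu om h len
  have hFm : Measurable (F ∘ ext0 len) := hF.comp (ext0_meas len)
  have hlaw : ∀ b : ℕ, P.map (fun w => F (fun i => om (b * len + i) w)) =
      (Measure.infinitePi (fun _ : Fin len => nu)).map (F ∘ ext0 len) := by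
    intro b
    have e1 : (fun w => F (fun i => om (b * len + i) w)) =
        (F ∘ ext0 len) ∘ (fun (w : Om) => fun j : Fin len => om (b * len + j + 1) w) := by
      funext w
      exact key b w
    rw [e1, ← Measure.map_map hFm (measurable_pi_iff.mpr fun j => h.meas _), h2 b]
  constructor
  · have e1 : (fun (b : ℕ) (w : Om) => F (fun i => om (b * len + i) w)) =
        fun b : ℕ => (F ∘ ext0 len) ∘
          ((fun (b : ℕ) (w : Om) => fun j : Fin len => om (b * len + j + 1) w) b) := by
      funext b w
      exact key b w
    rw [e1]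
    exact h1.comp (fun _ => F ∘ ext0 len) (fun _ => hFm)
  · intro b
    rw [hlaw b]
    have e2 := hlaw 0
    have e3 : (fun w => F (fun i => om (0 * len + i) w)) = fun w => F (fun i => om i w) := by
      funext w
      congr 1
      funext i
      rw [Nat.zero_mul, Nat.zero_add]
    rw [e3] at e2
    exact e2.symm

end Pool.Agent.N940.CO.Iidb
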