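import Pool.Agent.N940.CO.Stm

/-!
Project CO, piece KL (helper644): lower bounds for the return law and its tail.
-/

set_option autoImplicit false

open Filter Topology

namespace Pool.Agent.N940.CO.Kl

lemma klow {al : ℝ} {K : ℕ → ℝ} (h : Ren al K) :
    ∃ kap : ℝ, 0 < kap ∧ ∃ N0 : ℕ, KLow al K kap N0 := by
  obtain ⟨cK, hc, ht⟩ := h.tail
  have h1 : ∀ᶠ n : ℕ in atTop, cK / 2 ≤ K n * (n : ℝ) ^ (1 + al) :=
    ht.eventually_const_le (by linarith)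
  obtain ⟨N0, hN0⟩ := eventually_atTop.1 h1
  refine ⟨cK / 2, by linarith, N0, fun n hn hn1 => ?_⟩
  have h2 := hN0 n hn
  have hn0 : (0 : ℝ) < n := by exact_mod_cast hn1
  have hp : (0 : ℝ) < (n : ℝ) ^ (1 + al) := Real.rpow_pos_of_pos hn0 _
  rw [Real.rpow_neg hn0.le, ← div_eq_mul_inv, div_le_iff₀ hp]
  exact h2

lemma kbar_ge {al : ℝ} {K : ℕ → ℝ} (h : Ren al K) {N M : ℕ} (hNM : N ≤ M) : K (M + 1) ≤ Kbar K N := by
  unfold Kbar
  have h1 : ∑ i ∈ Finset.range (M + 2), K i ≤ 1 := sum_le_hasSum _ (fun i _ => h.nonneg i) h.sum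
  have h2 : ∑ i ∈ Finset.range (N + 1), K i ≤ ∑ i ∈ Finset.range (M + 1), K i :=
    Finset.sum_le_sum_of_subset_of_nonneg (Finset.range_mono (by omega)) fun i _ _ => h.nonneg i
  rw [Finset.sum_range_succ] at h1
  linarith

theorem main : S_KL := by
  intro al K h
  obtain ⟨kap, hk, N0, hN0⟩ := klow h
  refine ⟨⟨kap, hk, N0, hN0⟩, ?_⟩
  have ha : 0 ≤ 1 + al := by
    have := h.al0
    linarith
  have hc1 : 0 < kap * ((N0 : ℝ) + 1) ^ (-(1 + al)) := by positivity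
  refine ⟨min kap (kap * ((N0 : ℝ) + 1) ^ (-(1 + al))), lt_min hk hc1, fun N => ?_⟩
  have hN1 : (1 : ℝ) ≤ (N : ℝ) + 1 := by
    have : (0 : ℝ) ≤ N := Nat.cast_nonneg N
    linarith
  have hx0 : 0 ≤ ((N : ℝ) + 1) ^ (-(1 + al)) := Real.rpow_nonneg (by linarith) _
  have hx1 : ((N : ℝ) + 1) ^ (-(1 + al)) ≤ 1 := Real.rpow_le_one_of_one_le_of_nonpos hN1 (by linarith)
  rcases Nat.lt_or_ge N N0 with hlt | hge
  · have h3 := hN0 (N0 + 1) (by omega) (by omega)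
    push_cast at h3
    calc min kap (kap * ((N0 : ℝ) + 1) ^ (-(1 + al))) * ((N : ℝ) + 1) ^ (-(1 + al)) ≤
          (kap * ((N0 : ℝ) + 1) ^ (-(1 + al))) * 1 :=
          mul_le_mul (min_le_right _ _) hx1 hx0 hc1.le
      _ = kap * ((N0 : ℝ) + 1) ^ (-(1 + al)) := mul_one _
      _ ≤ K (N0 + 1) := h3
      _ ≤ Kbar K N := kbar_ge h hlt.le
  · have h3 := hN0 (N + 1) (by omega) (by omega)
    push_cast at h3
    calc min kap (kap * ((N0 : ℝ) + 1) ^ (-(1 + al))) * ((N : ℝ) + 1) ^ (-(1 + al)) ≤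
          kap * ((N : ℝ) + 1) ^ (-(1 + al)) := mul_le_mul_of_nonneg_right (min_le_left _ _) hx0
      _ ≤ K (N + 1) := h3
      _ ≤ Kbar K N := kbar_ge h le_rfl

end Pool.Agent.N940.CO.Kl

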