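import Pool.Agent.N940.CO.Stm

/-!
Project CO, piece LOC: from an exponential moment larger than one to good stretches (helper8).
-/

set_option autoImplicit false

open MeasureTheory ProbabilityTheory Filter Topology

namespace Pool.Agent.N940.CO.Loc

/-- the growth argument -/
theorem growth (K : ℝ) : ∃ n : ℕ, 1 ≤ n ∧ K * (n : ℝ) ^ 2 < (3 / 2 : ℝ) ^ n := by
  have h := (tendsto_pow_const_div_const_pow_of_one_lt 2 (by norm_num : (1 : ℝ) < 3 / 2)).const_mul K
  rw [mul_zero] at h
  have h2 := (h.eventually (gt_mem_nhds zero_lt_one)).and (eventually_ge_atTop 1)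
  obtain ⟨n, hn, hn1⟩ := h2.exists
  refine ⟨n, hn1, ?_⟩
  have h3 : (0 : ℝ) < (3 / 2 : ℝ) ^ n := by positivity
  rw [← mul_div_assoc, div_lt_one h3] at hn
  exact hn

/-- the pointwise bound -/
theorem ptw {gam s : ℝ} (hg : 0 < gam) (M : ℕ) (hs : s ≤ M) :
    Real.exp (gam * s) ≤ 1 + ∑ l ∈ Finset.range (M + 1),
      Real.exp (gam * (l + 1)) * (Set.Ici (l : ℝ)).indicator (fun _ => (1 : ℝ)) s := by
  have hnn : ∀ l ∈ Finset.range (M + 1), 0 ≤ Real.exp (gam * (l + 1)) *
      (Set.Ici (l : ℝ)).indicator (fun _ => (1 : ℝ)) s := fun l _ =>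
    mul_nonneg (Real.exp_pos _).le (Set.indicator_nonneg (fun _ _ => zero_le_one) _)
  rcases lt_or_ge s 0 with h | h
  · have h1 : Real.exp (gam * s) ≤ 1 := Real.exp_le_one_iff.2 (by nlinarith)
    have h2 := Finset.sum_nonneg hnn
    linarith
  · have h1 : (⌊s⌋₊ : ℝ) ≤ s := Nat.floor_le h
    have h2 : s < ⌊s⌋₊ + 1 := Nat.lt_floor_add_one s
    have h3 : ⌊s⌋₊ ≤ M := by
      have : (⌊s⌋₊ : ℝ) ≤ M := h1.trans hs
      exact_mod_cast this
    have h4 := Finset.single_le_sum hnn (Finset.mem_range.2 (Nat.lt_succ_of_le h3))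
    rw [Set.indicator_of_mem (show s ∈ Set.Ici ((⌊s⌋₊ : ℕ) : ℝ) from h1), mul_one] at h4
    have h5 : Real.exp (gam * s) ≤ Real.exp (gam * ((⌊s⌋₊ : ℝ) + 1)) :=
      Real.exp_le_exp.2 (mul_le_mul_of_nonneg_left h2.le hg.le)
    linarith

variable {Om : Type} [MeasurableSpace Om] {P : Measure Om}

/-- the truncation -/
theorem trunc [IsProbabilityMeasure P] {X : Om → ℝ} {gam : ℝ} (hg : 0 < gam) (hX : Measurable X)
    (hi : Integrable (fun w => Real.exp (gam * X w)) P)
    (h2 : 2 ≤ ∫ w, Real.exp (gam * X w) ∂P) :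
    ∃ A : ℕ, 3 / 2 ≤ ∫ w, Real.exp (gam * min (X w) A) ∂P := by
  have h1 : Tendsto (fun A : ℕ => ∫ w, Real.exp (gam * min (X w) A) ∂P) atTop
      (𝓝 (∫ w, Real.exp (gam * X w) ∂P)) := by
    refine tendsto_integral_of_dominated_convergence (fun w => Real.exp (gam * X w))
      (fun A => ?_) hi (fun A => ?_) ?_
    · exact (Real.measurable_exp.comp ((hX.min measurable_const).const_mul gam)).aestronglyMeasurable
    · refine ae_of_all _ fun w => ?_
      rw [Real.norm_of_nonneg (Real.exp_pos _).le]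
      exact Real.exp_le_exp.2 (mul_le_mul_of_nonneg_left (min_le_left _ _) hg.le)
    · refine ae_of_all _ fun w => ?_
      obtain ⟨A0, hA0⟩ := exists_nat_ge (X w)
      refine tendsto_const_nhds.congr' ?_
      filter_upwards [eventually_ge_atTop A0] with A hA
      have : X w ≤ A := hA0.trans (by exact_mod_cast hA)
      rw [min_eq_left this]
  have h3 : ∀ᶠ A : ℕ in atTop, 3 / 2 < ∫ w, Real.exp (gam * min (X w) A) ∂P :=
    h1.eventually (lt_mem_nhds (by linarith))
  obtain ⟨A, hA⟩ := h3.exists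
  exact ⟨A, hA.le⟩

/-- blocks have the same law -/
theorem block [IsProbabilityMeasure P] {X : ℕ → Om → ℝ} (hX : ∀ b, Measurable (X b))
    (hind : iIndepFun X P) (hid : ∀ b, P.map (X b) = P.map (X 0)) (n : ℕ) (ze : ℝ) (i : ℕ) :
    P {w | ze ≤ ∑ b ∈ Finset.range n, X (i * n + b) w} =
      (Measure.pi fun _ : Fin n => P.map (X 0)) {x | ze ≤ ∑ b, x b} := by
  have hinj : Function.Injective (fun b : Fin n => i * n + (b : ℕ)) := by
    intro b b' h
    have h' : i * n + (b : ℕ) = i * n + (b' : ℕ) := h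
    exact Fin.ext (by omega)
  have h1 := hind.precomp hinj
  have h2 := (iIndepFun_iff_map_fun_eq_pi_map (fun b : Fin n =>
    (hX (i * n + (b : ℕ))).aemeasurable)).1 h1
  have h3 : (fun b : Fin n => P.map (X (i * n + (b : ℕ)))) = fun _ : Fin n => P.map (X 0) :=
    funext fun b => hid _
  rw [h3] at h2
  have hm : Measurable (fun w : Om => fun b : Fin n => X (i * n + (b : ℕ)) w) :=
    measurable_pi_lambda _ fun b => hX _
  have hms : MeasurableSet {x : Fin n → ℝ | ze ≤ ∑ b, x b} :=
    measurableSet_le measurable_const (Finset.measurable_sum _ fun b _ => measurable_pi_apply b)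
  rw [← h2, Measure.map_apply hm hms]
  congr 1
  ext w
  simp only [Set.mem_ofPred_eq, Set.mem_preimage]
  rw [Finset.sum_range]

theorem main : S_LOC := by
  intro Om _ P hP X gam C hg hC hX hind hid hi h2
  obtain ⟨A, hA⟩ := trunc hg (hX 0) hi h2
  obtain ⟨Y, hY⟩ : ∃ Y : ℕ → Om → ℝ, Y = fun b w => min (X b w) A := ⟨_, rfl⟩
  have hYm : ∀ b, Measurable (Y b) := fun b => by
    rw [hY]
    exact (hX b).min measurable_const
  have hYi : iIndepFun Y P := by
    rw [hY]
    exact hind.comp (fun _ x => min x (A : ℝ)) fun _ => measurable_id.min measurable_const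
  have hYle : ∀ b w, Y b w ≤ A := fun b w => by rw [hY]; exact min_le_right _ _
  have hYX : ∀ b w, Y b w ≤ X b w := fun b w => by rw [hY]; exact min_le_left _ _
  have hmgf : ∀ b, mgf (Y b) P gam = mgf (Y 0) P gam := by
    intro b
    have e : ∀ b, mgf (Y b) P gam = ∫ x, Real.exp (gam * min x (A : ℝ)) ∂(P.map (X b)) := by
      intro b
      rw [integral_map (hX b).aemeasurable]
      · rw [hY]
        rfl
      · exact (Real.measurable_exp.comp
          ((measurable_id.min measurable_const).const_mul gam)).aestronglyMeasurable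
    rw [e, e, hid]
  have hmgf0 : 3 / 2 ≤ mgf (Y 0) P gam := by
    rw [hY]
    exact hA
  have hprod : ∀ n : ℕ, mgf (∑ b ∈ Finset.range n, Y b) P gam = mgf (Y 0) P gam ^ n := by
    intro n
    rw [hYi.mgf_sum hYm, Finset.prod_congr rfl fun b _ => hmgf b, Finset.prod_const,
      Finset.card_range]
  -- the contradiction hypothesis
  have key : ∃ n : ℕ, 1 ≤ n ∧ ∃ l : ℕ, C * n < Real.exp (gam * l) *
      (P {w | (l : ℝ) ≤ ∑ b ∈ Finset.range n, Y b w}).toReal := by
    by_contra hcon
    push Not at hcon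
    obtain ⟨n, hn1, hn⟩ := growth (1 + (A + 1) * Real.exp gam * C)
    have hn1' : (1 : ℝ) ≤ n := by exact_mod_cast hn1
    have hA0 : (0 : ℝ) ≤ A := Nat.cast_nonneg A
    have hms : ∀ l : ℕ, MeasurableSet {w | (l : ℝ) ≤ ∑ b ∈ Finset.range n, Y b w} := fun l =>
      measurableSet_le measurable_const (Finset.measurable_sum _ fun b _ => hYm b)
    have hpt : ∀ w, Real.exp (gam * (∑ b ∈ Finset.range n, Y b) w) ≤
        1 + ∑ l ∈ Finset.range (n * A + 1), Real.exp (gam * (l + 1)) *
          ({w | (l : ℝ) ≤ ∑ b ∈ Finset.range n, Y b w}).indicator (fun _ => (1 : ℝ)) w := by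
      intro w
      have h1 : (∑ b ∈ Finset.range n, Y b) w = ∑ b ∈ Finset.range n, Y b w :=
        Finset.sum_apply _ _ _
      rw [h1]
      have h3 : ∑ b ∈ Finset.range n, Y b w ≤ ((n * A : ℕ) : ℝ) := by
        refine (Finset.sum_le_sum fun b _ => hYle b w).trans ?_
        rw [Finset.sum_const, Finset.card_range, nsmul_eq_mul]
        push_cast
        exact le_rfl
      refine (ptw hg (n * A) h3).trans (le_of_eq ?_)
      congr 1
    have hint : Integrable (fun w => 1 + ∑ l ∈ Finset.range (n * A + 1),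
        Real.exp (gam * (l + 1)) * ({w | (l : ℝ) ≤ ∑ b ∈ Finset.range n, Y b w}).indicator
          (fun _ => (1 : ℝ)) w) P := by
      refine (integrable_const 1).add (integrable_finsetSum _ fun l _ => ?_)
      exact ((integrable_const (1 : ℝ)).indicator (hms l)).const_mul _
    have h5 : mgf (∑ b ∈ Finset.range n, Y b) P gam ≤ 1 + ∑ l ∈ Finset.range (n * A + 1),
        Real.exp (gam * (l + 1)) * (P {w | (l : ℝ) ≤ ∑ b ∈ Finset.range n, Y b w}).toReal := by
      have h6 : mgf (∑ b ∈ Finset.range n, Y b) P gam ≤ ∫ w, (1 + ∑ l ∈ Finset.range (n * A + 1),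
        Real.exp (gam * (l + 1)) * ({w | (l : ℝ) ≤ ∑ b ∈ Finset.range n, Y b w}).indicator
          (fun _ => (1 : ℝ)) w) ∂P :=
        integral_mono_of_nonneg (ae_of_all _ fun w => (Real.exp_pos _).le) hint
          (ae_of_all _ hpt)
      refine h6.trans (le_of_eq ?_)
      rw [integral_add (integrable_const 1) (integrable_finsetSum _ fun l _ =>
        ((integrable_const (1 : ℝ)).indicator (hms l)).const_mul _),
        integral_finsetSum _ fun l _ =>
        ((integrable_const (1 : ℝ)).indicator (hms l)).const_mul _]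
      congr 1
      · simp
      · refine Finset.sum_congr rfl fun l _ => ?_
        rw [integral_const_mul, integral_indicator (hms l)]
        simp [Measure.real]
    rw [hprod] at h5
    have h7 : (3 / 2 : ℝ) ^ n ≤ mgf (Y 0) P gam ^ n :=
      pow_le_pow_left₀ (by norm_num) hmgf0 n
    have h8 : ∑ l ∈ Finset.range (n * A + 1),
        Real.exp (gam * (l + 1)) * (P {w | (l : ℝ) ≤ ∑ b ∈ Finset.range n, Y b w}).toReal ≤
        ∑ _l ∈ Finset.range (n * A + 1), Real.exp gam * (C * n) := by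
      refine Finset.sum_le_sum fun l _ => ?_
      have h9 : Real.exp (gam * ((l : ℝ) + 1)) = Real.exp gam * Real.exp (gam * l) := by
        rw [← Real.exp_add]
        congr 1
        ring
      rw [h9, mul_assoc]
      exact mul_le_mul_of_nonneg_left (hcon n hn1 l) (Real.exp_pos _).le
    rw [Finset.sum_const, Finset.card_range, nsmul_eq_mul] at h8
    have h10 : ((n * A + 1 : ℕ) : ℝ) * (Real.exp gam * (C * n)) ≤
        (A + 1) * Real.exp gam * C * (n : ℝ) ^ 2 := by
      have h11 : ((n * A + 1 : ℕ) : ℝ) ≤ n * (A + 1) := by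
        push_cast
        nlinarith
      have h12 : 0 ≤ Real.exp gam * (C * n) := by positivity
      calc ((n * A + 1 : ℕ) : ℝ) * (Real.exp gam * (C * n)) ≤
            (n * (A + 1)) * (Real.exp gam * (C * n)) := mul_le_mul_of_nonneg_right h11 h12
        _ = _ := by ring
    have h13 : (1 : ℝ) ≤ (n : ℝ) ^ 2 := one_le_pow₀ hn1'
    have h14 : (1 + (A + 1) * Real.exp gam * C) * (n : ℝ) ^ 2 =
        (n : ℝ) ^ 2 + (A + 1) * Real.exp gam * C * (n : ℝ) ^ 2 := by ring
    rw [h14] at hn
    linarith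
  obtain ⟨n, hn1, l, hl⟩ := key
  have hn0 : (0 : ℝ) < n := by exact_mod_cast hn1
  obtain ⟨p, hp⟩ : ∃ p : ℝ, p =
      ((Measure.pi fun _ : Fin n => P.map (X 0)) {x | (l : ℝ) ≤ ∑ b, x b}).toReal := ⟨_, rfl⟩
  have hblock : ∀ i : ℕ, (P {w | (l : ℝ) ≤ ∑ b ∈ Finset.range n, X (i * n + b) w}).toReal = p :=
    fun i => by rw [block hX hind hid n l i, hp]
  have hp1 : (P {w | (l : ℝ) ≤ ∑ b ∈ Finset.range n, Y b w}).toReal ≤ p := by
    rw [← hblock 0]
    refine ENNReal.toReal_mono (measure_ne_top _ _) (measure_mono fun w hw => ?_)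
    simp only [Set.mem_ofPred_eq, zero_mul, zero_add] at hw ⊢
    exact hw.trans (Finset.sum_le_sum fun b _ => hYX b w)
  have hlt : C * n < Real.exp (gam * l) * p :=
    lt_of_lt_of_le hl (mul_le_mul_of_nonneg_left hp1 (Real.exp_pos _).le)
  have hp0 : 0 < p := by
    have h1 : 0 < Real.exp (gam * l) * p := lt_trans (by positivity) hlt
    exact (mul_pos_iff_of_pos_left (Real.exp_pos _)).1 h1
  refine ⟨n, l, p, hn1, hp0, ?_, hblock, hlt⟩
  rw [← hblock 0]
  exact ENNReal.toReal_le_of_le_ofReal zero_le_one (by rw [ENNReal.ofReal_one]; exact prob_le_one)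

end Pool.Agent.N940.CO.Loc
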