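import Pool.Agent.N940.CO.Stm

/-!
Project CO, part MOM: moments of the weights of the patterns.
-/

set_option autoImplicit false

open MeasureTheory ProbabilityTheory Filter Topology

namespace Pool.Agent.N940.CO.Mom

open Pool.Agent.N940.CO

noncomputable section

theorem expf : S_EXPF := by
  intro Om _ P nu om hI hD s t
  have hP : IsProbabilityMeasure P := hI.prob
  have hX : iIndepFun (fun n w => t n * om n w) P :=
    hI.indep.comp (fun n x => t n * x) (fun n => measurable_const.mul measurable_id)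
  have hm : ∀ n, Measurable (fun w => t n * om n w) := fun n => (hI.meas n).const_mul _
  have hint1 : ∀ n, Integrable (fun w => Real.exp (t n * om n w)) P := by
    intro n
    have h1 := hD.exp (t n)
    rw [← hI.law n] at h1
    have h2 := (integrable_map_measure (by fun_prop) (hI.meas n).aemeasurable).1 h1
    exact h2
  have hint : ∀ n ∈ s, Integrable (fun w => Real.exp (1 * (fun w => t n * om n w) w)) P := by
    intro n _
    simp only [one_mul]
    exact hint1 n
  have h1 := hX.integrable_exp_mul_sum hm (t := 1) (s := s) hint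
  have h2 := hX.mgf_sum (t := 1) hm s
  have e1 : ∀ w, (1 : ℝ) * (∑ n ∈ s, fun w => t n * om n w) w = ∑ n ∈ s, t n * om n w := by
    intro w
    rw [one_mul, Finset.sum_apply]
  refine ⟨?_, ?_⟩
  · simp only [e1] at h1
    exact h1
  · have e2 : mgf (∑ n ∈ s, fun w => t n * om n w) P 1 =
        ∫ w, Real.exp (∑ n ∈ s, t n * om n w) ∂P := by
      unfold mgf
      simp only [e1]
    rw [← e2, h2]
    refine Finset.prod_congr rfl fun n _ => ?_
    unfold mgf
    simp only [one_mul, id]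
    rw [← hI.law n, integral_map (hI.meas n).aemeasurable (by fun_prop)]

/-- the general formula -/
theorem gen (h : S_EXPF) {Om : Type} [MeasurableSpace Om] {P : Measure Om} {nu : Measure ℝ}
    {om : ℕ → Om → ℝ} (hI : IID P nu om) (hD : Dis nu) (m T a : ℕ) (hh : ℝ) (q : ℕ → ℕ → ℝ) :
    Integrable (fun w => Real.exp (∑ c ∈ Finset.range (T + 1), ∑ i ∈ Finset.Icc 1 m,
      q c i * (om ((a + c) * m + i) w + hh))) P ∧
    ∫ w, Real.exp (∑ c ∈ Finset.range (T + 1), ∑ i ∈ Finset.Icc 1 m,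
      q c i * (om ((a + c) * m + i) w + hh)) ∂P =
      ∏ c ∈ Finset.range (T + 1), ∏ i ∈ Finset.Icc 1 m,
        (mgf id nu (q c i) * Real.exp (q c i * hh)) := by
  classical
  obtain ⟨X, hX⟩ : ∃ X : Finset (ℕ × ℕ), X = Finset.range (T + 1) ×ˢ Finset.Icc 1 m := ⟨_, rfl⟩
  obtain ⟨φ, hφ⟩ : ∃ φ : ℕ × ℕ → ℕ, ∀ x, φ x = (a + x.1) * m + x.2 := ⟨_, fun _ => rfl⟩
  have hinj : Set.InjOn φ (X : Set (ℕ × ℕ)) := by
    rintro ⟨c, i⟩ hx ⟨c', i'⟩ hy hxy
    rw [Finset.mem_coe, hX, Finset.mem_product, Finset.mem_Icc] at hx hy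
    rw [hφ, hφ] at hxy
    obtain ⟨-, hi1, hi2⟩ := hx
    obtain ⟨-, hj1, hj2⟩ := hy
    simp only at hi1 hi2 hj1 hj2 hxy
    have hcc : c = c' := by
      rcases lt_trichotomy c c' with hlt | heq | hlt
      · exfalso
        have h1 : (a + c + 1) * m ≤ (a + c') * m := Nat.mul_le_mul_right m (by omega)
        rw [Nat.add_mul (a + c) 1 m, one_mul] at h1
        omega
      · exact heq
      · exfalso
        have h1 : (a + c' + 1) * m ≤ (a + c) * m := Nat.mul_le_mul_right m (by omega)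
        rw [Nat.add_mul (a + c') 1 m, one_mul] at h1
        omega
    subst hcc
    have : i = i' := by omega
    rw [this]
  obtain ⟨t, ht⟩ : ∃ t : ℕ → ℝ, ∀ x ∈ X, t (φ x) = q x.1 x.2 := by
    refine ⟨fun n => q (Function.invFunOn φ (X : Set (ℕ × ℕ)) n).1
      (Function.invFunOn φ (X : Set (ℕ × ℕ)) n).2, fun x hx => ?_⟩
    have := hinj.leftInvOn_invFunOn (Finset.mem_coe.2 hx)
    simp only [this]
  obtain ⟨h1, h2⟩ := h Om P nu om hI hD (X.image φ) t
  have e1 : ∀ w, ∑ n ∈ X.image φ, t n * om n w = ∑ x ∈ X, q x.1 x.2 * om (φ x) w := by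
    intro w
    rw [Finset.sum_image hinj]
    exact Finset.sum_congr rfl fun x hx => by rw [ht x hx]
  have e2 : ∏ n ∈ X.image φ, mgf id nu (t n) = ∏ x ∈ X, mgf id nu (q x.1 x.2) := by
    rw [Finset.prod_image hinj]
    exact Finset.prod_congr rfl fun x hx => by rw [ht x hx]
  simp only [e1] at h1 h2
  rw [e2] at h2
  have e3 : ∀ w, Real.exp (∑ c ∈ Finset.range (T + 1), ∑ i ∈ Finset.Icc 1 m,
      q c i * (om ((a + c) * m + i) w + hh)) =
      Real.exp (∑ x ∈ X, q x.1 x.2 * om (φ x) w) * Real.exp (∑ x ∈ X, q x.1 x.2 * hh) := by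
    intro w
    rw [← Real.exp_add, ← Finset.sum_add_distrib, hX, Finset.sum_product]
    congr 1
    refine Finset.sum_congr rfl fun c _ => Finset.sum_congr rfl fun i _ => ?_
    rw [hφ]
    ring
  simp only [e3]
  refine ⟨h1.mul_const _, ?_⟩
  rw [integral_mul_const, h2, Real.exp_sum, ← Finset.prod_mul_distrib, hX, Finset.prod_product]

/-- the exponent of a pattern -/
theorem Rg_eq (K : ℕ → ℝ) (m : ℕ) {k : ℕ} (g : Fin k → ℕ) (a T : ℕ) (hT : ∑ i, g i = T)
    (lam h r : ℝ) (x : ℕ → ℝ) : r * Rg K m g a (ee lam h x) =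
    ∑ c ∈ Finset.range (T + 1), ∑ i ∈ Finset.Icc 1 m,
      (-2 * lam * r * th K m (ty g c) i) * (x ((a + c) * m + i) + h) := by
  unfold Rg Fc ee
  rw [hT, Finset.mul_sum]
  refine Finset.sum_congr rfl fun c _ => ?_
  rw [Finset.mul_sum]
  refine Finset.sum_congr rfl fun i _ => ?_
  ring

theorem main (h : S_EXPF) : S_MOM := by
  intro Om _ P nu om hI hD al c2 gam lam hh K m k T a g g' hc2 hg hg' hg1 hg1'
  have hC : ∀ f : Fin k → ℕ, (∀ l, 1 ≤ f l) → 0 < ∏ l, (c2 * (f l : ℝ) ^ (-(1 + al))) := by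
    intro f hf
    refine Finset.prod_pos fun l _ => ?_
    have : (0 : ℝ) < (f l : ℝ) := by exact_mod_cast hf l
    positivity
  have hA : ∀ (f : Fin k → ℕ), (∀ l, 1 ≤ f l) → ∀ (r : ℝ) (e : ℕ → ℝ),
      (Ag al c2 K m f a e) ^ r = (∏ l, (c2 * (f l : ℝ) ^ (-(1 + al)))) ^ r *
        Real.exp (r * Rg K m f a e) := by
    intro f hf r e
    unfold Ag
    rw [Real.mul_rpow (hC f hf).le (Real.exp_pos _).le, ← Real.exp_mul, mul_comm r]
  refine ⟨?_, ?_⟩
  · obtain ⟨h1, h2⟩ := gen h hI hD m T a hh (fun c i => -2 * lam * gam * th K m (ty g c) i)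
    have e1 : ∀ w, (Ag al c2 K m g a (ee lam hh (fun n => om n w))) ^ gam =
        (∏ l, (c2 * (g l : ℝ) ^ (-(1 + al)))) ^ gam *
          Real.exp (∑ c ∈ Finset.range (T + 1), ∑ i ∈ Finset.Icc 1 m,
            (-2 * lam * gam * th K m (ty g c) i) * (om ((a + c) * m + i) w + hh)) := by
      intro w
      rw [hA g hg1, Rg_eq K m g a T hg]
    simp only [e1]
    refine ⟨h1.const_mul _, ?_⟩
    rw [integral_const_mul, h2]
    congr 1
    refine Finset.prod_congr rfl fun c _ => ?_
    unfold ph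
    refine Finset.prod_congr rfl fun i _ => ?_
    congr 2
    ring
  · obtain ⟨h1, h2⟩ := gen h hI hD m T a hh
      (fun c i => -lam * gam * (th K m (ty g c) i + th K m (ty g' c) i))
    have e1 : ∀ w, (Ag al c2 K m g a (ee lam hh (fun n => om n w))) ^ (gam / 2)
        * (Ag al c2 K m g' a (ee lam hh (fun n => om n w))) ^ (gam / 2) =
        ((∏ l, (c2 * (g l : ℝ) ^ (-(1 + al)))) * (∏ l, (c2 * (g' l : ℝ) ^ (-(1 + al))))) ^ (gam / 2)
        * Real.exp (∑ c ∈ Finset.range (T + 1), ∑ i ∈ Finset.Icc 1 m,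
            (-lam * gam * (th K m (ty g c) i + th K m (ty g' c) i)) *
              (om ((a + c) * m + i) w + hh)) := by
      intro w
      rw [hA g hg1, hA g' hg1', Rg_eq K m g a T hg, Rg_eq K m g' a T hg',
        Real.mul_rpow (hC g hg1).le (hC g' hg1').le]
      have e2 : ∑ c ∈ Finset.range (T + 1), ∑ i ∈ Finset.Icc 1 m,
            (-lam * gam * (th K m (ty g c) i + th K m (ty g' c) i)) *
              (om ((a + c) * m + i) w + hh) =
          ∑ c ∈ Finset.range (T + 1), ∑ i ∈ Finset.Icc 1 m,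
            (-2 * lam * (gam / 2) * th K m (ty g c) i) * (om ((a + c) * m + i) w + hh) +
          ∑ c ∈ Finset.range (T + 1), ∑ i ∈ Finset.Icc 1 m,
            (-2 * lam * (gam / 2) * th K m (ty g' c) i) * (om ((a + c) * m + i) w + hh) := by
        rw [← Finset.sum_add_distrib]
        refine Finset.sum_congr rfl fun c _ => ?_
        rw [← Finset.sum_add_distrib]
        refine Finset.sum_congr rfl fun i _ => ?_
        ring
      rw [e2, Real.exp_add]
      ring
    simp only [e1]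
    rw [integral_const_mul, h2]
    congr 1
    refine Finset.prod_congr rfl fun c _ => ?_
    unfold ps
    refine Finset.prod_congr rfl fun i _ => ?_
    congr 2
    ring

end

end Pool.Agent.N940.CO.Mom
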