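import Pool.Agent.N940.CO.Stm

/-!
Project CO: measurability of the best pattern weight (S_MS), integrability of the logarithm of the
partition function (S_INT). Written by helper31 for helper940.
-/

open MeasureTheory ProbabilityTheory Filter Topology

namespace Pool.Agent.N940.CO.Ms

noncomputable section

lemma meas_Fc (K : ℕ → ℝ) (m j t : ℕ) (lam h : ℝ) :
    Measurable (fun x : ℕ → ℝ => Fc K m (ee lam h x) j t) := by
  unfold Fc ee
  refine Finset.measurable_sum _ fun i _ => ?_
  have : Measurable (fun x : ℕ → ℝ => x (j * m + i)) := measurable_pi_apply _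
  fun_prop

lemma meas_Ag (al c2 lam h : ℝ) (K : ℕ → ℝ) (m : ℕ) {k : ℕ} (g : Fin k → ℕ) (a : ℕ) :
    Measurable (fun x : ℕ → ℝ => Ag al c2 K m g a (ee lam h x)) := by
  unfold Ag Rg
  refine Measurable.const_mul (Real.measurable_exp.comp ?_) _
  exact Finset.measurable_sum _ fun c _ => meas_Fc K m _ _ lam h

lemma Ag_congr (al c2 lam h : ℝ) (K : ℕ → ℝ) (m : ℕ) {k : ℕ} (g : Fin k → ℕ) (a a' : ℕ)
    (x y : ℕ → ℝ)
    (hxy : ∀ c, c ≤ ∑ i, g i → ∀ i, 1 ≤ i → i ≤ m → x ((a + c) * m + i) = y ((a' + c) * m + i)) :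
    Ag al c2 K m g a (ee lam h x) = Ag al c2 K m g a' (ee lam h y) := by
  unfold Ag Rg Fc ee
  congr 2
  refine Finset.sum_congr rfl fun c hc => Finset.sum_congr rfl fun i hi => ?_
  have hc' := Finset.mem_range.1 hc
  have hi' := Finset.mem_Icc.1 hi
  rw [hxy c (by omega) i hi'.1 hi'.2]

lemma Ag_pos (al c2 lam h : ℝ) (K : ℕ → ℝ) (m : ℕ) {k : ℕ} (g : Fin k → ℕ) (a : ℕ) (x : ℕ → ℝ)
    (hc : 0 < c2) (hg : ∀ l, 1 ≤ g l) : 0 < Ag al c2 K m g a (ee lam h x) := by
  unfold Ag
  refine mul_pos (Finset.prod_pos fun l _ => ?_) (Real.exp_pos _)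
  have : (0 : ℝ) < g l := by exact_mod_cast hg l
  positivity

theorem main : S_MS := by
  intro al c2 lam h K m k L R T a
  refine ⟨?_, ?_, ?_, ?_⟩
  · unfold Mx
    by_cases hne : (Pat k L R T).Nonempty
    · simp only [dif_pos hne]
      have e : (fun x : ℕ → ℝ => (Pat k L R T).sup' hne (fun g => Ag al c2 K m g a (ee lam h x))) =
          (Pat k L R T).sup' hne (fun g => fun x : ℕ → ℝ => Ag al c2 K m g a (ee lam h x)) := by
        funext x
        rw [Finset.sup'_apply]
      rw [e]
      exact Finset.measurable_sup' hne fun g _ => meas_Ag al c2 lam h K m g a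
    · simp only [dif_neg hne]
      exact measurable_const
  · intro hc hL x
    unfold Mx
    split_ifs with hne
    · obtain ⟨g, hg⟩ := id hne
      refine lt_of_lt_of_le ?_ (Finset.le_sup' (fun g => Ag al c2 K m g a (ee lam h x)) hg)
      refine Ag_pos al c2 lam h K m g a x hc fun l => ?_
      have h1 := (Finset.mem_filter.1 hg).1
      rw [Fintype.mem_piFinset] at h1
      exact hL.trans (Finset.mem_Icc.1 (h1 l)).1
    · exact one_pos
  · intro x y hxy
    unfold Mx
    split_ifs with hne
    · refine Finset.sup'_congr hne rfl fun g hg => ?_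
      refine Ag_congr al c2 lam h K m g a a x y fun c hc i hi1 hi2 => ?_
      have hT : ∑ i, g i = T := (Finset.mem_filter.1 hg).2
      rw [hT] at hc
      refine hxy _ ?_ ?_
      · have : a * m ≤ (a + c) * m := Nat.mul_le_mul_right _ (by omega)
        omega
      · have h2 : (a + c) * m + i ≤ (a + c + 1) * m := by
          rw [Nat.add_mul (a + c) 1 m, Nat.one_mul]
          omega
        exact h2.trans (Nat.mul_le_mul_right _ (by omega))
    · rfl
  · intro x s
    unfold Mx
    split_ifs with hne
    · refine Finset.sup'_congr hne rfl fun g _ => ?_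
      refine Ag_congr al c2 lam h K m g (s + a) a x _ fun c _ i _ _ => ?_
      congr 1
      ring
    · rfl

/-! ### the logarithm of the partition function -/

lemma zc_succ (K e : ℕ → ℝ) (n : ℕ) :
    zc K e (n + 1) = ∑ i : Fin (n + 1), zc K e i * (K (n + 1 - i) * ew (En e i (n + 1))) := by
  rw [zc]

lemma u_succ (K : ℕ → ℝ) (n : ℕ) :
    u K (n + 1) = ∑ i : Fin (n + 1), u K i * K (n + 1 - i) := by
  rw [u]

lemma ew_half (s : ℝ) : 1 / 2 ≤ ew s := by
  unfold ew
  have := Real.exp_pos (-2 * s)
  linarith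

lemma ew_le (s : ℝ) : ew s ≤ Real.exp (2 * |s|) := by
  unfold ew
  have h1 : Real.exp (-2 * s) ≤ Real.exp (2 * |s|) := by
    apply Real.exp_le_exp.2
    have := neg_abs_le s
    linarith
  have h2 : (1 : ℝ) ≤ Real.exp (2 * |s|) := Real.one_le_exp (by positivity)
  linarith

/-- the sum of the absolute values over `(a, b]` -/
def As (e : ℕ → ℝ) (a b : ℕ) : ℝ := ∑ n ∈ Finset.Ioc a b, |e n|

lemma As_add (e : ℕ → ℝ) {a b : ℕ} (hab : a ≤ b) : As e 0 a + As e a b = As e 0 b := by
  unfold As
  rw [← Finset.sum_Ioc_consecutive _ (Nat.zero_le a) hab]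

lemma ewEn_le (e : ℕ → ℝ) (a b : ℕ) : ew (En e a b) ≤ Real.exp (2 * As e a b) := by
  refine (ew_le _).trans (Real.exp_le_exp.2 ?_)
  have : |En e a b| ≤ As e a b := Finset.abs_sum_le_sum_abs _ _
  linarith

section bounds

variable {K : ℕ → ℝ} (hK : ∀ n, 0 ≤ K n)
include hK

lemma zc_nonneg (e : ℕ → ℝ) (n : ℕ) : 0 ≤ zc K e n := by
  induction n using Nat.strong_induction_on with
  | _ n ih =>
    cases n with
    | zero => rw [zc]; norm_num
    | succ n =>
      rw [zc_succ]
      refine Finset.sum_nonneg fun i _ => mul_nonneg (ih i i.2) (mul_nonneg (hK _) ?_)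
      have := ew_half (En e i (n + 1))
      linarith

lemma zc_le (e : ℕ → ℝ) (n : ℕ) : zc K e n ≤ u K n * Real.exp (2 * As e 0 n) := by
  induction n using Nat.strong_induction_on with
  | _ n ih =>
    cases n with
    | zero =>
      rw [zc, u]
      have : (1 : ℝ) ≤ Real.exp (2 * As e 0 0) := Real.one_le_exp (by
        have : 0 ≤ As e 0 0 := Finset.sum_nonneg fun _ _ => abs_nonneg _
        positivity)
      linarith
    | succ n =>
      rw [zc_succ, u_succ, Finset.sum_mul]
      refine Finset.sum_le_sum fun i _ => ?_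
      have h1 := ih i i.2
      have h2 := ewEn_le e i (n + 1)
      have h3 : As e 0 i + As e i (n + 1) = As e 0 (n + 1) := As_add e (by have := i.2; omega)
      have h4 := hK (n + 1 - i)
      have h5 : 0 ≤ ew (En e i (n + 1)) := by have := ew_half (En e i (n + 1)); linarith
      calc zc K e i * (K (n + 1 - i) * ew (En e i (n + 1)))
          ≤ (u K i * Real.exp (2 * As e 0 i)) * (K (n + 1 - i) * Real.exp (2 * As e i (n + 1))) := by
            refine mul_le_mul h1 (mul_le_mul_of_nonneg_left h2 h4) (mul_nonneg h4 h5) ?_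
            exact (zc_nonneg hK e i).trans h1
        _ = u K i * K (n + 1 - i) * Real.exp (2 * As e 0 (n + 1)) := by
            rw [← h3, mul_add, Real.exp_add]; ring

variable (hs : HasSum K 1)
include hs

lemma Kbar_nonneg (n : ℕ) : 0 ≤ Kbar K n := by
  unfold Kbar
  have := sum_le_hasSum (Finset.range (n + 1)) (fun i _ => hK i) hs
  linarith

lemma zf_ge (e : ℕ → ℝ) (N : ℕ) : Kbar K N / 2 ≤ zf K e N := by
  unfold zf
  have h0 : zc K e 0 * (Kbar K (N - 0) * ew (En e 0 N)) ≤
      ∑ i ∈ Finset.range (N + 1), zc K e i * (Kbar K (N - i) * ew (En e i N)) := by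
    refine Finset.single_le_sum (f := fun i => zc K e i * (Kbar K (N - i) * ew (En e i N)))
      (fun i _ => ?_) (Finset.mem_range.2 (Nat.succ_pos N))
    refine mul_nonneg (zc_nonneg hK e i) (mul_nonneg (Kbar_nonneg hK hs _) ?_)
    have := ew_half (En e i N)
    linarith
  refine le_trans ?_ h0
  rw [zc, one_mul, Nat.sub_zero]
  have h1 := Kbar_nonneg hK hs N
  have h2 := ew_half (En e 0 N)
  calc Kbar K N / 2 = Kbar K N * (1 / 2) := by ring
    _ ≤ Kbar K N * ew (En e 0 N) := mul_le_mul_of_nonneg_left h2 h1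

lemma zf_le (e : ℕ → ℝ) (N : ℕ) : zf K e N ≤
    (∑ i ∈ Finset.range (N + 1), u K i * Kbar K (N - i)) * Real.exp (2 * As e 0 N) := by
  unfold zf
  rw [Finset.sum_mul]
  refine Finset.sum_le_sum fun i hi => ?_
  have hi' := Finset.mem_range.1 hi
  have h1 := zc_le hK e i
  have h2 := ewEn_le e i N
  have h3 : As e 0 i + As e i N = As e 0 N := As_add e (by omega)
  have h4 := Kbar_nonneg hK hs (N - i)
  have h5 : 0 ≤ ew (En e i N) := by have := ew_half (En e i N); linarith
  calc zc K e i * (Kbar K (N - i) * ew (En e i N))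
      ≤ (u K i * Real.exp (2 * As e 0 i)) * (Kbar K (N - i) * Real.exp (2 * As e i N)) := by
        refine mul_le_mul h1 (mul_le_mul_of_nonneg_left h2 h4) (mul_nonneg h4 h5) ?_
        exact (zc_nonneg hK e i).trans h1
    _ = u K i * Kbar K (N - i) * Real.exp (2 * As e 0 N) := by
        rw [← h3, mul_add, Real.exp_add]; ring

end bounds

lemma meas_En (lam h : ℝ) (a b : ℕ) : Measurable (fun x : ℕ → ℝ => En (ee lam h x) a b) := by
  unfold En ee
  refine Finset.measurable_sum _ fun n _ => ?_
  have : Measurable (fun x : ℕ → ℝ => x n) := measurable_pi_apply _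
  fun_prop

lemma meas_ew (lam h : ℝ) (a b : ℕ) : Measurable (fun x : ℕ → ℝ => ew (En (ee lam h x) a b)) := by
  unfold ew
  have := meas_En lam h a b
  fun_prop

lemma meas_zc (K : ℕ → ℝ) (lam h : ℝ) (n : ℕ) : Measurable (fun x : ℕ → ℝ => zc K (ee lam h x) n) := by
  induction n using Nat.strong_induction_on with
  | _ n ih =>
    cases n with
    | zero =>
      have : (fun x : ℕ → ℝ => zc K (ee lam h x) 0) = fun _ => 1 := by
        funext x; rw [zc]
      rw [this]; exact measurable_const
    | succ n =>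
      have : (fun x : ℕ → ℝ => zc K (ee lam h x) (n + 1)) = fun x =>
          ∑ i : Fin (n + 1), zc K (ee lam h x) i * (K (n + 1 - i) * ew (En (ee lam h x) i (n + 1))) := by
        funext x; rw [zc_succ]
      rw [this]
      refine Finset.measurable_sum _ fun i _ => ?_
      exact (ih i i.2).mul ((meas_ew lam h i (n + 1)).const_mul _)

lemma meas_zf (K : ℕ → ℝ) (lam h : ℝ) (N : ℕ) : Measurable (fun x : ℕ → ℝ => zf K (ee lam h x) N) := by
  unfold zf
  refine Finset.measurable_sum _ fun i _ => ?_
  exact (meas_zc K lam h i).mul ((meas_ew lam h i N).const_mul _)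

theorem integ (hKL : S_KL) : S_INT := by
  intro al K nu hR hD Om _ P om hI lam h N
  haveI := hI.prob
  haveI := hD.prob
  obtain ⟨c, hc, hcN⟩ := (hKL al K hR).2
  have hKb : 0 < Kbar K N := by
    refine lt_of_lt_of_le ?_ (hcN N)
    have : (0 : ℝ) < (N : ℝ) + 1 := by positivity
    positivity
  set C : ℝ := ∑ i ∈ Finset.range (N + 1), u K i * Kbar K (N - i) with hC
  -- pointwise bound
  have hpt : ∀ x : ℕ → ℝ, |Real.log (zf K (ee lam h x) N)| ≤
      |Real.log (Kbar K N / 2)| + |Real.log C| + 2 * As (ee lam h x) 0 N := by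
    intro x
    have h1 := zf_ge hR.nonneg hR.sum (ee lam h x) N
    have h2 := zf_le hR.nonneg hR.sum (ee lam h x) N
    have h3 : 0 < Kbar K N / 2 := by positivity
    have h4 : 0 < zf K (ee lam h x) N := lt_of_lt_of_le h3 h1
    have hA : 0 ≤ As (ee lam h x) 0 N := Finset.sum_nonneg fun _ _ => abs_nonneg _
    have hC0 : 0 < C := by
      by_contra hneg
      push Not at hneg
      have := mul_nonpos_of_nonpos_of_nonneg hneg (Real.exp_pos (2 * As (ee lam h x) 0 N)).le
      linarith
    have h5 : Real.log (Kbar K N / 2) ≤ Real.log (zf K (ee lam h x) N) := Real.log_le_log h3 h1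
    have h6 : Real.log (zf K (ee lam h x) N) ≤ Real.log C + 2 * As (ee lam h x) 0 N := by
      have := Real.log_le_log h4 h2
      rwa [Real.log_mul hC0.ne' (Real.exp_pos _).ne', Real.log_exp] at this
    rw [abs_le]
    have h7 := neg_abs_le (Real.log (Kbar K N / 2))
    have h8 := le_abs_self (Real.log C)
    have h9 := abs_nonneg (Real.log (Kbar K N / 2))
    have h10 := abs_nonneg (Real.log C)
    constructor <;> linarith
  -- integrability of one charge
  have hid : Integrable (fun x : ℝ => x) nu := by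
    have h1 := (hD.exp 1).add (hD.exp (-1))
    refine h1.mono' measurable_id.aestronglyMeasurable (Filter.Eventually.of_forall fun x => ?_)
    simp only [Real.norm_eq_abs, Pi.add_apply, one_mul]
    have h2 : |x| ≤ Real.exp |x| := by
      have := Real.add_one_le_exp |x|
      linarith
    refine h2.trans ?_
    rcases abs_cases x with ⟨h3, _⟩ | ⟨h3, _⟩
    · rw [h3]
      have := Real.exp_pos (-1 * x)
      linarith
    · rw [h3]
      have := Real.exp_pos x
      have e : -1 * x = -x := by ring
      rw [e]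
      linarith
  have hom : ∀ n, Integrable (om n) P := by
    intro n
    have h1 : Integrable (fun x : ℝ => x) (P.map (om n)) := by rw [hI.law n]; exact hid
    exact (integrable_map_measure measurable_id.aestronglyMeasurable (hI.meas n).aemeasurable).1 h1
  have hmeas : Measurable (fun w => (fun n => om n w : ℕ → ℝ)) :=
    measurable_pi_lambda _ fun n => hI.meas n
  have hint : Integrable (fun w => |Real.log (Kbar K N / 2)| + |Real.log C| +
      2 * As (ee lam h (fun n => om n w)) 0 N) P := by
    refine (integrable_const _).add (Integrable.const_mul ?_ 2)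
    unfold As ee
    refine integrable_finset_sum _ fun n _ => ?_
    exact (((hom n).add (integrable_const h)).const_mul lam).abs
  refine hint.mono' ?_ (Filter.Eventually.of_forall fun w => hpt _)
  exact (Real.measurable_log.comp ((meas_zf K lam h N).comp hmeas)).aestronglyMeasurable

end

end Pool.Agent.N940.CO.Ms
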