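import Pool.Agent.N940.CO.Stm

/-!
Project CO (helper940), piece NEAR, by helper841: patterns with small displacements.
-/

set_option autoImplicit false

namespace Pool.Agent.N940.CO.Near

open Finset

theorem Jp_mono {k : ℕ} (g : Fin k → ℕ) {i j : ℕ} (h : i ≤ j) : Jp g i ≤ Jp g j := by
  unfold Jp
  refine Finset.sum_le_sum fun l _ => ?_
  split_ifs <;> omega

theorem Jp_zero {k : ℕ} (g : Fin k → ℕ) : Jp g 0 = 0 := by
  unfold Jp
  refine Finset.sum_eq_zero fun l _ => ?_
  rw [if_neg (by omega)]

theorem Jp_top {k : ℕ} (g : Fin k → ℕ) : Jp g k = ∑ i, g i := by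
  unfold Jp
  refine Finset.sum_congr rfl fun l _ => ?_
  rw [if_pos l.2]

theorem Jp_succ {k : ℕ} (g : Fin k → ℕ) (l : Fin k) : Jp g (l + 1) = Jp g l + g l := by
  unfold Jp
  have h1 : g l = ∑ j : Fin k, if j = l then g j else 0 := by
    rw [Finset.sum_ite_eq' Finset.univ l g, if_pos (Finset.mem_univ l)]
  rw [h1, ← Finset.sum_add_distrib]
  refine Finset.sum_congr rfl fun j _ => ?_
  by_cases h2 : j = l
  · subst h2
    rw [if_pos (by omega), if_neg (by omega), if_pos rfl, zero_add]
  · have h3 : j.val ≠ l.val := fun h => h2 (Fin.ext h)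
    rw [if_neg h2, add_zero]
    by_cases h4 : j.val < l.val
    · rw [if_pos (by omega), if_pos h4]
    · rw [if_neg (by omega), if_neg h4]

/-- the type of a cell in an open gap -/
theorem ty_gap {k : ℕ} (g : Fin k → ℕ) {l c : ℕ} (hl : l < k) (h1 : Jp g l < c)
    (h2 : c < Jp g (l + 1)) : ty g c = if Even l then 3 else 0 := by
  have hne : ∀ l', c ≠ Jp g l' := by
    intro l' h
    rcases Nat.lt_or_ge l l' with h3 | h3
    · have := Jp_mono g (show l + 1 ≤ l' by omega)
      omega
    · have := Jp_mono g h3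
      omega
  unfold ty
  rw [if_neg (by rintro ⟨l', -, -, h⟩; exact hne l' h),
    if_neg (by rintro ⟨l', -, -, h⟩; exact hne l' h)]
  by_cases he : Even l
  · rw [if_pos ⟨l, hl, he, h1, h2⟩, if_pos he]
  · rw [if_neg he, if_neg]
    rintro ⟨l', h3, h4, h5, h6⟩
    rcases Nat.lt_trichotomy l l' with h7 | h7 | h7
    · have := Jp_mono g (show l + 1 ≤ l' by omega)
      omega
    · subst h7
      exact he h4
    · have := Jp_mono g (show l' + 1 ≤ l by omega)
      omega

theorem main : S_NEAR := by
  intro k L R T g g' hL hg hg' hd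
  have hgL : (∀ l, L ≤ g l) ∧ ∑ i, g i = T := by
    unfold Pat at hg
    rw [Finset.mem_filter, Fintype.mem_piFinset] at hg
    exact ⟨fun l => (Finset.mem_Icc.1 (hg.1 l)).1, hg.2⟩
  have hgL' : (∀ l, L ≤ g' l) ∧ ∑ i, g' i = T := by
    unfold Pat at hg'
    rw [Finset.mem_filter, Fintype.mem_piFinset] at hg'
    exact ⟨fun l => (Finset.mem_Icc.1 (hg'.1 l)).1, hg'.2⟩
  have hs : ∀ l, l < k → Jp g l + L ≤ Jp g (l + 1) := by
    intro l hl
    have h1 := Jp_succ g ⟨l, hl⟩
    have h2 := hgL.1 ⟨l, hl⟩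
    simp only at h1
    omega
  have hs' : ∀ l, l < k → Jp g' l + L ≤ Jp g' (l + 1) := by
    intro l hl
    have h1 := Jp_succ g' ⟨l, hl⟩
    have h2 := hgL'.1 ⟨l, hl⟩
    simp only at h1
    omega
  have hd' : ∀ i, i ≤ k → Jp g i ≤ Jp g' i + L / 2 ∧ Jp g' i ≤ Jp g i + L / 2 := by
    intro i hi
    have := hd i hi
    unfold dsp at this
    omega
  have hT : ∀ i, i ≤ k → Jp g i ≤ T := by
    intro i hi
    rw [← hgL.2, ← Jp_top]
    exact Jp_mono g hi
  have hT' : ∀ i, i ≤ k → Jp g' i ≤ T := by
    intro i hi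
    rw [← hgL'.2, ← Jp_top]
    exact Jp_mono g' hi
  let C : ℕ → Finset ℕ := fun i =>
    Finset.Ioo (min (Jp g i) (Jp g' i)) (max (Jp g i) (Jp g' i))
  have hcard : ∀ i, (C i).card = dsp g g' i - 1 := by
    intro i
    change (Finset.Ioo _ _).card = _
    rw [Nat.card_Ioo]
    unfold dsp
    omega
  have hdis : (↑(Finset.range k) : Set ℕ).PairwiseDisjoint C := by
    have key : ∀ i j, i < j → j < k → Disjoint (C i) (C j) := by
      intro i j hij hj
      rw [Finset.disjoint_left]
      intro c h1 h2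
      have h3 := Finset.mem_Ioo.1 h1
      have h4 := Finset.mem_Ioo.1 h2
      have h5 := hd' i (by omega)
      have h6 := hd' j (by omega)
      have h7 := hs i (by omega)
      have h8 := Jp_mono g (show i + 1 ≤ j by omega)
      omega
    intro i hi j hj hij
    have hi' := Finset.mem_range.1 (Finset.mem_coe.1 hi)
    have hj' := Finset.mem_range.1 (Finset.mem_coe.1 hj)
    rcases Nat.lt_or_gt_of_ne hij with h | h
    · exact key i j h hj'
    · exact (key j i h hi').symm
  rw [Finset.sum_congr rfl fun i _ => (hcard i).symm, ← Finset.card_biUnion hdis]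
  unfold Dd
  apply Finset.card_le_card
  intro c hc
  obtain ⟨i, hi, hci⟩ := Finset.mem_biUnion.1 hc
  have hik := Finset.mem_range.1 hi
  have h3 := Finset.mem_Ioo.1 hci
  have h5 := hd' i (by omega)
  have h6 := hT i (by omega)
  have h7 := hT' i (by omega)
  rw [Finset.mem_filter, Finset.mem_range, hgL.2]
  refine ⟨by omega, ?_⟩
  rcases Nat.eq_zero_or_pos i with h0 | h0
  · subst h0
    have h8 := Jp_zero g
    have h9 := Jp_zero g'
    omega
  obtain ⟨j, rfl⟩ : ∃ j, i = j + 1 := ⟨i - 1, by omega⟩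
  have h8 := hd' j (by omega)
  have h9 := hs j (by omega)
  have h10 := hs (j + 1) hik
  have h11 := hs' j (by omega)
  have h12 := hs' (j + 1) hik
  rcases Nat.lt_or_ge (Jp g (j + 1)) c with h13 | h13
  · -- `g` is in the gap `j + 1` and `g'` in the gap `j`
    have e1 := ty_gap g hik h13 (by omega)
    have e2 := ty_gap g' (l := j) (c := c) (by omega) (by omega) (by omega)
    rw [e1, e2]
    by_cases he : Even j
    · have he' : ¬ Even (j + 1) := by
        rw [Nat.even_add_one]
        exact fun h => h he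
      rw [if_pos he, if_neg he']
      exact Or.inl ⟨rfl, rfl⟩
    · have he' : Even (j + 1) := by
        rw [Nat.even_add_one]
        exact he
      rw [if_neg he, if_pos he']
      exact Or.inr ⟨rfl, rfl⟩
  · have h14 : Jp g' (j + 1) < c ∧ c < Jp g (j + 1) := by omega
    have e1 := ty_gap g' (l := j + 1) (c := c) hik h14.1 (by omega)
    have e2 := ty_gap g (l := j) (c := c) (by omega) (by omega) h14.2
    rw [e1, e2]
    by_cases he : Even j
    · have he' : ¬ Even (j + 1) := by
        rw [Nat.even_add_one]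
        exact fun h => h he
      rw [if_pos he, if_neg he']
      exact Or.inr ⟨rfl, rfl⟩
    · have he' : Even (j + 1) := by
        rw [Nat.even_add_one]
        exact he
      rw [if_neg he, if_pos he']
      exact Or.inl ⟨rfl, rfl⟩

end Pool.Agent.N940.CO.Near
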