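import Pool.Agent.N940.CO.Stm

/-!
Project CO: the sum over the patterns.
-/

open Finset

namespace Pool.Agent.N940.CO.Nsum

noncomputable section

open Pool.Agent.N940.CO

variable {k : ℕ}

theorem Jp_zero (g : Fin k → ℕ) : Jp g 0 = 0 := by
  unfold Jp
  exact Finset.sum_eq_zero fun l _ => if_neg (Nat.not_lt_zero _)

theorem Jp_last (g : Fin k → ℕ) : Jp g k = ∑ i, g i := by
  unfold Jp
  exact Finset.sum_congr rfl fun l _ => if_pos l.2

theorem Jp_succ (g : Fin k → ℕ) (l : Fin k) : Jp g (l.val + 1) = Jp g l.val + g l := by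
  unfold Jp
  have h1 : ∀ l' : Fin k, (if l'.val < l.val + 1 then g l' else 0) =
      (if l'.val < l.val then g l' else 0) + (if l' = l then g l' else 0) := by
    intro l'
    by_cases h : l' = l
    · subst h
      simp
    · have h2 : l'.val ≠ l.val := fun h3 => h (Fin.ext h3)
      by_cases h3 : l'.val < l.val
      · rw [if_pos (by omega), if_pos h3, if_neg h]
        rfl
      · rw [if_neg (by omega), if_neg h3, if_neg h]
  rw [Finset.sum_congr rfl fun l' _ => h1 l', Finset.sum_add_distrib,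
    Finset.sum_ite_eq' Finset.univ l, if_pos (Finset.mem_univ _)]

theorem mem_Pat {L R T : ℕ} {g : Fin k → ℕ} :
    g ∈ Pat k L R T ↔ (∀ l, L ≤ g l ∧ g l ≤ R) ∧ ∑ i, g i = T := by
  unfold Pat
  rw [Finset.mem_filter, Fintype.mem_piFinset]
  simp only [Finset.mem_Icc]

theorem gap_le (g g' : Fin k → ℕ) (l : Fin k) :
    g l ≤ g' l + (dsp g g' l.val + dsp g g' (l.val + 1)) := by
  have h1 := Jp_succ g l
  have h2 := Jp_succ g' l
  unfold dsp
  omega

theorem sqrt_le (g g' : Fin k → ℕ) {L : ℕ} (hL : 1 ≤ L) (l : Fin k) (hg' : L ≤ g' l) :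
    Real.sqrt ((g l : ℝ) / (g' l : ℝ)) ≤
      Real.exp (((dsp g g' l.val : ℝ) + dsp g g' (l.val + 1)) / L / 2) := by
  rw [Real.exp_half]
  refine Real.sqrt_le_sqrt ?_
  have hL0 : (0 : ℝ) < L := by exact_mod_cast hL
  have hg0 : (0 : ℝ) < g' l := by
    have : 0 < g' l := by omega
    exact_mod_cast this
  have h1 : (g l : ℝ) ≤ g' l + ((dsp g g' l.val : ℝ) + dsp g g' (l.val + 1)) := by
    exact_mod_cast gap_le g g' l
  have h2 : (g l : ℝ) / (g' l : ℝ) ≤ 1 + ((dsp g g' l.val : ℝ) + dsp g g' (l.val + 1)) / L := by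
    rw [div_le_iff₀ hg0]
    have h3 : ((dsp g g' l.val : ℝ) + dsp g g' (l.val + 1)) ≤
        ((dsp g g' l.val : ℝ) + dsp g g' (l.val + 1)) / L * g' l := by
      rw [div_mul_eq_mul_div, le_div_iff₀ hL0]
      refine mul_le_mul_of_nonneg_left ?_ (by positivity)
      exact_mod_cast hg'
    linarith
  refine h2.trans ?_
  rw [add_comm]
  exact Real.add_one_le_exp _

theorem exp_half_le : Real.exp (1 / 2) ≤ 2 := by
  have h1 := Real.exp_one_lt_d9
  have h2 : Real.exp (1 / 2) ^ 2 = Real.exp 1 := by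
    rw [← Real.exp_nat_mul]
    norm_num
  have h3 : Real.exp (1 / 2) ^ 2 ≤ 2 ^ 2 := by
    rw [h2]
    linarith
  exact (sq_le_sq₀ (Real.exp_pos _).le (by norm_num)).1 h3

theorem prod_le {L R T : ℕ} {g g' : Fin k → ℕ} (hL : 1 ≤ L) (hg : g ∈ Pat k L R T)
    (hg' : g' ∈ Pat k L R T) (hd : ∀ i, i ≤ k → dsp g g' i ≤ L / 2) :
    ∏ l, Real.sqrt ((g l : ℝ) / (g' l : ℝ)) ≤ 2 ^ k := by
  have hL0 : (0 : ℝ) < L := by exact_mod_cast hL
  have hG := mem_Pat.1 hg
  have hG' := mem_Pat.1 hg'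
  have h0 : dsp g g' 0 = 0 := by
    unfold dsp
    rw [Jp_zero, Jp_zero]
    simp
  have hk : dsp g g' k = 0 := by
    unfold dsp
    rw [Jp_last, Jp_last, hG.2, hG'.2]
    simp
  have h1 : ∏ l, Real.sqrt ((g l : ℝ) / (g' l : ℝ)) ≤
      ∏ l : Fin k, Real.exp (((dsp g g' l.val : ℝ) + dsp g g' (l.val + 1)) / L / 2) :=
    Finset.prod_le_prod (fun _ _ => Real.sqrt_nonneg _)
      fun l _ => sqrt_le g g' hL l (hG'.1 l).1
  refine h1.trans ?_
  rw [← Real.exp_sum]
  have h2 : ∑ l : Fin k, ((dsp g g' l.val : ℝ) + dsp g g' (l.val + 1)) / L / 2 =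
      ∑ i ∈ Finset.range k, (dsp g g' i : ℝ) / L := by
    rw [Fin.sum_univ_eq_sum_range
      (fun i => ((dsp g g' i : ℝ) + dsp g g' (i + 1)) / L / 2) k]
    have h3 : ∑ i ∈ Finset.range k, (dsp g g' (i + 1) : ℝ) =
        ∑ i ∈ Finset.range k, (dsp g g' i : ℝ) := by
      have h4 := Finset.sum_range_succ (fun i => (dsp g g' i : ℝ)) k
      have h5 := Finset.sum_range_succ' (fun i => (dsp g g' i : ℝ)) k
      rw [h0] at h5
      rw [hk] at h4
      push_cast at h4 h5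
      linarith
    rw [← Finset.sum_div, ← Finset.sum_div, ← Finset.sum_div, Finset.sum_add_distrib, h3]
    ring
  rw [h2]
  have h3 : ∑ i ∈ Finset.range k, (dsp g g' i : ℝ) / L ≤ ∑ i ∈ Finset.range k, (1 / 2 : ℝ) := by
    refine Finset.sum_le_sum fun i hi => ?_
    have h4 := hd i (Finset.mem_range.1 hi).le
    rw [div_le_iff₀ hL0]
    have h5 : 2 * dsp g g' i ≤ L := by omega
    have h6 : (2 : ℝ) * dsp g g' i ≤ L := by exact_mod_cast h5
    linarith
  have h4 : Real.exp (∑ i ∈ Finset.range k, (dsp g g' i : ℝ) / L) ≤ Real.exp (1 / 2) ^ k := by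
    rw [← Real.exp_nat_mul]
    refine Real.exp_le_exp.2 (h3.trans ?_)
    rw [Finset.sum_const, Finset.card_range, nsmul_eq_mul]
  exact h4.trans (pow_le_pow_left₀ (Real.exp_pos _).le exp_half_le k)

theorem sum_int (q : ℝ) (hq : 0 < q) (hq1 : q < 1) (M : ℕ) :
    ∑ v ∈ Finset.Icc (-(M : ℤ)) M, q ^ (v.natAbs - 1) ≤ 1 + 2 / (1 - q) := by
  have h1 : ∀ M : ℕ, ∑ v ∈ Finset.Icc (-(M : ℤ)) M, q ^ (v.natAbs - 1) =
      1 + 2 * ∑ j ∈ Finset.range M, q ^ j := by
    intro M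
    induction M with
    | zero => simp
    | succ M ih =>
      have e : Finset.Icc (-((M + 1 : ℕ) : ℤ)) ((M + 1 : ℕ) : ℤ) =
          insert ((M + 1 : ℕ) : ℤ) (insert (-((M + 1 : ℕ) : ℤ)) (Finset.Icc (-(M : ℤ)) M)) := by
        ext v
        simp only [Finset.mem_Icc, Finset.mem_insert]
        omega
      have n1 : (-((M + 1 : ℕ) : ℤ)) ∉ Finset.Icc (-(M : ℤ)) (M : ℤ) := by
        simp only [Finset.mem_Icc]
        omega
      have n2 : ((M + 1 : ℕ) : ℤ) ∉
          insert (-((M + 1 : ℕ) : ℤ)) (Finset.Icc (-(M : ℤ)) (M : ℤ)) := by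
        simp only [Finset.mem_Icc, Finset.mem_insert]
        omega
      rw [e, Finset.sum_insert n2, Finset.sum_insert n1, ih, Finset.sum_range_succ,
        Int.natAbs_neg, Int.natAbs_natCast, Nat.add_sub_cancel]
      ring
  rw [h1]
  have h2 : (1 - q) * ∑ j ∈ Finset.range M, q ^ j = 1 - q ^ M := mul_neg_geom_sum q M
  have h3 : 0 < 1 - q := by linarith
  have h4 : ∑ j ∈ Finset.range M, q ^ j ≤ 1 / (1 - q) := by
    rw [le_div_iff₀ h3, mul_comm, h2]
    have := pow_pos hq M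
    linarith
  have h5 : 2 / (1 - q) = 2 * (1 / (1 - q)) := by ring
  rw [h5]
  linarith

/-- the displacements -/
def phi (g g' : Fin k → ℕ) (i : Fin k) : ℤ := (Jp g' i.val : ℤ) - (Jp g i.val : ℤ)

theorem phi_inj {L R T : ℕ} {g g' g'' : Fin k → ℕ} (h' : g' ∈ Pat k L R T)
    (h'' : g'' ∈ Pat k L R T) (h : phi g g' = phi g g'') : g' = g'' := by
  have h1 : ∀ i, i ≤ k → Jp g' i = Jp g'' i := by
    intro i hi
    rcases Nat.lt_or_eq_of_le hi with h2 | h2
    · have h3 := congrFun h ⟨i, h2⟩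
      unfold phi at h3
      simp only at h3
      omega
    · rw [h2, Jp_last, Jp_last, (mem_Pat.1 h').2, (mem_Pat.1 h'').2]
  funext l
  have h2 := Jp_succ g' l
  have h3 := Jp_succ g'' l
  have h4 := h1 l.val l.2.le
  have h5 := h1 (l.val + 1) l.2
  omega

theorem main : S_NSUM := by
  intro q hq hq1
  have hq' : 0 < 1 - q := by linarith
  refine ⟨2 + 4 / (1 - q), ?_, 0, ?_⟩
  · have : 0 < 4 / (1 - q) := by positivity
    linarith
  intro k L R T _ hL8 hLR g hg
  set S := (Pat k L R T).filter (fun g' => ∀ i, i ≤ k → dsp g g' i ≤ L / 2) with hS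
  have h1 : ∑ g' ∈ S, (∏ l, Real.sqrt ((g l : ℝ) / (g' l : ℝ))) *
      q ^ (∑ i ∈ Finset.range k, (dsp g g' i - 1)) ≤
      ∑ g' ∈ S, 2 ^ k * ∏ i : Fin k, q ^ ((phi g g' i).natAbs - 1) := by
    refine Finset.sum_le_sum fun g' hg' => ?_
    rw [hS, Finset.mem_filter] at hg'
    have e : q ^ (∑ i ∈ Finset.range k, (dsp g g' i - 1)) =
        ∏ i : Fin k, q ^ ((phi g g' i).natAbs - 1) := by
      rw [Finset.prod_pow_eq_pow_sum]
      congr 1
      exact (Fin.sum_univ_eq_sum_range (fun i => dsp g g' i - 1) k).symm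
    rw [e]
    exact mul_le_mul_of_nonneg_right (prod_le (by omega) hg hg'.1 hg'.2)
      (Finset.prod_nonneg fun _ _ => by positivity)
  refine h1.trans ?_
  rw [← Finset.mul_sum]
  have h2 : ∑ g' ∈ S, ∏ i : Fin k, q ^ ((phi g g' i).natAbs - 1) ≤
      ∑ v ∈ Fintype.piFinset (fun _ : Fin k => Finset.Icc (-((L / 2 : ℕ) : ℤ)) ((L / 2 : ℕ) : ℤ)),
        ∏ i : Fin k, q ^ ((v i).natAbs - 1) := by
    rw [← Finset.sum_image (s := S) (g := fun g' => phi g g')
      (f := fun v : Fin k → ℤ => ∏ i : Fin k, q ^ ((v i).natAbs - 1))]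
    · refine Finset.sum_le_sum_of_subset_of_nonneg ?_ fun v _ _ =>
        Finset.prod_nonneg fun _ _ => by positivity
      intro v hv
      rw [Finset.mem_image] at hv
      obtain ⟨g', hg', rfl⟩ := hv
      rw [hS, Finset.mem_filter] at hg'
      rw [Fintype.mem_piFinset]
      intro i
      have h3 := hg'.2 i.val i.2.le
      unfold dsp at h3
      rw [Finset.mem_Icc]
      unfold phi
      omega
    · intro a ha b hb hab
      rw [Finset.mem_coe, hS, Finset.mem_filter] at ha hb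
      exact phi_inj ha.1 hb.1 hab
  have h3 : ∑ v ∈ Fintype.piFinset
      (fun _ : Fin k => Finset.Icc (-((L / 2 : ℕ) : ℤ)) ((L / 2 : ℕ) : ℤ)),
        ∏ i : Fin k, q ^ ((v i).natAbs - 1) =
      ∏ _i : Fin k, ∑ v ∈ Finset.Icc (-((L / 2 : ℕ) : ℤ)) ((L / 2 : ℕ) : ℤ),
        q ^ (v.natAbs - 1) :=
    (Finset.prod_univ_sum (fun _ : Fin k => Finset.Icc (-((L / 2 : ℕ) : ℤ)) ((L / 2 : ℕ) : ℤ))
      fun _ v => q ^ (v.natAbs - 1)).symm
  have h4 : ∏ _i : Fin k, ∑ v ∈ Finset.Icc (-((L / 2 : ℕ) : ℤ)) ((L / 2 : ℕ) : ℤ),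
        q ^ (v.natAbs - 1) ≤ (1 + 2 / (1 - q)) ^ k := by
    rw [Finset.prod_const, Finset.card_univ, Fintype.card_fin]
    exact pow_le_pow_left₀ (Finset.sum_nonneg fun _ _ => by positivity)
      (sum_int q hq hq1 (L / 2)) k
  have h5 : (2 + 4 / (1 - q)) ^ k = 2 ^ k * (1 + 2 / (1 - q)) ^ k := by
    rw [← mul_pow]
    congr 1
    ring
  rw [h5]
  refine mul_le_mul_of_nonneg_left ?_ (by positivity)
  exact (h2.trans (le_of_eq h3)).trans h4

theorem comb (h1 : S_NEAR) (h2 : S_FAR) (h3 : S_NSUM) : S_COMB := by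
  intro q hq hq1
  obtain ⟨D0, hD0, L0, hD⟩ := h3 q hq hq1
  refine ⟨D0, hD0, L0, ?_⟩
  intro k L R T hL0 hL8 hLR g hg
  rw [← Finset.sum_filter_add_sum_filter_not (Pat k L R T)
    (fun g' => ∀ i, i ≤ k → dsp g g' i ≤ L / 2)]
  have hG := mem_Pat.1 hg
  have hLp : (0 : ℝ) < L := by
    have : 0 < L := by omega
    exact_mod_cast this
  refine add_le_add ?_ ?_
  · refine le_trans (Finset.sum_le_sum fun g' hg' => ?_) (hD k L R T hL0 hL8 hLR g hg)
    rw [Finset.mem_filter] at hg'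
    refine mul_le_mul_of_nonneg_left ?_ (Finset.prod_nonneg fun _ _ => Real.sqrt_nonneg _)
    exact pow_le_pow_of_le_one hq.le hq1.le (h1 k L R T g g' hL8 hg hg'.1 hg'.2)
  · have h4 : ∀ g' ∈ (Pat k L R T).filter (fun g' => ¬ ∀ i, i ≤ k → dsp g g' i ≤ L / 2),
        (∏ l, Real.sqrt ((g l : ℝ) / (g' l : ℝ))) * q ^ (Dd g g') ≤
        Real.sqrt ((R : ℝ) / (L : ℝ)) ^ k * q ^ (L / 2 - 3) := by
      intro g' hg'
      rw [Finset.mem_filter] at hg'
      have hG' := mem_Pat.1 hg'.1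
      have h5 : L / 2 - 3 ≤ Dd g g' := by
        refine h2 k L R T g g' hL8 hg hg'.1 ?_
        have h6 := hg'.2
        push Not at h6
        exact h6
      have h6 : ∏ l, Real.sqrt ((g l : ℝ) / (g' l : ℝ)) ≤
          Real.sqrt ((R : ℝ) / (L : ℝ)) ^ k := by
        have h7 : ∏ l : Fin k, Real.sqrt ((g l : ℝ) / (g' l : ℝ)) ≤
            ∏ _l : Fin k, Real.sqrt ((R : ℝ) / (L : ℝ)) := by
          refine Finset.prod_le_prod (fun _ _ => Real.sqrt_nonneg _) fun l _ => ?_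
          refine Real.sqrt_le_sqrt ?_
          have a1 : (g l : ℝ) ≤ R := by exact_mod_cast (hG.1 l).2
          have a2 : (L : ℝ) ≤ g' l := by exact_mod_cast (hG'.1 l).1
          exact div_le_div₀ (Nat.cast_nonneg R) a1 hLp a2
        rwa [Finset.prod_const, Finset.card_univ, Fintype.card_fin] at h7
      exact mul_le_mul h6 (pow_le_pow_of_le_one hq.le hq1.le h5) (by positivity)
        (by positivity)
    refine (Finset.sum_le_card_nsmul _ _ _ h4).trans ?_
    rw [nsmul_eq_mul, mul_assoc]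
    refine mul_le_mul_of_nonneg_right ?_ (by positivity)
    have h5 : ((Pat k L R T).filter (fun g' => ¬ ∀ i, i ≤ k → dsp g g' i ≤ L / 2)).card ≤
        R ^ k := by
      refine (Finset.card_filter_le _ _).trans ?_
      unfold Pat
      refine (Finset.card_filter_le _ _).trans ?_
      rw [Fintype.card_piFinset, Finset.prod_const, Finset.card_univ, Fintype.card_fin,
        Nat.card_Icc]
      exact Nat.pow_le_pow_left (by omega) k
    exact_mod_cast h5

end

end Pool.Agent.N940.CO.Nsum
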