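import Pool.Agent.N940.CO.Stm

/-!
CO/PAR (helper933 for project CO of helper940): the choice of the parameters.
-/

set_option autoImplicit false

open Filter Topology

namespace Pool.Agent.N940.CO.Par

open Pool.Agent.N940.CO

theorem big (B : ℝ) (hB : 0 < B) (m : ℕ) : ∀ᶠ j : ℕ in atTop, B * (j : ℝ) ^ m ≤ 2 ^ j := by
  have h1 := tendsto_pow_const_div_const_pow_of_one_lt m (one_lt_two : (1 : ℝ) < 2)
  have h2 : (0 : ℝ) < 1 / B := by positivity
  filter_upwards [h1.eventually (gt_mem_nhds h2)] with j hj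
  rw [div_lt_div_iff₀ (by positivity) hB] at hj
  linarith

/-- lower bound for harmonic sums -/
theorem harm (L R : ℕ) (hL : 1 ≤ L) (hLR : L ≤ R) :
    Real.log (((R : ℝ) + 1) / L) ≤ ∑ n ∈ Finset.Icc L R, 1 / (n : ℝ) := by
  have hLr : (0 : ℝ) < L := by exact_mod_cast hL
  induction R, hLR using Nat.le_induction with
  | base =>
    rw [Finset.Icc_self, Finset.sum_singleton]
    have h1 := Real.log_le_sub_one_of_pos (x := ((L : ℝ) + 1) / L) (by positivity)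
    refine h1.trans (le_of_eq ?_)
    field_simp
    ring
  | succ R hR ih =>
    rw [Finset.sum_Icc_succ_top (by omega)]
    have hRr : (0 : ℝ) < (R : ℝ) + 1 := by positivity
    have h1 := Real.log_le_sub_one_of_pos (x := ((R : ℝ) + 1 + 1) / ((R : ℝ) + 1)) (by positivity)
    have h2 : ((R : ℝ) + 1 + 1) / ((R : ℝ) + 1) - 1 = 1 / ((R + 1 : ℕ) : ℝ) := by
      push_cast
      field_simp
      ring
    have h3 : ((((R + 1 : ℕ) : ℝ)) + 1) / L = (((R : ℝ) + 1) / L) *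
        (((R : ℝ) + 1 + 1) / ((R : ℝ) + 1)) := by
      push_cast
      field_simp
    rw [h3, Real.log_mul (by positivity) (by positivity)]
    linarith

/-- one of the lengths has a large sum -/
theorem pigeon (c C : ℝ) (k L R : ℕ) (h2 : 2 ≤ ∑ n ∈ Finset.Icc L R, c / (n : ℝ))
    (hC : C * ((k : ℝ) * R + 1) ≤ 2 ^ k) :
    ∃ T, C ≤ ∑ g ∈ Pat k L R T, ∏ l, (c / (g l : ℝ)) := by
  classical
  by_contra hcon
  push Not at hcon
  have h3 : ∑ T ∈ Finset.range (k * R + 1), ∑ g ∈ Pat k L R T, ∏ l, (c / (g l : ℝ)) =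
      (∑ n ∈ Finset.Icc L R, c / (n : ℝ)) ^ k := by
    unfold Pat
    rw [Finset.sum_fiberwise_of_maps_to
      (f := fun g : Fin k → ℕ => ∏ l, (c / (g l : ℝ)))]
    · have := Finset.prod_univ_sum (fun _ : Fin k => Finset.Icc L R) (fun _ n => c / (n : ℝ))
      rw [← this, Finset.prod_const, Finset.card_univ, Fintype.card_fin]
    · intro g hg
      rw [Fintype.mem_piFinset] at hg
      rw [Finset.mem_range]
      have : ∑ i, g i ≤ ∑ _i : Fin k, R :=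
        Finset.sum_le_sum fun i _ => (Finset.mem_Icc.1 (hg i)).2
      rw [Finset.sum_const, Finset.card_univ, Fintype.card_fin, smul_eq_mul] at this
      omega
  have h4 : ∑ T ∈ Finset.range (k * R + 1), ∑ g ∈ Pat k L R T, ∏ l, (c / (g l : ℝ)) <
      ∑ _T ∈ Finset.range (k * R + 1), C :=
    Finset.sum_lt_sum_of_nonempty (Finset.nonempty_range_iff.2 (by omega)) fun T _ => hcon T
  rw [h3, Finset.sum_const, Finset.card_range, nsmul_eq_mul] at h4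
  have h5 : (2 : ℝ) ^ k ≤ (∑ n ∈ Finset.Icc L R, c / (n : ℝ)) ^ k :=
    pow_le_pow_left₀ (by norm_num) h2 k
  push_cast at h4
  linarith

theorem main : S_PAR := by
  intro q c C L0 hq0 hq1 hc hC
  obtain ⟨A, hA⟩ : ∃ A : ℕ, Real.exp (2 / c) ≤ A := ⟨⌈Real.exp (2 / c)⌉₊, Nat.le_ceil _⟩
  have hA1r : (1 : ℝ) ≤ A := by
    have := Real.one_le_exp (x := 2 / c) (by positivity)
    linarith
  have hA1 : 1 ≤ A := by exact_mod_cast hA1r
  obtain ⟨b, hb⟩ := exists_pow_lt_of_lt_one (by norm_num : (0 : ℝ) < 1 / 2) hq1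
  obtain ⟨j, hj1, hj2, hj3, hj4⟩ : ∃ j : ℕ, L0 + 3 + 2 * A ≤ j ∧ 0 ≤ j ∧
      (2 * C * A) * (j : ℝ) ^ 1 ≤ 2 ^ j ∧ (2 * (6 * (b : ℝ) + 3)) * (j : ℝ) ^ 2 ≤ 2 ^ j :=
    ((eventually_ge_atTop (L0 + 3 + 2 * A)).and ((eventually_ge_atTop 0).and
      ((big (2 * C * A) (by positivity) 1).and
        (big (2 * (6 * (b : ℝ) + 3)) (by positivity) 2)))).exists
  have hj5 : j < 2 ^ j := Nat.lt_two_pow_self
  have h8 : 8 ≤ 2 ^ j := by
    calc 8 = 2 ^ 3 := by norm_num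
      _ ≤ 2 ^ j := Nat.pow_le_pow_right (by norm_num) (by omega)
  have hjr : (1 : ℝ) ≤ j := by
    have : 1 ≤ j := by omega
    exact_mod_cast this
  have h2j : (0 : ℝ) < 2 ^ j := by positivity
  have hLR : 2 ^ j ≤ A * 2 ^ j := Nat.le_mul_of_pos_left _ hA1
  have hsum : 2 ≤ ∑ n ∈ Finset.Icc (2 ^ j) (A * 2 ^ j), c / (n : ℝ) := by
    have h1 := harm (2 ^ j) (A * 2 ^ j) Nat.one_le_two_pow hLR
    have h3 : 2 / c ≤ Real.log ((((A * 2 ^ j : ℕ) : ℝ) + 1) / ((2 ^ j : ℕ) : ℝ)) := by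
      rw [Real.le_log_iff_exp_le (by positivity)]
      refine hA.trans ?_
      rw [le_div_iff₀ (by positivity)]
      push_cast
      linarith
    have h4 : ∑ n ∈ Finset.Icc (2 ^ j) (A * 2 ^ j), c / (n : ℝ) =
        c * ∑ n ∈ Finset.Icc (2 ^ j) (A * 2 ^ j), 1 / (n : ℝ) := by
      rw [Finset.mul_sum]
      exact Finset.sum_congr rfl fun n _ => by ring
    rw [h4]
    calc (2 : ℝ) = c * (2 / c) := by field_simp
      _ ≤ _ := mul_le_mul_of_nonneg_left (h3.trans h1) hc.le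
  have hCk : C * (((2 * j + 1 : ℕ) : ℝ) * ((A * 2 ^ j : ℕ) : ℝ) + 1) ≤ 2 ^ (2 * j + 1) := by
    push_cast
    have e1 : (1 : ℝ) ≤ A * 2 ^ j := by
      have : (1 : ℝ) ≤ 2 ^ j := one_le_pow₀ (by norm_num)
      nlinarith
    calc C * ((2 * (j : ℝ) + 1) * (A * 2 ^ j) + 1)
        ≤ C * ((2 * (j : ℝ) + 1) * (A * 2 ^ j) + A * 2 ^ j) := by gcongr
      _ = (2 * C * A) * ((j : ℝ) + 1) * 2 ^ j := by ring
      _ ≤ (2 * C * A) * (2 * j) * 2 ^ j := by
          gcongr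
          linarith
      _ = 2 * ((2 * C * A) * (j : ℝ) ^ 1) * 2 ^ j := by ring
      _ ≤ 2 * 2 ^ j * 2 ^ j := by gcongr
      _ = 2 ^ (2 * j + 1) := by ring
  obtain ⟨T, hT⟩ := pigeon c C (2 * j + 1) (2 ^ j) (A * 2 ^ j) hsum hCk
  refine ⟨2 * j + 1, 2 ^ j, A * 2 ^ j, T, by omega, h8, hLR, ⟨j, rfl⟩, ?_, hT⟩
  have hRL : (((A * 2 ^ j : ℕ) : ℝ)) / ((2 ^ j : ℕ) : ℝ) = A := by
    push_cast
    field_simp
  rw [hRL, ← mul_pow]
  have hA2 : (A : ℝ) ≤ 2 ^ A := by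
    have : A < 2 ^ A := Nat.lt_two_pow_self
    exact_mod_cast this.le
  have h9 : (((A * 2 ^ j : ℕ) : ℝ)) * Real.sqrt A ≤ 2 ^ (2 * A + j) := by
    have e1 : Real.sqrt A ≤ A := by
      rw [Real.sqrt_le_left (by positivity)]
      nlinarith
    calc (((A * 2 ^ j : ℕ) : ℝ)) * Real.sqrt A ≤ (((A * 2 ^ j : ℕ) : ℝ)) * A := by gcongr
      _ = (A * A) * 2 ^ j := by push_cast; ring
      _ ≤ (2 ^ A * 2 ^ A) * 2 ^ j := by gcongr
      _ = _ := by ring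
  set P := (2 * A + j) * (2 * j + 1) with hP
  have h10 : ((((A * 2 ^ j : ℕ) : ℝ)) * Real.sqrt A) ^ (2 * j + 1) ≤ 2 ^ P := by
    rw [hP, pow_mul]
    exact pow_le_pow_left₀ (by positivity) h9 _
  have h11 : b * P ≤ 2 ^ j / 2 - 3 := by
    have e1 : (P : ℝ) ≤ 6 * (j : ℝ) ^ 2 := by
      rw [hP]
      push_cast
      have e2 : (2 * (A : ℝ) + j) ≤ 2 * j := by
        have : 2 * A ≤ j := by omega
        have : (2 * (A : ℝ)) ≤ j := by exact_mod_cast this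
        linarith
      calc (2 * (A : ℝ) + j) * (2 * j + 1) ≤ (2 * j) * (3 * j) := by
            refine mul_le_mul e2 (by linarith) (by positivity) (by positivity)
        _ = _ := by ring
    have e3 : 2 * ((b : ℝ) * P + 3) ≤ 2 ^ j := by
      have e4 : (b : ℝ) * P ≤ b * (6 * (j : ℝ) ^ 2) := by gcongr
      have e5 : (1 : ℝ) ≤ (j : ℝ) ^ 2 := one_le_pow₀ hjr
      calc 2 * ((b : ℝ) * P + 3) ≤ 2 * (b * (6 * (j : ℝ) ^ 2) + 3 * (j : ℝ) ^ 2) := by linarith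
        _ = (2 * (6 * (b : ℝ) + 3)) * (j : ℝ) ^ 2 := by ring
        _ ≤ _ := hj4
    have e6 : 2 * (b * P + 3) ≤ 2 ^ j := by exact_mod_cast e3
    omega
  have h12 : q ^ (2 ^ j / 2 - 3) ≤ (1 / 2) ^ P := by
    calc q ^ (2 ^ j / 2 - 3) ≤ q ^ (b * P) := pow_le_pow_of_le_one hq0.le hq1.le h11
      _ = (q ^ b) ^ P := pow_mul _ _ _
      _ ≤ _ := pow_le_pow_left₀ (by positivity) hb.le _
  calc ((((A * 2 ^ j : ℕ) : ℝ)) * Real.sqrt A) ^ (2 * j + 1) * q ^ (2 ^ j / 2 - 3)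
      ≤ 2 ^ P * (1 / 2) ^ P := mul_le_mul h10 h12 (by positivity) (by positivity)
    _ = 1 := by
        rw [← mul_pow]
        norm_num

end Pool.Agent.N940.CO.Par
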