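import Pool.Agent.N940.CO.Stm

/-!
Project CO, task PC: a chain of cell steps along a pattern.
-/

open MeasureTheory ProbabilityTheory Filter Topology

namespace Pool.Agent.N940.CO.Pc

/-- the first switch position is `0` -/
lemma Jp_zero {k : ℕ} (g : Fin k → ℕ) : Jp g 0 = 0 := by
  unfold Jp
  simp

/-- the last switch position is the total length -/
lemma Jp_top {k : ℕ} (g : Fin k → ℕ) : Jp g k = ∑ i, g i := by
  unfold Jp
  exact Finset.sum_congr rfl fun l _ => if_pos l.isLt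

/-- the recursion of the switch positions -/
lemma Jp_succ {k : ℕ} (g : Fin k → ℕ) (l : ℕ) (h : l < k) : Jp g (l + 1) = Jp g l + g ⟨l, h⟩ := by
  unfold Jp
  have h1 : ∀ i : Fin k, (if i.val < l + 1 then g i else 0) =
      (if i.val < l then g i else 0) + (if i = ⟨l, h⟩ then g i else 0) := by
    intro i
    by_cases h2 : i.val < l
    · have h3 : i ≠ ⟨l, h⟩ := by
        intro he
        rw [he] at h2
        exact lt_irrefl _ h2
      rw [if_pos (by omega), if_pos h2, if_neg h3, add_zero]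
    · by_cases h3 : i = ⟨l, h⟩
      · rw [if_pos (by rw [h3]; exact Nat.lt_succ_self l), if_neg h2, if_pos h3, zero_add]
      · have h4 : i.val ≠ l := fun he => h3 (Fin.ext he)
        rw [if_neg (by omega), if_neg h2, if_neg h3]
  rw [Finset.sum_congr rfl fun i _ => h1 i, Finset.sum_add_distrib]
  simp

/-- the coefficient of a cell above is `0` -/
lemma Fc_zero (K : ℕ → ℝ) (m : ℕ) (e : ℕ → ℝ) (j : ℕ) : Fc K m e j 0 = 0 := by
  unfold Fc th
  simp

/-- the exponent of one step -/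
noncomputable def tm (K : ℕ → ℝ) (m : ℕ) (e : ℕ → ℝ) (a : ℕ) {k : ℕ} (g : Fin k → ℕ) (l : ℕ) : ℝ :=
  if Even l then ∑ c ∈ Finset.Ioo (Jp g l) (Jp g (l + 1)), Fc K m e (a + c) 3
      + Fc K m e (a + Jp g (l + 1)) 2
    else Fc K m e (a + Jp g (l + 1)) 1

/-- the weight of one gap -/
noncomputable def wt (al c2 : ℝ) {k : ℕ} (g : Fin k → ℕ) (l : ℕ) : ℝ :=
  if h : l < k then c2 * (g ⟨l, h⟩ : ℝ) ^ (-(1 + al)) else 1

lemma wt_nonneg (al c2 : ℝ) (hc : 0 < c2) {k : ℕ} (g : Fin k → ℕ) (l : ℕ) : 0 ≤ wt al c2 g l := by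
  unfold wt
  split_ifs
  · positivity
  · norm_num

lemma prod_wt (al c2 : ℝ) {k : ℕ} (g : Fin k → ℕ) :
    ∏ l ∈ Finset.range k, wt al c2 g l = ∏ l, (c2 * (g l : ℝ) ^ (-(1 + al))) := by
  rw [Finset.prod_range]
  refine Finset.prod_congr rfl fun l _ => ?_
  unfold wt
  rw [dif_pos l.isLt]

/-- the chain of steps -/
lemma chain (al c2 : ℝ) (K : ℕ → ℝ) (m0 : ℕ) (hS : Steps al c2 K m0) (m : ℕ) (hm : m0 ≤ m)
    (k : ℕ) (g : Fin k → ℕ) (hg : ∀ l, 2 ≤ g l) (e : ℕ → ℝ) (a : ℕ) (W : ℝ)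
    (hW : W * Real.exp (Fc K m e a 1) ≤ HB K e m a) :
    ∀ l, l ≤ k → W * Real.exp (Fc K m e a 1) * (∏ i ∈ Finset.range l, wt al c2 g i) *
      Real.exp (∑ i ∈ Finset.range l, tm K m e a g i) ≤
      if Even l then HB K e m (a + Jp g l) else HA K e m (a + Jp g l) := by
  intro l
  induction l with
  | zero =>
    intro _
    simp only [Finset.range_zero, Finset.prod_empty, Finset.sum_empty, Real.exp_zero, mul_one,
      Jp_zero, add_zero]
    rw [if_pos (by decide)]
    exact hW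
  | succ l ih =>
    intro hl
    have h1 := ih (by omega)
    have hlt : l < k := by omega
    have hJ := Jp_succ g l hlt
    have hgl := hg ⟨l, hlt⟩
    have hjj : a + Jp g l + 2 ≤ a + Jp g (l + 1) := by omega
    have hsub : a + Jp g (l + 1) - (a + Jp g l) = g ⟨l, hlt⟩ := by omega
    have hwt : wt al c2 g l = c2 * (g ⟨l, hlt⟩ : ℝ) ^ (-(1 + al)) := by
      unfold wt
      rw [dif_pos hlt]
    have hstep0 : 0 ≤ wt al c2 g l * Real.exp (tm K m e a g l) :=
      mul_nonneg (wt_nonneg al c2 hS.c2pos g l) (Real.exp_pos _).le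
    have h2 := mul_le_mul_of_nonneg_right h1 hstep0
    have h3 : W * Real.exp (Fc K m e a 1) * (∏ i ∈ Finset.range (l + 1), wt al c2 g i) *
        Real.exp (∑ i ∈ Finset.range (l + 1), tm K m e a g i) =
        W * Real.exp (Fc K m e a 1) * (∏ i ∈ Finset.range l, wt al c2 g i) *
        Real.exp (∑ i ∈ Finset.range l, tm K m e a g i) *
        (wt al c2 g l * Real.exp (tm K m e a g l)) := by
      rw [Finset.prod_range_succ, Finset.sum_range_succ, Real.exp_add]
      ring
    rw [h3]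
    refine h2.trans ?_
    rcases Nat.even_or_odd l with he | ho
    · have hne : ¬ Even (l + 1) := by
        rw [Nat.even_add_one]
        exact fun h => h he
      rw [if_pos he, if_neg hne]
      have h4 := hS.B m hm e (a + Jp g l) (a + Jp g (l + 1)) hjj
      rw [hsub] at h4
      have h5 : ∑ c ∈ Finset.Ioo (a + Jp g l) (a + Jp g (l + 1)), Fc K m e c 3 =
          ∑ c ∈ Finset.Ioo (Jp g l) (Jp g (l + 1)), Fc K m e (a + c) 3 := by
        rw [← Finset.map_add_left_Ioo, Finset.sum_map]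
        rfl
      rw [h5] at h4
      have h6 : tm K m e a g l = ∑ c ∈ Finset.Ioo (Jp g l) (Jp g (l + 1)), Fc K m e (a + c) 3
          + Fc K m e (a + Jp g (l + 1)) 2 := by
        unfold tm
        rw [if_pos he]
      rw [hwt, h6]
      exact h4
    · have hne : ¬ Even l := Nat.not_even_iff_odd.2 ho
      have hev : Even (l + 1) := by
        rw [Nat.even_add_one]
        exact hne
      rw [if_neg hne, if_pos hev]
      have h4 := hS.A m hm e (a + Jp g l) (a + Jp g (l + 1)) hjj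
      rw [hsub] at h4
      have h6 : tm K m e a g l = Fc K m e (a + Jp g (l + 1)) 1 := by
        unfold tm
        rw [if_neg hne]
      rw [hwt, h6]
      exact h4

/-- the exponent of a pattern -/
lemma Rg_eq (ht : S_TY) (K : ℕ → ℝ) (m : ℕ) (k : ℕ) (g : Fin k → ℕ) (hg : ∀ l, 2 ≤ g l)
    (e : ℕ → ℝ) (a : ℕ) :
    Rg K m g a e = Fc K m e a 1 + ∑ l ∈ Finset.range k, tm K m e a g l := by
  have h1 := ht k g hg (fun c t => Fc K m e (a + c) t) (fun c => Fc_zero K m e (a + c))
  simp only [add_zero] at h1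
  unfold Rg
  rw [← h1]
  rfl

/-- the general step along a pattern -/
lemma step (ht : S_TY) (al c2 : ℝ) (K : ℕ → ℝ) (m0 : ℕ) (hS : Steps al c2 K m0) (m : ℕ)
    (hm : m0 ≤ m) (k : ℕ) (g : Fin k → ℕ) (hk : Odd k) (hg : ∀ l, 2 ≤ g l) (e : ℕ → ℝ) (a : ℕ)
    (W : ℝ) (hW : W * Real.exp (Fc K m e a 1) ≤ HB K e m a) :
    W * Ag al c2 K m g a e ≤ HA K e m (a + ∑ i, g i) := by
  have h1 := chain al c2 K m0 hS m hm k g hg e a W hW k le_rfl
  rw [if_neg (Nat.not_even_iff_odd.2 hk), Jp_top, prod_wt] at h1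
  have h2 : W * Ag al c2 K m g a e = W * Real.exp (Fc K m e a 1) *
      (∏ l, (c2 * (g l : ℝ) ^ (-(1 + al)))) *
      Real.exp (∑ i ∈ Finset.range k, tm K m e a g i) := by
    unfold Ag
    rw [Rg_eq ht K m k g hg e a, Real.exp_add]
    ring
  rw [h2]
  exact h1

theorem main (ht : S_TY) : S_PC := by
  intro al c2 K m0 _ hS m hm k g hk hg e a
  constructor
  · intro j hj
    refine step ht al c2 K m0 hS m hm k g hk hg e a _ ?_
    have h1 := hS.A m hm e j a hj
    rw [mul_assoc]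
    exact h1
  · intro ha
    exact step ht al c2 K m0 hS m hm k g hk hg e a _ (hS.S m hm e a ha)

end Pool.Agent.N940.CO.Pc
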