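import Pool.Agent.N940.CO.Stm

/-!
Project CO: the moments of the cells for small `lam` (SM), comparison of the joint moments (PSI).
-/

open MeasureTheory ProbabilityTheory Filter Topology

namespace Pool.Agent.N940.CO.Sm

noncomputable section

open Pool.Agent.N940.CO

/-! ### the moment generating function -/

lemma int_exp {nu : Measure ℝ} (hd : Dis nu) (t : ℝ) :
    Integrable (fun x => Real.exp (t * id x)) nu := hd.exp t

lemma mem_int {nu : Measure ℝ} (hd : Dis nu) (t : ℝ) :
    t ∈ interior (integrableExpSet id nu) := by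
  have : integrableExpSet id nu = Set.univ := by
    ext s
    simp only [Set.mem_univ, iff_true]
    exact int_exp hd s
  rw [this, interior_univ]
  exact Set.mem_univ _

lemma M_pos {nu : Measure ℝ} (hd : Dis nu) (t : ℝ) : 0 < mgf id nu t := by
  haveI := hd.prob
  exact mgf_pos (int_exp hd t)

lemma M_one_le {nu : Measure ℝ} (hd : Dis nu) (t : ℝ) : 1 ≤ mgf id nu t := by
  haveI := hd.prob
  have h1 : Integrable (fun x : ℝ => x) nu := by
    have h := integrable_of_mem_interior_integrableExpSet (mem_int hd 0)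
    exact h
  have h2 : ∫ x, (1 + t * x) ∂nu ≤ ∫ x, Real.exp (t * id x) ∂nu := by
    apply integral_mono ((integrable_const 1).add (h1.const_mul t)) (int_exp hd t)
    intro x
    show 1 + t * x ≤ Real.exp (t * x)
    have := Real.add_one_le_exp (t * x)
    linarith
  rw [integral_add (integrable_const 1) (h1.const_mul t), integral_const_mul, hd.mean] at h2
  simpa [mgf] using h2

lemma M_CS {nu : Measure ℝ} (hd : Dis nu) (x y : ℝ) :
    mgf id nu ((x + y) / 2) ^ 2 ≤ mgf id nu x * mgf id nu y := by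
  have hx := M_pos hd x
  have hy := M_pos hd y
  set a := Real.sqrt (mgf id nu y) with ha
  set b := Real.sqrt (mgf id nu x) with hb
  have ha2 : a ^ 2 = mgf id nu y := Real.sq_sqrt hy.le
  have hb2 : b ^ 2 = mgf id nu x := Real.sq_sqrt hx.le
  have ha0 : 0 < a := Real.sqrt_pos.2 hy
  have hb0 : 0 < b := Real.sqrt_pos.2 hx
  have h0 : 0 ≤ ∫ s, (a ^ 2 * Real.exp (x * s) - 2 * a * b * Real.exp ((x + y) / 2 * s) +
      b ^ 2 * Real.exp (y * s)) ∂nu := by
    apply integral_nonneg
    intro s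
    show 0 ≤ a ^ 2 * Real.exp (x * s) - 2 * a * b * Real.exp ((x + y) / 2 * s) +
      b ^ 2 * Real.exp (y * s)
    have e1 : Real.exp (x * s) = Real.exp (x * s / 2) ^ 2 := by
      rw [← Real.exp_nat_mul]; congr 1; push_cast; ring
    have e2 : Real.exp (y * s) = Real.exp (y * s / 2) ^ 2 := by
      rw [← Real.exp_nat_mul]; congr 1; push_cast; ring
    have e3 : Real.exp ((x + y) / 2 * s) = Real.exp (x * s / 2) * Real.exp (y * s / 2) := by
      rw [← Real.exp_add]; congr 1; ring
    rw [e1, e2, e3]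
    have := sq_nonneg (a * Real.exp (x * s / 2) - b * Real.exp (y * s / 2))
    nlinarith
  have i1 := (hd.exp x).const_mul (a ^ 2)
  have i2 := (hd.exp ((x + y) / 2)).const_mul (2 * a * b)
  have i3 := (hd.exp y).const_mul (b ^ 2)
  have i12 : Integrable (fun s => a ^ 2 * Real.exp (x * s) -
      2 * a * b * Real.exp ((x + y) / 2 * s)) nu := i1.sub i2
  rw [integral_add i12 i3, integral_sub i1 i2, integral_const_mul, integral_const_mul,
    integral_const_mul] at h0
  have m1 : ∫ s, Real.exp (x * s) ∂nu = mgf id nu x := rfl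
  have m2 : ∫ s, Real.exp ((x + y) / 2 * s) ∂nu = mgf id nu ((x + y) / 2) := rfl
  have m3 : ∫ s, Real.exp (y * s) ∂nu = mgf id nu y := rfl
  rw [m1, m2, m3, ← hb2, ← ha2] at h0
  have hab : 0 < a * b := mul_pos ha0 hb0
  have h1 : mgf id nu ((x + y) / 2) ≤ a * b := by
    have : 0 ≤ 2 * (a * b) * (a * b - mgf id nu ((x + y) / 2)) := by nlinarith
    have h2 := nonneg_of_mul_nonneg_right this (by positivity)
    linarith
  have h3 : 0 < mgf id nu ((x + y) / 2) := M_pos hd _
  rw [← hb2, ← ha2]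
  calc mgf id nu ((x + y) / 2) ^ 2 ≤ (a * b) ^ 2 := pow_le_pow_left₀ h3.le h1 2
    _ = b ^ 2 * a ^ 2 := by ring

lemma M_taylor {nu : Measure ℝ} (hd : Dis nu) (δ : ℝ) (hδ : 0 < δ) :
    ∃ t0 : ℝ, 0 < t0 ∧ ∀ t : ℝ, |t| ≤ t0 → |mgf id nu t - (1 + t ^ 2 / 2)| ≤ δ * t ^ 2 := by
  haveI := hd.prob
  set M1 : ℝ → ℝ := fun t => ∫ x, x * Real.exp (t * x) ∂nu with hM1
  have hder : ∀ t, HasDerivAt (mgf id nu) (M1 t) t := fun t => hasDerivAt_mgf (mem_int hd t)
  have hder2 : HasDerivAt M1 1 0 := by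
    have h := hasDerivAt_integral_pow_mul_exp_real (X := id) (μ := nu) (mem_int hd 0) 1
    have e1 : (fun t : ℝ => ∫ x, (id x) ^ 1 * Real.exp (t * id x) ∂nu) = M1 := by
      funext t
      simp [hM1]
    have e2 : ∫ x, (id x) ^ (1 + 1) * Real.exp (0 * id x) ∂nu = 1 := by
      have : ∀ x : ℝ, (id x) ^ (1 + 1) * Real.exp (0 * id x) = x ^ 2 := by
        intro x; simp
      simp_rw [this]
      exact hd.var
    rw [e1, e2] at h
    exact h
  have hM10 : M1 0 = 0 := by
    have : ∀ x : ℝ, x * Real.exp (0 * x) = x := by intro x; simp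
    simp only [hM1, this]
    exact hd.mean
  have hM0 : mgf id nu 0 = 1 := by simp [mgf]
  -- the derivative is close to `t`
  have h1 : ∀ᶠ t : ℝ in 𝓝 0, |M1 t - t| ≤ δ * |t| := by
    have h := hder2.isLittleO.def hδ
    filter_upwards [h] with t ht
    simp only [hM10, sub_zero, smul_eq_mul, mul_one, Real.norm_eq_abs] at ht
    exact ht
  obtain ⟨t0, ht0, hball⟩ := Metric.eventually_nhds_iff.1 h1
  refine ⟨t0 / 2, by positivity, fun t ht => ?_⟩
  have hb : ∀ s ∈ Set.uIcc 0 t, |M1 s - s| ≤ δ * |t| := by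
    intro s hs
    have hst : |s| ≤ |t| := by
      rcases le_total 0 t with h0 | h0
      · rw [Set.uIcc_of_le h0] at hs
        rw [abs_of_nonneg hs.1, abs_of_nonneg h0]; exact hs.2
      · rw [Set.uIcc_of_ge h0] at hs
        rw [abs_of_nonpos hs.2, abs_of_nonpos h0]; linarith [hs.1]
    have h2 : |M1 s - s| ≤ δ * |s| := by
      apply hball
      rw [Real.dist_eq, sub_zero]
      linarith
    exact h2.trans (mul_le_mul_of_nonneg_left hst hδ.le)
  have hD : ∀ s ∈ Set.uIcc (0 : ℝ) t, HasDerivWithinAt (fun r => mgf id nu r - (1 + r ^ 2 / 2))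
      (M1 s - s) (Set.uIcc 0 t) s := by
    intro s _
    have h3 : HasDerivAt (fun r : ℝ => 1 + r ^ 2 / 2) s s := by
      have := ((hasDerivAt_pow 2 s).div_const 2).const_add 1
      simpa using this
    exact ((hder s).sub h3).hasDerivWithinAt
  have h4 := Convex.norm_image_sub_le_of_norm_hasDerivWithin_le (C := δ * |t|) hD
    (fun s hs => by rw [Real.norm_eq_abs]; exact hb s hs) (convex_uIcc 0 t)
    Set.left_mem_uIcc Set.right_mem_uIcc
  rw [Real.norm_eq_abs, Real.norm_eq_abs, hM0] at h4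
  have e5 : δ * |t| * |t - 0| = δ * t ^ 2 := by
    rw [sub_zero, mul_assoc, ← abs_mul, ← pow_two, abs_of_nonneg (sq_nonneg t)]
  rw [e5] at h4
  simpa using h4

lemma M_bounds {nu : Measure ℝ} (hd : Dis nu) (δ : ℝ) (hδ : 0 < δ) (hδ1 : δ ≤ 1 / 4) :
    ∃ t0 : ℝ, 0 < t0 ∧ ∀ t : ℝ, |t| ≤ t0 → Real.exp ((1 / 2 - δ) * t ^ 2) ≤ mgf id nu t ∧
      mgf id nu t ≤ Real.exp ((1 / 2 + δ) * t ^ 2) := by
  obtain ⟨t1, ht1, h⟩ := M_taylor hd (δ / 2) (by positivity)
  refine ⟨min t1 δ, lt_min ht1 hδ, fun t ht => ?_⟩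
  have h1 := abs_le.1 (h t (ht.trans (min_le_left _ _)))
  have h2 : |t| ≤ δ := ht.trans (min_le_right _ _)
  have h3 : t ^ 2 ≤ δ ^ 2 := by
    rw [← sq_abs t]; exact pow_le_pow_left₀ (abs_nonneg t) h2 2
  have h4 : δ ^ 2 ≤ δ / 2 := by nlinarith
  have ht2 : 0 ≤ t ^ 2 := sq_nonneg t
  constructor
  · have hy0 : 0 ≤ (1 / 2 - δ) * t ^ 2 := mul_nonneg (by linarith) ht2
    have hy1 : (1 / 2 - δ) * t ^ 2 ≤ 1 := by nlinarith
    have h5 := Real.abs_exp_sub_one_sub_id_le (x := (1 / 2 - δ) * t ^ 2)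
      (by rw [abs_of_nonneg hy0]; exact hy1)
    have h6 := (abs_le.1 h5).2
    have h7 : ((1 / 2 - δ) * t ^ 2) ^ 2 ≤ δ / 2 * t ^ 2 := by
      have h8 : ((1 / 2 - δ) * t ^ 2) ^ 2 ≤ (t ^ 2) ^ 2 := by
        apply pow_le_pow_left₀ hy0
        nlinarith
      nlinarith
    nlinarith [h1.1]
  · have h5 := Real.add_one_le_exp ((1 / 2 + δ) * t ^ 2)
    nlinarith [h1.2]

/-! ### PSI -/

theorem psi : S_PSI := by
  intro nu hd K m gam lam h s t
  have p1 : ∀ s, 0 < ph nu K m gam lam h s := fun s =>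
    Finset.prod_pos fun i _ => mul_pos (M_pos hd _) (Real.exp_pos _)
  have p2 : ∀ s t, 0 < ps nu K m gam lam h s t := fun s t =>
    Finset.prod_pos fun i _ => mul_pos (M_pos hd _) (Real.exp_pos _)
  refine ⟨p1 s, p2 s t, ?_, ?_⟩
  · unfold ps
    refine Finset.prod_congr rfl fun i _ => ?_
    rw [add_comm (th K m s i)]
  · apply Real.le_sqrt_of_sq_le
    unfold ps ph
    rw [← Finset.prod_pow, ← Finset.prod_mul_distrib]
    refine Finset.prod_le_prod (fun i _ => sq_nonneg _) fun i _ => ?_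
    have h1 := M_CS hd (-2 * lam * gam * th K m s i) (-2 * lam * gam * th K m t i)
    have e1 : (-2 * lam * gam * th K m s i + -2 * lam * gam * th K m t i) / 2 =
        -lam * gam * (th K m s i + th K m t i) := by ring
    rw [e1] at h1
    have e2 : Real.exp (-lam * gam * h * (th K m s i + th K m t i)) ^ 2 =
        Real.exp (-2 * lam * gam * h * th K m s i) * Real.exp (-2 * lam * gam * h * th K m t i) := by
      rw [← Real.exp_nat_mul, ← Real.exp_add]
      congr 1
      push_cast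
      ring
    rw [mul_pow, e2]
    calc mgf id nu (-lam * gam * (th K m s i + th K m t i)) ^ 2 *
          (Real.exp (-2 * lam * gam * h * th K m s i) * Real.exp (-2 * lam * gam * h * th K m t i))
        ≤ (mgf id nu (-2 * lam * gam * th K m s i) * mgf id nu (-2 * lam * gam * th K m t i)) *
          (Real.exp (-2 * lam * gam * h * th K m s i) * Real.exp (-2 * lam * gam * h * th K m t i)) :=
          mul_le_mul_of_nonneg_right h1 (by positivity)
      _ = _ := by ring

/-! ### the profile -/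

lemma u_nonneg {K : ℕ → ℝ} (hK : ∀ n, 0 ≤ K n) : ∀ n, 0 ≤ u K n := by
  intro n
  induction n using Nat.strong_induction_on with
  | _ n ih =>
    cases n with
    | zero => rw [u]; norm_num
    | succ n =>
      rw [u]
      exact Finset.sum_nonneg fun i _ => mul_nonneg (ih i.1 i.2) (hK _)

lemma wp_bounds {K : ℕ → ℝ} (hK : ∀ n, 0 ≤ K n) (m i : ℕ) : 0 ≤ wp K m i ∧ wp K m i ≤ 1 := by
  have hu := u_nonneg hK
  have hf : ∀ y y' : ℕ, 0 ≤ ((if y' < i then (1 : ℝ) else 0) +
      (if y < i ∧ i ≤ y' then (1 / 2 : ℝ) else 0)) ∧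
      ((if y' < i then (1 : ℝ) else 0) + (if y < i ∧ i ≤ y' then (1 / 2 : ℝ) else 0)) ≤ 1 := by
    intro y y'
    by_cases h1 : y' < i
    · rw [if_pos h1, if_neg (fun h => absurd h.2 (not_le.2 h1))]
      norm_num
    · rw [if_neg h1]
      split_ifs <;> norm_num
  have hU : 0 ≤ Ut K m := Finset.sum_nonneg fun y _ => Finset.sum_nonneg fun y' _ => hu _
  constructor
  · unfold wp
    refine div_nonneg ?_ hU
    exact Finset.sum_nonneg fun y _ => Finset.sum_nonneg fun y' _ => mul_nonneg (hu _) (hf y y').1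
  · unfold wp
    refine div_le_one_of_le₀ ?_ hU
    unfold Ut
    refine Finset.sum_le_sum fun y _ => Finset.sum_le_sum fun y' _ => ?_
    exact mul_le_of_le_one_right (hu _) (hf y y').2

lemma ph_lower {nu : Measure ℝ} (hd : Dis nu) {K : ℕ → ℝ} (m t : ℕ)
    (gam lam h : ℝ) (hth : ∀ i, th K m t i ≤ 1) (hx : 0 ≤ 2 * lam * gam * h)
    (h8 : m * (2 * lam * gam * h) ≤ 8) : Real.exp (-8) ≤ ph nu K m gam lam h t := by
  unfold ph
  calc Real.exp (-8) ≤ Real.exp (-(m * (2 * lam * gam * h))) := Real.exp_le_exp.2 (by linarith)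
    _ = ∏ _i ∈ Finset.Icc 1 m, Real.exp (-(2 * lam * gam * h)) := by
        rw [Finset.prod_const, Nat.card_Icc, ← Real.exp_nat_mul]
        congr 1
        rw [Nat.add_sub_cancel]
        ring
    _ ≤ _ := by
        refine Finset.prod_le_prod (fun i _ => (Real.exp_pos _).le) fun i _ => ?_
        have h1 : Real.exp (-(2 * lam * gam * h)) ≤ Real.exp (-2 * lam * gam * h * th K m t i) := by
          apply Real.exp_le_exp.2
          nlinarith [hth i]
        have h2 := M_one_le hd (-2 * lam * gam * th K m t i)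
        calc Real.exp (-(2 * lam * gam * h)) ≤ Real.exp (-2 * lam * gam * h * th K m t i) := h1
          _ = 1 * Real.exp (-2 * lam * gam * h * th K m t i) := (one_mul _).symm
          _ ≤ _ := mul_le_mul_of_nonneg_right h2 (Real.exp_pos _).le

theorem main : S_SM := by
  intro al K nu hR hd T
  set eps : ℝ := Real.log 2 / (8 * (T + 1)) with heps
  have hlog2 : 0 < Real.log 2 := Real.log_pos (by norm_num)
  have hlog2' : Real.log 2 < 1 := by
    have := Real.log_two_lt_d9; linarith
  have hT0 : (0 : ℝ) ≤ T := Nat.cast_nonneg T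
  have heps0 : 0 < eps := by positivity
  have heps1 : eps ≤ 1 := by
    rw [heps, div_le_one (by positivity)]
    nlinarith
  have hTeps : 8 * eps * T ≤ Real.log 2 := by
    have h1 : eps * (8 * (T + 1)) = Real.log 2 := by
      rw [heps]; field_simp
    nlinarith
  set δ : ℝ := min (1 / 12) (eps / 2) with hδ
  have hδ0 : 0 < δ := lt_min (by norm_num) (by positivity)
  have hδ1 : δ ≤ 1 / 12 := min_le_left _ _
  have hδ2 : δ ≤ eps / 2 := min_le_right _ _
  obtain ⟨t0, ht0, hM⟩ := M_bounds hd δ hδ0 (by linarith)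
  refine ⟨eps, heps0, heps1, min 1 (t0 / 2), lt_min one_pos (by positivity), min_le_left _ _, ?_⟩
  intro lam hlam hlam0 gam h hgam hh
  have hlam1 : lam < 1 := lt_of_lt_of_le hlam0 (min_le_left _ _)
  have hlamt : lam < t0 / 2 := lt_of_lt_of_le hlam0 (min_le_right _ _)
  have hgam0 : 0 < gam := by
    rw [hgam]; have := hR.al0; positivity
  have hgam1 : gam ≤ 1 := by
    rw [hgam, div_le_one (by linarith [hR.al0])]; linarith [hR.al0]
  have hl2 : 0 < lam ^ 2 := by positivity
  -- the size of the cell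
  set m : ℕ := mm lam with hm
  have hq1 : 1 ≤ (m : ℝ) * lam ^ 2 := by
    have : 1 / lam ^ 2 ≤ (m : ℝ) := Nat.le_ceil _
    rw [div_le_iff₀ hl2] at this
    exact this
  have hq2 : (m : ℝ) * lam ^ 2 ≤ 2 := by
    have h1 : (m : ℝ) < 1 / lam ^ 2 + 1 := Nat.ceil_lt_add_one (by positivity)
    have h2 : (m : ℝ) * lam ^ 2 < (1 / lam ^ 2 + 1) * lam ^ 2 := mul_lt_mul_of_pos_right h1 hl2
    have h3 : (1 / lam ^ 2 + 1) * lam ^ 2 = 1 + lam ^ 2 := by field_simp
    nlinarith
  set q : ℝ := (m : ℝ) * lam ^ 2 with hq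
  have th3 : ∀ i, th K m 3 i = 1 := fun i => by simp [th]
  have th0 : ∀ i, th K m 0 i = 0 := fun i => by simp [th]
  have eph : ph nu K m gam lam h 3 =
      (mgf id nu (-2 * lam * gam) * Real.exp (-2 * lam * gam * h)) ^ m := by
    unfold ph
    simp_rw [th3, mul_one]
    rw [Finset.prod_const, Nat.card_Icc, Nat.add_sub_cancel]
  have eps03 : ps nu K m gam lam h 0 3 =
      (mgf id nu (-lam * gam) * Real.exp (-lam * gam * h)) ^ m := by
    unfold ps
    simp_rw [th3, th0, zero_add, mul_one]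
    rw [Finset.prod_const, Nat.card_Icc, Nat.add_sub_cancel]
  have a1 : |(-2 * lam * gam)| ≤ t0 := by
    rw [abs_le]; constructor <;> nlinarith
  have a2 : |(-lam * gam)| ≤ t0 := by
    rw [abs_le]; constructor <;> nlinarith
  obtain ⟨b1, b2⟩ := hM _ a1
  obtain ⟨-, b4⟩ := hM _ a2
  have hg2 : gam ^ 2 ≤ gam := by nlinarith
  have hg20 : 0 < gam ^ 2 := by positivity
  -- bounds for `ph 3`
  have up : ph nu K m gam lam h 3 ≤ Real.exp (q * (4 * δ * gam ^ 2 - 2 * gam * eps)) := by
    rw [eph]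
    calc (mgf id nu (-2 * lam * gam) * Real.exp (-2 * lam * gam * h)) ^ m
        ≤ (Real.exp ((1 / 2 + δ) * (-2 * lam * gam) ^ 2) * Real.exp (-2 * lam * gam * h)) ^ m := by
          apply pow_le_pow_left₀ (mul_pos (M_pos hd _) (Real.exp_pos _)).le
          exact mul_le_mul_of_nonneg_right b2 (Real.exp_pos _).le
      _ = _ := by
          rw [← Real.exp_add, ← Real.exp_nat_mul, hh, hq]
          congr 1
          ring
  have low : Real.exp (q * (-(4 * δ * gam ^ 2) - 2 * gam * eps)) ≤ ph nu K m gam lam h 3 := by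
    rw [eph]
    calc Real.exp (q * (-(4 * δ * gam ^ 2) - 2 * gam * eps))
        = (Real.exp ((1 / 2 - δ) * (-2 * lam * gam) ^ 2) * Real.exp (-2 * lam * gam * h)) ^ m := by
          rw [← Real.exp_add, ← Real.exp_nat_mul, hh, hq]
          congr 1
          ring
      _ ≤ _ := by
          apply pow_le_pow_left₀ (by positivity)
          exact mul_le_mul_of_nonneg_right b1 (Real.exp_pos _).le
  have hdg : 4 * δ * gam ^ 2 ≤ 2 * gam * eps := by nlinarith
  refine ⟨?_, ?_, ?_, ?_, ?_⟩
  · refine up.trans ?_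
    rw [Real.exp_le_one_iff]
    nlinarith
  · have h1 : Real.exp (-(8 * eps)) ≤ ph nu K m gam lam h 3 := by
      refine le_trans (Real.exp_le_exp.2 ?_) low
      have h2 : 4 * δ * gam ^ 2 + 2 * gam * eps ≤ 4 * eps := by nlinarith
      have h3 : q * (4 * δ * gam ^ 2 + 2 * gam * eps) ≤ 2 * (4 * eps) := by
        apply mul_le_mul hq2 h2 (by positivity) (by norm_num)
      linarith
    calc (1 : ℝ) / 2 = Real.exp (-Real.log 2) := by
          rw [Real.exp_neg, Real.exp_log (by norm_num)]; norm_num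
      _ ≤ Real.exp (-(8 * eps)) ^ T := by
          rw [← Real.exp_nat_mul]
          apply Real.exp_le_exp.2
          linarith
      _ ≤ _ := pow_le_pow_left₀ (Real.exp_pos _).le h1 T
  · have h1 : ps nu K m gam lam h 0 3 ≤ Real.exp (q * ((-1 / 2 + δ) * gam ^ 2 - gam * eps)) := by
      rw [eps03]
      calc (mgf id nu (-lam * gam) * Real.exp (-lam * gam * h)) ^ m
          ≤ (Real.exp ((1 / 2 + δ) * (-lam * gam) ^ 2) * Real.exp (-lam * gam * h)) ^ m := by
            apply pow_le_pow_left₀ (mul_pos (M_pos hd _) (Real.exp_pos _)).le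
            exact mul_le_mul_of_nonneg_right b4 (Real.exp_pos _).le
        _ = _ := by
            rw [← Real.exp_add, ← Real.exp_nat_mul, hh, hq]
            congr 1
            ring
    have h2 : Real.exp (q * (-(2 * δ * gam ^ 2) - gam * eps)) ≤
        Real.sqrt (ph nu K m gam lam h 3) := by
      apply Real.le_sqrt_of_sq_le
      refine le_trans (le_of_eq ?_) low
      rw [← Real.exp_nat_mul]
      congr 1
      push_cast
      ring
    refine h1.trans ?_
    refine le_trans ?_ (mul_le_mul_of_nonneg_left h2 (Real.exp_pos _).le)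
    rw [← Real.exp_add]
    apply Real.exp_le_exp.2
    have h3 : q * ((-1 / 2 + 3 * δ) * gam ^ 2) ≤ -(gam ^ 2 / 4) := by
      have h4 : (-1 / 2 + 3 * δ) * gam ^ 2 ≤ -(gam ^ 2 / 4) := by nlinarith
      nlinarith
    nlinarith
  · apply ph_lower hd
    · intro i
      have : th K m 1 i = wp K m i := by simp [th]
      rw [this]
      exact (wp_bounds hR.nonneg m i).2
    · rw [hh]; positivity
    · have e : (m : ℝ) * (2 * lam * gam * h) = q * (2 * gam * (gam + eps)) := by
        rw [hh, hq]; ring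
      rw [e]
      have h5 : 2 * gam * (gam + eps) ≤ 4 := by nlinarith
      calc q * (2 * gam * (gam + eps)) ≤ 2 * 4 := mul_le_mul hq2 h5 (by positivity) (by norm_num)
        _ = 8 := by norm_num
  · apply ph_lower hd
    · intro i
      have : th K m 2 i = 1 - wp K m i := by simp [th]
      rw [this]
      linarith [(wp_bounds hR.nonneg m i).1]
    · rw [hh]; positivity
    · have e : (m : ℝ) * (2 * lam * gam * h) = q * (2 * gam * (gam + eps)) := by
        rw [hh, hq]; ring
      rw [e]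
      have h5 : 2 * gam * (gam + eps) ≤ 4 := by nlinarith
      calc q * (2 * gam * (gam + eps)) ≤ 2 * 4 := mul_le_mul hq2 h5 (by positivity) (by norm_num)
        _ = 8 := by norm_num

end

end Pool.Agent.N940.CO.Sm
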