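import Pool.Agent.N940.CO.Stm

/-!
Project CO (helper940), part STA: a switch cell entered from above (by helper91).
-/

namespace Pool.Agent.N940.CO.Sta

open Finset

lemma u_zero (K : ℕ → ℝ) : u K 0 = 1 := by rw [u]

lemma u_succ (K : ℕ → ℝ) (n : ℕ) : u K (n + 1) = ∑ i : Fin (n + 1), u K i * K (n + 1 - i) := by
  rw [u]

lemma zc_zero (K e : ℕ → ℝ) : zc K e 0 = 1 := by rw [zc]

lemma zc_succ (K e : ℕ → ℝ) (n : ℕ) :
    zc K e (n + 1) = ∑ i : Fin (n + 1), zc K e i * (K (n + 1 - i) * ew (En e i (n + 1))) := by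
  rw [zc]

lemma u_nonneg {K : ℕ → ℝ} (hK : ∀ n, 0 ≤ K n) (n : ℕ) : 0 ≤ u K n := by
  induction n using Nat.strong_induction_on with
  | _ n ih =>
    cases n with
    | zero => rw [u_zero]; exact zero_le_one
    | succ n =>
      rw [u_succ]
      exact sum_nonneg fun i _ => mul_nonneg (ih _ i.2) (hK _)

lemma ew_half (s : ℝ) : 1 / 2 ≤ ew s := by
  unfold ew
  have := Real.exp_pos (-2 * s)
  linarith

lemma ew_nonneg (s : ℝ) : 0 ≤ ew s := le_trans (by norm_num) (ew_half s)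

lemma zc_nonneg {K : ℕ → ℝ} (hK : ∀ n, 0 ≤ K n) (e : ℕ → ℝ) (n : ℕ) : 0 ≤ zc K e n := by
  induction n using Nat.strong_induction_on with
  | _ n ih =>
    cases n with
    | zero => rw [zc_zero]; exact zero_le_one
    | succ n =>
      rw [zc_succ]
      exact sum_nonneg fun i _ => mul_nonneg (ih _ i.2) (mul_nonneg (hK _) (ew_nonneg _))

lemma Ut_pos {K : ℕ → ℝ} (hK : ∀ n, 0 ≤ K n) {m : ℕ} (hm : 1 ≤ m) : 0 < Ut K m := by
  unfold Ut
  refine sum_pos' (fun y _ => sum_nonneg fun y' _ => u_nonneg hK _) ⟨1, mem_Icc.2 ⟨le_rfl, hm⟩, ?_⟩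
  refine sum_pos' (fun y' _ => u_nonneg hK _) ⟨1, mem_Icc.2 ⟨le_rfl, hm⟩, ?_⟩
  rw [Nat.sub_self, u_zero]
  exact zero_lt_one

/-- Jensen's inequality for the weights `u K (y' - y) / Ut K m`. -/
lemma jensen {K : ℕ → ℝ} (hK : ∀ n, 0 ≤ K n) {m : ℕ} (hm : 1 ≤ m) (X : ℕ → ℕ → ℝ) :
    Ut K m * Real.exp ((∑ y ∈ Icc 1 m, ∑ y' ∈ Icc y m, u K (y' - y) * X y y') / Ut K m) ≤
      ∑ y ∈ Icc 1 m, ∑ y' ∈ Icc y m, u K (y' - y) * Real.exp (X y y') := by
  have hU := Ut_pos hK hm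
  obtain ⟨mu, hmu⟩ : ∃ mu : ℝ, mu = (∑ y ∈ Icc 1 m, ∑ y' ∈ Icc y m, u K (y' - y) * X y y') / Ut K m :=
    ⟨_, rfl⟩
  rw [← hmu]
  have h1 : ∑ y ∈ Icc 1 m, ∑ y' ∈ Icc y m, u K (y' - y) * X y y' = mu * Ut K m := by
    rw [hmu, div_mul_cancel₀ _ hU.ne']
  have h2 : ∑ y ∈ Icc 1 m, ∑ y' ∈ Icc y m, u K (y' - y) * (Real.exp mu * (1 + X y y' - mu)) =
      Ut K m * Real.exp mu := by
    have h3 : ∀ y ∈ Icc 1 m, ∑ y' ∈ Icc y m, u K (y' - y) * (Real.exp mu * (1 + X y y' - mu)) =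
        Real.exp mu * (∑ y' ∈ Icc y m, u K (y' - y) * X y y') +
        Real.exp mu * (1 - mu) * ∑ y' ∈ Icc y m, u K (y' - y) := by
      intro y _
      rw [mul_sum, mul_sum, ← sum_add_distrib]
      refine sum_congr rfl fun y' _ => ?_
      ring
    rw [sum_congr rfl h3, sum_add_distrib, ← mul_sum, ← mul_sum, h1]
    unfold Ut
    ring
  rw [← h2]
  refine sum_le_sum fun y _ => sum_le_sum fun y' _ => ?_
  refine mul_le_mul_of_nonneg_left ?_ (u_nonneg hK _)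
  have h4 : Real.exp (X y y') = Real.exp mu * Real.exp (X y y' - mu) := by
    rw [← Real.exp_add]; congr 1; ring
  rw [h4]
  refine mul_le_mul_of_nonneg_left ?_ (Real.exp_pos _).le
  have := Real.add_one_le_exp (X y y' - mu)
  linarith

/-- A sum over a subinterval of a cell. -/
lemma En_cell (e : ℕ → ℝ) (J m a b : ℕ) (hb : b ≤ m) :
    En e (J + a) (J + b) = ∑ i ∈ Icc 1 m, if a < i ∧ i ≤ b then e (J + i) else 0 := by
  unfold En
  rw [← sum_filter]
  symm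
  refine sum_bij (fun i _ => J + i) ?_ ?_ ?_ ?_
  · intro i hi
    rw [mem_filter, mem_Icc] at hi
    rw [mem_Ioc]
    omega
  · intro i _ k _ h
    omega
  · intro n hn
    rw [mem_Ioc] at hn
    refine ⟨n - J, ?_, by omega⟩
    rw [mem_filter, mem_Icc]
    omega
  · intro i _
    rfl

/-- shift of a sum over a cell -/
lemma sum_cell (J m : ℕ) (F : ℕ → ℝ) : ∑ y ∈ Ioc J (J + m), F y = ∑ b ∈ Icc 1 m, F (J + b) := by
  symm
  refine sum_bij (fun i _ => J + i) ?_ ?_ ?_ ?_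
  · intro i hi
    rw [mem_Icc] at hi
    rw [mem_Ioc]
    omega
  · intro i _ k _ h
    omega
  · intro n hn
    rw [mem_Ioc] at hn
    refine ⟨n - J, ?_, by omega⟩
    rw [mem_Icc]
    omega
  · intro i _
    rfl

lemma sum_cell' (J m : ℕ) (F : ℕ → ℝ) :
    ∑ y ∈ Icc (J + 1) (J + m), F y = ∑ b ∈ Icc 1 m, F (J + b) := by
  rw [← sum_cell]
  refine sum_congr ?_ fun _ _ => rfl
  ext x
  rw [mem_Icc, mem_Ioc]
  omega

/-- the order of the two summations in a cell -/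
lemma sum_swap (m : ℕ) (F : ℕ → ℕ → ℝ) :
    ∑ b ∈ Icc 1 m, ∑ a ∈ Icc 1 b, F a b = ∑ a ∈ Icc 1 m, ∑ b ∈ Icc a m, F a b := by
  refine sum_comm' ?_
  intro b a
  rw [mem_Icc, mem_Icc, mem_Icc, mem_Icc]
  omega

/-- The exponent of a switch cell from above to below is a mean. -/
lemma Fc_one (K e : ℕ → ℝ) (m j : ℕ) :
    Fc K m e j 1 = (∑ y ∈ Icc 1 m, ∑ y' ∈ Icc y m, u K (y' - y) *
      (-En e (j * m + y) (j * m + y') - 2 * En e (j * m + y') (j * m + m))) / Ut K m := by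
  have h1 : ∀ y ∈ Icc 1 m, ∀ y' ∈ Icc y m,
      u K (y' - y) * (-En e (j * m + y) (j * m + y') - 2 * En e (j * m + y') (j * m + m)) =
      ∑ i ∈ Icc 1 m, (-2) * e (j * m + i) * (u K (y' - y) * ((if y' < i then (1 : ℝ) else 0) +
        (if y < i ∧ i ≤ y' then (1 / 2 : ℝ) else 0))) := by
    intro y _ y' hy'
    rw [mem_Icc] at hy'
    rw [En_cell e (j * m) m y y' hy'.2, En_cell e (j * m) m y' m le_rfl, mul_sum, ← sum_neg_distrib,
      ← sum_sub_distrib, mul_sum]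
    refine sum_congr rfl fun i hi => ?_
    rw [mem_Icc] at hi
    by_cases c1 : y' < i
    · have c2 : ¬ (y < i ∧ i ≤ y') := by omega
      rw [if_neg c2, if_neg c2, if_pos c1, if_pos ⟨c1, hi.2⟩]
      ring
    · have c3 : ¬ (y' < i ∧ i ≤ m) := by omega
      rw [if_neg c1, if_neg c3]
      by_cases c2 : y < i ∧ i ≤ y'
      · rw [if_pos c2, if_pos c2]; ring
      · rw [if_neg c2, if_neg c2]; ring
  rw [sum_congr rfl fun y hy => sum_congr rfl fun y' hy' => h1 y hy y' hy']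
  have h2 : ∀ y ∈ Icc 1 m, ∑ y' ∈ Icc y m, ∑ i ∈ Icc 1 m, (-2) * e (j * m + i) *
      (u K (y' - y) * ((if y' < i then (1 : ℝ) else 0) +
        (if y < i ∧ i ≤ y' then (1 / 2 : ℝ) else 0))) =
      ∑ i ∈ Icc 1 m, ∑ y' ∈ Icc y m, (-2) * e (j * m + i) *
      (u K (y' - y) * ((if y' < i then (1 : ℝ) else 0) +
        (if y < i ∧ i ≤ y' then (1 / 2 : ℝ) else 0))) := fun y _ => sum_comm
  rw [sum_congr rfl h2, sum_comm, sum_div]
  unfold Fc
  refine sum_congr rfl fun i _ => ?_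
  unfold th
  rw [if_neg (by norm_num), if_pos rfl]
  unfold wp
  simp_rw [← mul_sum]
  ring

/-- The total weight of a switch cell. -/
lemma Wge {K : ℕ → ℝ} (hK : ∀ n, 0 ≤ K n) (e : ℕ → ℝ) {m : ℕ} (hm : 1 ≤ m) (j : ℕ) :
    Ut K m * Real.exp (Fc K m e j 1) ≤
      ∑ y' ∈ Ioc (j * m) ((j + 1) * m), ∑ y ∈ Icc (j * m + 1) y',
        u K (y' - y) * Real.exp (-En e y y') * Real.exp (-2 * En e y' ((j + 1) * m)) := by
  have hJ : (j + 1) * m = j * m + m := by ring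
  rw [hJ, sum_cell]
  have h1 : ∀ b ∈ Icc 1 m, ∑ y ∈ Icc (j * m + 1) (j * m + b),
      u K (j * m + b - y) * Real.exp (-En e y (j * m + b)) *
        Real.exp (-2 * En e (j * m + b) (j * m + m)) =
      ∑ a ∈ Icc 1 b, u K (b - a) * Real.exp (-En e (j * m + a) (j * m + b) -
        2 * En e (j * m + b) (j * m + m)) := by
    intro b _
    rw [sum_cell']
    refine sum_congr rfl fun a _ => ?_
    rw [Nat.add_sub_add_left, mul_assoc, ← Real.exp_add]
    congr 2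
    ring
  rw [sum_congr rfl h1, sum_swap m (fun a b => u K (b - a) *
    Real.exp (-En e (j * m + a) (j * m + b) - 2 * En e (j * m + b) (j * m + m))), Fc_one]
  exact jensen hK hm _

/-- The general step: the last point before the cell `j` is in `S`. -/
lemma step (hc : S_CUT) {al kap : ℝ} {K e : ℕ → ℝ} {N0 m j D : ℕ} (hal : 0 < al)
    (hK : ∀ n, 0 ≤ K n) (hkap : 0 ≤ kap) (hlow : KLow al K kap N0) (hm : 1 ≤ m)
    (S : Finset ℕ) (hS : ∀ y0 ∈ S, y0 < j * m + 1 ∧ ∀ y, j * m + 1 ≤ y → y ≤ (j + 1) * m →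
      N0 ≤ y - y0 ∧ 1 ≤ y - y0 ∧ y - y0 ≤ D) :
    (∑ y0 ∈ S, zc K e y0) * (kap / 2 * (D : ℝ) ^ (-(1 + al)) * Ut K m
      * Real.exp (Fc K m e j 1)) ≤ HB K e m j := by
  have hz : 0 ≤ ∑ y0 ∈ S, zc K e y0 := sum_nonneg fun y _ => zc_nonneg hK e y
  have hD : (0 : ℝ) ≤ (D : ℝ) ^ (-(1 + al)) := Real.rpow_nonneg (Nat.cast_nonneg _) _
  have h1 : (∑ y0 ∈ S, zc K e y0) * (kap / 2 * (D : ℝ) ^ (-(1 + al)) * Ut K m
      * Real.exp (Fc K m e j 1)) ≤
      (∑ y0 ∈ S, zc K e y0) * (kap / 2 * (D : ℝ) ^ (-(1 + al)) *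
      ∑ y' ∈ Ioc (j * m) ((j + 1) * m), ∑ y ∈ Icc (j * m + 1) y',
        u K (y' - y) * Real.exp (-En e y y') * Real.exp (-2 * En e y' ((j + 1) * m))) := by
    refine mul_le_mul_of_nonneg_left ?_ hz
    rw [mul_assoc]
    exact mul_le_mul_of_nonneg_left (Wge hK e hm j) (by positivity)
  refine h1.trans ?_
  unfold HB
  rw [mul_sum, mul_sum]
  refine sum_le_sum fun y' hy' => ?_
  rw [mem_Ioc] at hy'
  rw [← sum_mul, ← mul_assoc, ← mul_assoc]
  refine mul_le_mul_of_nonneg_right ?_ (Real.exp_pos _).le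
  refine le_trans ?_ (hc K e hK (j * m + 1) y' (by omega) (by omega))
  have h2 : ∑ y0 ∈ S, ∑ y ∈ Icc (j * m + 1) y',
      zc K e y0 * (K (y - y0) * ew (En e y0 y)) * (u K (y' - y) * Real.exp (-En e y y')) ≤
      ∑ y0 ∈ range (j * m + 1), ∑ y ∈ Icc (j * m + 1) y',
      zc K e y0 * (K (y - y0) * ew (En e y0 y)) * (u K (y' - y) * Real.exp (-En e y y')) := by
    refine sum_le_sum_of_subset_of_nonneg (fun y0 h0 => mem_range.2 (hS y0 h0).1) ?_
    intro y0 _ _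
    refine sum_nonneg fun y _ => ?_
    exact mul_nonneg (mul_nonneg (zc_nonneg hK e _) (mul_nonneg (hK _) (ew_nonneg _)))
      (mul_nonneg (u_nonneg hK _) (Real.exp_pos _).le)
  refine le_trans ?_ h2
  rw [mul_assoc, sum_mul]
  refine sum_le_sum fun y0 h0 => ?_
  rw [mul_sum, mul_sum]
  refine sum_le_sum fun y hy => ?_
  rw [mem_Icc] at hy
  have h3 := (hS y0 h0).2 y hy.1 (by omega)
  have h4 : kap * (D : ℝ) ^ (-(1 + al)) ≤ K (y - y0) := by
    refine le_trans ?_ (hlow (y - y0) h3.1 h3.2.1)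
    refine mul_le_mul_of_nonneg_left ?_ hkap
    refine Real.rpow_le_rpow_of_nonpos ?_ ?_ (by linarith)
    · exact_mod_cast h3.2.1
    · exact_mod_cast h3.2.2
  have h5 : kap / 2 * (D : ℝ) ^ (-(1 + al)) ≤ K (y - y0) * ew (En e y0 y) := by
    calc kap / 2 * (D : ℝ) ^ (-(1 + al)) = (kap * (D : ℝ) ^ (-(1 + al))) * (1 / 2) := by ring
      _ ≤ K (y - y0) * ew (En e y0 y) := mul_le_mul h4 (ew_half _) (by norm_num) (hK _)
  rw [mul_assoc (zc K e y0)]
  refine mul_le_mul_of_nonneg_left ?_ (zc_nonneg hK e _)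
  exact mul_le_mul_of_nonneg_right h5 (mul_nonneg (u_nonneg hK _) (Real.exp_pos _).le)

theorem main (hc : S_CUT) : S_STA := by
  intro al kap K e N0 m j j' hal hK hkap hlow hm hN hj
  unfold HA
  refine step hc hal hK hkap hlow hm (Ioc (j * m) ((j + 1) * m)) ?_
  intro y0 h0
  rw [mem_Ioc] at h0
  obtain ⟨d, rfl⟩ : ∃ d, j' = j + 2 + d := ⟨j' - (j + 2), by omega⟩
  have e1 : (j + 2 + d) * m = j * m + 2 * m + d * m := by ring
  have e2 : (j + 1) * m = j * m + m := by ring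
  have e3 : (j + 2 + d + 1) * m = j * m + 3 * m + d * m := by ring
  have e4 : j + 2 + d - j + 1 = d + 3 := by omega
  have e5 : (d + 3) * m = d * m + 3 * m := by ring
  rw [e1, e3, e4, e5]
  rw [e2] at h0
  refine ⟨by omega, ?_⟩
  intro y hy1 hy2
  refine ⟨by omega, by omega, by omega⟩

theorem start (hc : S_CUT) : S_STS := by
  intro al kap K e N0 m j hal hK hkap hlow hm hN hj
  have h := step (D := (j + 1) * m) hc (e := e) hal hK hkap hlow hm (j := j) {0} (by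
    intro y0 h0
    rw [mem_singleton] at h0
    subst h0
    have e1 : m ≤ j * m := Nat.le_mul_of_pos_left m hj
    refine ⟨by omega, ?_⟩
    intro y hy1 hy2
    refine ⟨by omega, by omega, by omega⟩)
  rw [sum_singleton, zc_zero, one_mul] at h
  exact h

end Pool.Agent.N940.CO.Sta
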