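import Pool.Agent.N940.CO.Stm

/-!
Project CO: the step from below to above (S_STB).
-/

open MeasureTheory ProbabilityTheory Filter Topology

namespace Pool.Agent.N940.CO.Stb

open Pool.Agent.N940.CO Finset

noncomputable section

lemma u_nonneg {K : ℕ → ℝ} (hK : ∀ n, 0 ≤ K n) (n : ℕ) : 0 ≤ u K n := by
  induction n using Nat.strong_induction_on with
  | _ n ih =>
    cases n with
    | zero =>
      rw [u]
      exact zero_le_one
    | succ n =>
      rw [u]
      exact Finset.sum_nonneg fun i _ => mul_nonneg (ih i i.2) (hK _)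

lemma ew_nonneg (s : ℝ) : 0 ≤ ew s := by
  unfold ew
  positivity

lemma ew_ge (s : ℝ) : Real.exp (-2 * s) / 2 ≤ ew s := by
  unfold ew
  linarith

lemma zc_nonneg {K : ℕ → ℝ} (hK : ∀ n, 0 ≤ K n) (e : ℕ → ℝ) (n : ℕ) : 0 ≤ zc K e n := by
  induction n using Nat.strong_induction_on with
  | _ n ih =>
    cases n with
    | zero =>
      rw [zc]
      exact zero_le_one
    | succ n =>
      rw [zc]
      exact Finset.sum_nonneg fun i _ => mul_nonneg (ih i i.2) (mul_nonneg (hK _) (ew_nonneg _))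

lemma En_add (e : ℕ → ℝ) {a b c : ℕ} (h1 : a ≤ b) (h2 : b ≤ c) :
    En e a c = En e a b + En e b c := by
  unfold En
  exact (Finset.sum_Ioc_consecutive e h1 h2).symm

/-- reindexing of one cell -/
lemma cell_sum (f : ℕ → ℝ) (m c a : ℕ) :
    ∑ n ∈ Finset.Ioc (c * m) (c * m + a), f n = ∑ i ∈ Finset.Icc 1 a, f (c * m + i) := by
  refine (Finset.sum_nbij' (fun i => c * m + i) (fun n => n - c * m) ?_ ?_ ?_ ?_ ?_).symm
  · intro i hi
    simp only [Finset.mem_Icc, Finset.mem_Ioc] at *
    omega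
  · intro n hn
    simp only [Finset.mem_Icc, Finset.mem_Ioc] at *
    omega
  · intro i hi
    simp only [Finset.mem_Icc] at *
    omega
  · intro n hn
    simp only [Finset.mem_Ioc] at *
    omega
  · intro i _
    rfl

lemma Fc_three (K e : ℕ → ℝ) (m c : ℕ) : Fc K m e c 3 = -2 * En e (c * m) ((c + 1) * m) := by
  unfold Fc En th
  rw [show (c + 1) * m = c * m + m by ring, cell_sum, Finset.mul_sum]
  refine Finset.sum_congr rfl fun i _ => ?_
  simp

lemma cells (e : ℕ → ℝ) (m j : ℕ) : ∀ d : ℕ,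
    ∑ c ∈ Finset.Ioo j (j + 1 + d), En e (c * m) ((c + 1) * m) =
      En e ((j + 1) * m) ((j + 1 + d) * m)
  | 0 => by
    have : Finset.Ioo j (j + 1 + 0) = ∅ := by
      ext x
      simp only [Finset.mem_Ioo, Finset.notMem_empty, iff_false]
      omega
    rw [this, Finset.sum_empty]
    unfold En
    simp
  | d + 1 => by
    have h1 : Finset.Ioo j (j + 1 + (d + 1)) = insert (j + 1 + d) (Finset.Ioo j (j + 1 + d)) := by
      ext x
      simp only [Finset.mem_Ioo, Finset.mem_insert]
      omega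
    rw [h1, Finset.sum_insert (by simp), cells e m j d]
    have h2 := En_add e (a := (j + 1) * m) (b := (j + 1 + d) * m) (c := (j + 1 + (d + 1)) * m)
      (Nat.mul_le_mul_right _ (by omega)) (Nat.mul_le_mul_right _ (by omega))
    rw [h2, show j + 1 + (d + 1) = j + 1 + d + 1 by ring]
    ring

lemma Ut_pos {K : ℕ → ℝ} (hK : ∀ n, 0 ≤ K n) {m : ℕ} (hm : 1 ≤ m) : 0 < Ut K m := by
  unfold Ut
  have h1 : ∑ y' ∈ Finset.Icc 1 m, u K (y' - 1) ≤
      ∑ y ∈ Finset.Icc 1 m, ∑ y' ∈ Finset.Icc y m, u K (y' - y) :=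
    Finset.single_le_sum (f := fun y => ∑ y' ∈ Finset.Icc y m, u K (y' - y))
      (fun y _ => Finset.sum_nonneg fun y' _ => u_nonneg hK _) (Finset.mem_Icc.2 ⟨le_rfl, hm⟩)
  have h2 : u K (1 - 1) ≤ ∑ y' ∈ Finset.Icc 1 m, u K (y' - 1) :=
    Finset.single_le_sum (f := fun y' => u K (y' - 1))
      (fun y' _ => u_nonneg hK _) (Finset.mem_Icc.2 ⟨le_rfl, hm⟩)
  have h3 : u K (1 - 1) = 1 := by
    rw [Nat.sub_self, u]
  linarith

/-- the exponent of a pair of points of the cell -/
lemma pair_sum (e : ℕ → ℝ) (m c a a' : ℕ) (haa : a ≤ a') (ha' : a' ≤ m) :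
    -2 * En e (c * m) (c * m + a) - En e (c * m + a) (c * m + a') =
      ∑ i ∈ Finset.Icc 1 m, (-2) * e (c * m + i) *
        (1 - ((if a' < i then (1 : ℝ) else 0) + (if a < i ∧ i ≤ a' then (1 / 2 : ℝ) else 0))) := by
  have h1 : En e (c * m + a) (c * m + a') = En e (c * m) (c * m + a') - En e (c * m) (c * m + a) := by
    rw [En_add e (a := c * m) (b := c * m + a) (c := c * m + a') (by omega) (by omega)]
    ring
  have h2 : ∀ b ≤ m, En e (c * m) (c * m + b) =
      ∑ i ∈ Finset.Icc 1 m, if i ≤ b then e (c * m + i) else 0 := by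
    intro b hb
    unfold En
    rw [cell_sum, ← Finset.sum_filter]
    refine Finset.sum_congr ?_ fun _ _ => rfl
    ext i
    simp only [Finset.mem_Icc, Finset.mem_filter]
    omega
  rw [h1, h2 a (by omega), h2 a' ha']
  have h3 : -2 * (∑ i ∈ Finset.Icc 1 m, if i ≤ a then e (c * m + i) else 0) -
      ((∑ i ∈ Finset.Icc 1 m, if i ≤ a' then e (c * m + i) else 0) -
        ∑ i ∈ Finset.Icc 1 m, if i ≤ a then e (c * m + i) else 0) =
      ∑ i ∈ Finset.Icc 1 m, (-(if i ≤ a then e (c * m + i) else 0) -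
        (if i ≤ a' then e (c * m + i) else 0)) := by
    rw [Finset.sum_sub_distrib, Finset.sum_neg_distrib]
    ring
  rw [h3]
  refine Finset.sum_congr rfl fun i _ => ?_
  by_cases hi1 : i ≤ a
  · have hi2 : i ≤ a' := by omega
    rw [if_pos hi1, if_pos hi2, if_neg (by omega), if_neg (by omega)]
    ring
  · by_cases hi2 : i ≤ a'
    · rw [if_neg hi1, if_pos hi2, if_neg (by omega), if_pos (by omega)]
      ring
    · rw [if_neg hi1, if_neg hi2, if_pos (by omega), if_neg (by omega)]
      ring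

/-- Jensen's inequality for the last cell -/
lemma jensen {K : ℕ → ℝ} (hK : ∀ n, 0 ≤ K n) (e : ℕ → ℝ) {m : ℕ} (hm : 1 ≤ m) (c : ℕ) :
    Ut K m * Real.exp (Fc K m e c 2) ≤
      ∑ a ∈ Finset.Icc 1 m, ∑ a' ∈ Finset.Icc a m, u K (a' - a) *
        Real.exp (-2 * En e (c * m) (c * m + a) - En e (c * m + a) (c * m + a')) := by
  have hU := Ut_pos hK hm
  set μ := Fc K m e c 2 with hμ
  -- the mean
  have hmean : ∑ a ∈ Finset.Icc 1 m, ∑ a' ∈ Finset.Icc a m, u K (a' - a) *
      (-2 * En e (c * m) (c * m + a) - En e (c * m + a) (c * m + a')) = Ut K m * μ := by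
    have h1 : ∑ a ∈ Finset.Icc 1 m, ∑ a' ∈ Finset.Icc a m, u K (a' - a) *
        (-2 * En e (c * m) (c * m + a) - En e (c * m + a) (c * m + a')) =
        ∑ a ∈ Finset.Icc 1 m, ∑ a' ∈ Finset.Icc a m, ∑ i ∈ Finset.Icc 1 m,
          ((-2) * e (c * m + i)) * (u K (a' - a) - u K (a' - a) *
          ((if a' < i then (1 : ℝ) else 0) + (if a < i ∧ i ≤ a' then (1 / 2 : ℝ) else 0))) := by
      refine Finset.sum_congr rfl fun a _ => Finset.sum_congr rfl fun a' ha' => ?_
      rw [Finset.mem_Icc] at ha'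
      rw [pair_sum e m c a a' ha'.1 ha'.2, Finset.mul_sum]
      refine Finset.sum_congr rfl fun i _ => ?_
      ring
    have h2 : ∑ a ∈ Finset.Icc 1 m, ∑ a' ∈ Finset.Icc a m, ∑ i ∈ Finset.Icc 1 m,
          ((-2) * e (c * m + i)) * (u K (a' - a) - u K (a' - a) *
          ((if a' < i then (1 : ℝ) else 0) + (if a < i ∧ i ≤ a' then (1 / 2 : ℝ) else 0))) =
        ∑ i ∈ Finset.Icc 1 m, ((-2) * e (c * m + i)) *
          (∑ a ∈ Finset.Icc 1 m, ∑ a' ∈ Finset.Icc a m, u K (a' - a) -
          ∑ a ∈ Finset.Icc 1 m, ∑ a' ∈ Finset.Icc a m, u K (a' - a) *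
          ((if a' < i then (1 : ℝ) else 0) + (if a < i ∧ i ≤ a' then (1 / 2 : ℝ) else 0))) := by
      have h3 : ∀ a ∈ Finset.Icc 1 m, ∑ a' ∈ Finset.Icc a m, ∑ i ∈ Finset.Icc 1 m,
          ((-2) * e (c * m + i)) * (u K (a' - a) - u K (a' - a) *
          ((if a' < i then (1 : ℝ) else 0) + (if a < i ∧ i ≤ a' then (1 / 2 : ℝ) else 0))) =
          ∑ i ∈ Finset.Icc 1 m, ∑ a' ∈ Finset.Icc a m,
          ((-2) * e (c * m + i)) * (u K (a' - a) - u K (a' - a) *
          ((if a' < i then (1 : ℝ) else 0) + (if a < i ∧ i ≤ a' then (1 / 2 : ℝ) else 0))) :=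
        fun a _ => Finset.sum_comm
      rw [Finset.sum_congr rfl h3, Finset.sum_comm]
      refine Finset.sum_congr rfl fun i _ => ?_
      rw [← Finset.sum_sub_distrib, Finset.mul_sum]
      refine Finset.sum_congr rfl fun a _ => ?_
      rw [← Finset.sum_sub_distrib, Finset.mul_sum]
    rw [h1, h2, hμ]
    unfold Fc
    rw [Finset.mul_sum]
    refine Finset.sum_congr rfl fun i _ => ?_
    have h4 : Ut K m * wp K m i = ∑ a ∈ Finset.Icc 1 m, ∑ a' ∈ Finset.Icc a m, u K (a' - a) *
          ((if a' < i then (1 : ℝ) else 0) + (if a < i ∧ i ≤ a' then (1 / 2 : ℝ) else 0)) := by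
      unfold wp
      rw [mul_div_cancel₀ _ hU.ne']
    have h5 : th K m 2 i = 1 - wp K m i := by
      unfold th
      simp
    rw [h5, ← h4]
    change ((-2) * e (c * m + i)) * (Ut K m - Ut K m * wp K m i) = _
    ring
  have h6 : ∀ X : ℝ, Real.exp μ * (1 + X - μ) ≤ Real.exp X := by
    intro X
    have h7 := Real.add_one_le_exp (X - μ)
    have h8 : Real.exp X = Real.exp μ * Real.exp (X - μ) := by
      rw [← Real.exp_add]
      congr 1
      ring
    rw [h8]
    exact mul_le_mul_of_nonneg_left (by linarith) (Real.exp_pos _).le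
  calc Ut K m * Real.exp μ = Real.exp μ * (Ut K m + Ut K m * μ - μ * Ut K m) := by ring
    _ = ∑ a ∈ Finset.Icc 1 m, ∑ a' ∈ Finset.Icc a m, u K (a' - a) * (Real.exp μ *
        (1 + (-2 * En e (c * m) (c * m + a) - En e (c * m + a) (c * m + a')) - μ)) := by
        rw [← hmean]
        conv_lhs => rw [show Ut K m = ∑ y ∈ Finset.Icc 1 m, ∑ y' ∈ Finset.Icc y m, u K (y' - y)
          from rfl]
        rw [Finset.mul_sum, ← Finset.sum_add_distrib, ← Finset.sum_sub_distrib, Finset.mul_sum]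
        refine Finset.sum_congr rfl fun a _ => ?_
        rw [Finset.mul_sum, ← Finset.sum_add_distrib, ← Finset.sum_sub_distrib, Finset.mul_sum]
        refine Finset.sum_congr rfl fun a' _ => ?_
        ring
    _ ≤ _ := Finset.sum_le_sum fun a _ => Finset.sum_le_sum fun a' _ =>
        mul_le_mul_of_nonneg_left (h6 _) (u_nonneg hK _)

/-- the double sum over the last cell -/
lemma last_cell (K e : ℕ → ℝ) (m c : ℕ) :
    ∑ y' ∈ Finset.Ioc (c * m) ((c + 1) * m), ∑ y ∈ Finset.Icc (c * m + 1) y', u K (y' - y) *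
      Real.exp (-2 * En e (c * m) y - En e y y') =
    ∑ a ∈ Finset.Icc 1 m, ∑ a' ∈ Finset.Icc a m, u K (a' - a) *
        Real.exp (-2 * En e (c * m) (c * m + a) - En e (c * m + a) (c * m + a')) := by
  rw [show (c + 1) * m = c * m + m by ring,
    cell_sum (fun y' => ∑ y ∈ Finset.Icc (c * m + 1) y', u K (y' - y) *
      Real.exp (-2 * En e (c * m) y - En e y y'))]
  have h1 : ∀ a' ∈ Finset.Icc 1 m, ∑ y ∈ Finset.Icc (c * m + 1) (c * m + a'),
      u K (c * m + a' - y) * Real.exp (-2 * En e (c * m) y - En e y (c * m + a')) =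
      ∑ a ∈ Finset.Icc 1 a', u K (a' - a) *
        Real.exp (-2 * En e (c * m) (c * m + a) - En e (c * m + a) (c * m + a')) := by
    intro a' _
    have h2 : Finset.Icc (c * m + 1) (c * m + a') = Finset.Ioc (c * m) (c * m + a') := by
      ext x
      simp only [Finset.mem_Icc, Finset.mem_Ioc]
      omega
    rw [h2, cell_sum (fun y => u K (c * m + a' - y) *
      Real.exp (-2 * En e (c * m) y - En e y (c * m + a')))]
    refine Finset.sum_congr rfl fun a _ => ?_
    rw [Nat.add_sub_add_left]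
  rw [Finset.sum_congr rfl h1]
  refine Finset.sum_comm' ?_
  intro x y
  simp only [Finset.mem_Icc]
  omega

theorem main (hc : S_CUT) : S_STB := by
  intro al kap K e N0 m j j' hal hK hkap hlow hm hN0 hj
  set Q : ℝ := kap / 2 * (((j' - j + 1) * m : ℕ) : ℝ) ^ (-(1 + al)) with hQ
  set S3 : ℝ := ∑ c ∈ Finset.Ioo j j', Fc K m e c 3 with hS3
  have hQ0 : 0 ≤ Q := by positivity
  have hS3e : S3 = -2 * En e ((j + 1) * m) (j' * m) := by
    have h1 := cells e m j (j' - (j + 1))
    rw [show j + 1 + (j' - (j + 1)) = j' by omega] at h1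
    rw [hS3, ← h1, Finset.mul_sum]
    exact Finset.sum_congr rfl fun c _ => Fc_three K e m c
  have hjm : (j + 1) * m ≤ j' * m := Nat.mul_le_mul_right _ (by omega)
  have hjm2 : (j + 1) * m + m ≤ j' * m := by
    have : (j + 1 + 1) * m ≤ j' * m := Nat.mul_le_mul_right _ (by omega)
    linarith [this, (by ring : (j + 1 + 1) * m = (j + 1) * m + m)]
  -- one term
  have hterm : ∀ y0 ∈ Finset.Ioc (j * m) ((j + 1) * m), ∀ y', y' ≤ (j' + 1) * m →
      ∀ y ∈ Finset.Icc (j' * m + 1) y',
      (zc K e y0 * Real.exp (-2 * En e y0 ((j + 1) * m))) * (Q * Real.exp S3 *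
        (u K (y' - y) * Real.exp (-2 * En e (j' * m) y - En e y y'))) ≤
      zc K e y0 * (K (y - y0) * ew (En e y0 y)) * (u K (y' - y) * Real.exp (-En e y y')) := by
    intro y0 hy0 y' hy' y hy
    rw [Finset.mem_Ioc] at hy0
    rw [Finset.mem_Icc] at hy
    have hd1 : m + 1 ≤ y - y0 := by omega
    have hd2 : y - y0 ≤ (j' - j + 1) * m := by
      have h1 : (j' - j + 1) * m + j * m = (j' + 1) * m := by
        rw [← Nat.add_mul]
        congr 1
        omega
      omega
    have hKl := hlow (y - y0) (by omega) (by omega)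
    have hpow : (((j' - j + 1) * m : ℕ) : ℝ) ^ (-(1 + al)) ≤ ((y - y0 : ℕ) : ℝ) ^ (-(1 + al)) := by
      apply Real.rpow_le_rpow_of_nonpos
      · have : 0 < y - y0 := by omega
        exact_mod_cast this
      · exact_mod_cast hd2
      · linarith
    have hKQ : 2 * Q ≤ K (y - y0) := by
      refine le_trans ?_ hKl
      rw [hQ]
      have := mul_le_mul_of_nonneg_left hpow hkap
      linarith
    have hsplit : En e y0 y = En e y0 ((j + 1) * m) + En e ((j + 1) * m) (j' * m) +
        En e (j' * m) y := by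
      rw [En_add e (a := y0) (b := (j + 1) * m) (c := y) hy0.2 (by omega),
        En_add e (a := (j + 1) * m) (b := j' * m) (c := y) hjm (by omega)]
      ring
    have hexp : Real.exp (-2 * En e y0 ((j + 1) * m)) * (Real.exp S3 *
        Real.exp (-2 * En e (j' * m) y - En e y y')) =
        Real.exp (-2 * En e y0 y) * Real.exp (-En e y y') := by
      rw [← Real.exp_add, ← Real.exp_add, ← Real.exp_add]
      congr 1
      rw [hS3e, hsplit]
      ring
    have hz := zc_nonneg hK e y0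
    have hu := u_nonneg hK (y' - y)
    have hew := ew_ge (En e y0 y)
    calc (zc K e y0 * Real.exp (-2 * En e y0 ((j + 1) * m))) * (Q * Real.exp S3 *
          (u K (y' - y) * Real.exp (-2 * En e (j' * m) y - En e y y')))
        = zc K e y0 * (Q * u K (y' - y)) * (Real.exp (-2 * En e y0 ((j + 1) * m)) *
          (Real.exp S3 * Real.exp (-2 * En e (j' * m) y - En e y y'))) := by ring
      _ = zc K e y0 * ((2 * Q) * (Real.exp (-2 * En e y0 y) / 2)) *
          (u K (y' - y) * Real.exp (-En e y y')) := by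
          rw [hexp]
          ring
      _ ≤ _ := by
          apply mul_le_mul_of_nonneg_right _ (mul_nonneg hu (Real.exp_pos _).le)
          apply mul_le_mul_of_nonneg_left _ hz
          exact mul_le_mul hKQ hew (by positivity) (hK _)
  -- one endpoint
  have hpt : ∀ y' ∈ Finset.Ioc (j' * m) ((j' + 1) * m),
      HB K e m j * (Q * Real.exp S3 * ∑ y ∈ Finset.Icc (j' * m + 1) y', u K (y' - y) *
        Real.exp (-2 * En e (j' * m) y - En e y y')) ≤ zc K e y' := by
    intro y' hy'
    rw [Finset.mem_Ioc] at hy'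
    refine le_trans ?_ (hc K e hK (j' * m + 1) y' (by omega) (by omega))
    have h1 : HB K e m j * (Q * Real.exp S3 * ∑ y ∈ Finset.Icc (j' * m + 1) y', u K (y' - y) *
        Real.exp (-2 * En e (j' * m) y - En e y y')) =
        ∑ y0 ∈ Finset.Ioc (j * m) ((j + 1) * m), ∑ y ∈ Finset.Icc (j' * m + 1) y',
        (zc K e y0 * Real.exp (-2 * En e y0 ((j + 1) * m))) * (Q * Real.exp S3 *
        (u K (y' - y) * Real.exp (-2 * En e (j' * m) y - En e y y'))) := by
      unfold HB
      rw [Finset.sum_mul]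
      refine Finset.sum_congr rfl fun y0 _ => ?_
      rw [Finset.mul_sum, Finset.mul_sum]
    rw [h1]
    calc ∑ y0 ∈ Finset.Ioc (j * m) ((j + 1) * m), ∑ y ∈ Finset.Icc (j' * m + 1) y',
        (zc K e y0 * Real.exp (-2 * En e y0 ((j + 1) * m))) * (Q * Real.exp S3 *
        (u K (y' - y) * Real.exp (-2 * En e (j' * m) y - En e y y')))
        ≤ ∑ y0 ∈ Finset.Ioc (j * m) ((j + 1) * m), ∑ y ∈ Finset.Icc (j' * m + 1) y',
        zc K e y0 * (K (y - y0) * ew (En e y0 y)) * (u K (y' - y) * Real.exp (-En e y y')) :=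
          Finset.sum_le_sum fun y0 hy0 => Finset.sum_le_sum fun y hy =>
            hterm y0 hy0 y' hy'.2 y hy
      _ ≤ _ := by
          apply Finset.sum_le_sum_of_subset_of_nonneg
          · intro y0 hy0
            rw [Finset.mem_Ioc] at hy0
            rw [Finset.mem_range]
            omega
          · intro y0 _ _
            exact Finset.sum_nonneg fun y _ => mul_nonneg
              (mul_nonneg (zc_nonneg hK e y0) (mul_nonneg (hK _) (ew_nonneg _)))
              (mul_nonneg (u_nonneg hK _) (Real.exp_pos _).le)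
  have hHB : 0 ≤ HB K e m j := by
    unfold HB
    exact Finset.sum_nonneg fun y _ => mul_nonneg (zc_nonneg hK e y) (Real.exp_pos _).le
  have hsum : HB K e m j * (Q * Real.exp S3 * ∑ y' ∈ Finset.Ioc (j' * m) ((j' + 1) * m),
      ∑ y ∈ Finset.Icc (j' * m + 1) y', u K (y' - y) *
        Real.exp (-2 * En e (j' * m) y - En e y y')) ≤ HA K e m j' := by
    unfold HA
    rw [Finset.mul_sum, Finset.mul_sum]
    exact Finset.sum_le_sum hpt
  rw [last_cell] at hsum
  refine le_trans ?_ hsum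
  apply mul_le_mul_of_nonneg_left _ hHB
  have hJ := jensen hK e hm j'
  calc Q * Ut K m * Real.exp (S3 + Fc K m e j' 2)
      = Q * Real.exp S3 * (Ut K m * Real.exp (Fc K m e j' 2)) := by
        rw [Real.exp_add]
        ring
    _ ≤ _ := mul_le_mul_of_nonneg_left hJ (by positivity)

end

end Pool.Agent.N940.CO.Stb
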