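import Pool.Agent.N940.CO.Stm

set_option autoImplicit false

/-! Project CO: the total renewal mass of a cell. -/

open Filter Topology

namespace Pool.Agent.N940.CO.Utt

open Pool.Agent.N940.CO

lemma bern1 {al : ℝ} (h0 : 0 ≤ al) (h1 : al ≤ 1) (n : ℕ) :
    al * ((n : ℝ) + 1) ^ (al - 1) ≤ ((n : ℝ) + 1) ^ al - (n : ℝ) ^ al := by
  have hn : (0 : ℝ) < (n : ℝ) + 1 := by positivity
  have hn0 : (0 : ℝ) ≤ n := Nat.cast_nonneg n
  have hs : -1 ≤ -(1 / ((n : ℝ) + 1)) := by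
    rw [neg_le_neg_iff, div_le_one hn]
    linarith
  have h := rpow_one_add_le_one_add_mul_self hs h0 h1
  have e1 : 1 + -(1 / ((n : ℝ) + 1)) = n / ((n : ℝ) + 1) := by
    field_simp
    ring
  rw [e1, Real.div_rpow hn0 hn.le, div_le_iff₀ (by positivity)] at h
  have e2 : ((n : ℝ) + 1) ^ (al - 1) = ((n : ℝ) + 1) ^ al / ((n : ℝ) + 1) := by
    rw [Real.rpow_sub hn, Real.rpow_one]
  rw [e2]
  have e3 : (1 + al * -(1 / ((n : ℝ) + 1))) * ((n : ℝ) + 1) ^ al =
      ((n : ℝ) + 1) ^ al - al * (((n : ℝ) + 1) ^ al / ((n : ℝ) + 1)) := by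
    ring
  rw [e3] at h
  linarith

lemma bern2 {p : ℝ} (h1 : 1 ≤ p) (n : ℕ) :
    ((n : ℝ) + 1) ^ p - (n : ℝ) ^ p ≤ p * ((n : ℝ) + 1) ^ (p - 1) := by
  have hn : (0 : ℝ) < (n : ℝ) + 1 := by positivity
  have hn0 : (0 : ℝ) ≤ n := Nat.cast_nonneg n
  have hs : -1 ≤ -(1 / ((n : ℝ) + 1)) := by
    rw [neg_le_neg_iff, div_le_one hn]
    linarith
  have h := one_add_mul_self_le_rpow_one_add hs h1
  have e1 : 1 + -(1 / ((n : ℝ) + 1)) = n / ((n : ℝ) + 1) := by
    field_simp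
    ring
  rw [e1, Real.div_rpow hn0 hn.le, le_div_iff₀ (by positivity)] at h
  have e2 : ((n : ℝ) + 1) ^ (p - 1) = ((n : ℝ) + 1) ^ p / ((n : ℝ) + 1) := by
    rw [Real.rpow_sub hn, Real.rpow_one]
  rw [e2]
  have e3 : (1 + p * -(1 / ((n : ℝ) + 1))) * ((n : ℝ) + 1) ^ p =
      ((n : ℝ) + 1) ^ p - p * (((n : ℝ) + 1) ^ p / ((n : ℝ) + 1)) := by
    ring
  rw [e3] at h
  linarith

/-- telescoping for the exponent `-(1 + al)` -/
lemma tel {al : ℝ} (h0 : 0 < al) (h1 : al ≤ 1) (n : ℕ) (hn : 1 ≤ n) :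
    (n : ℝ) ^ (-(1 + al)) ≤ 2 / al * ((n : ℝ) ^ (-al) - ((n : ℝ) + 1) ^ (-al)) := by
  have hn1 : (1 : ℝ) ≤ n := by exact_mod_cast hn
  have hnp : (0 : ℝ) < n := by linarith
  have hnp1 : (0 : ℝ) < (n : ℝ) + 1 := by linarith
  have hb := bern1 h0.le h1 n
  rw [Real.rpow_neg hnp.le, Real.rpow_neg hnp.le, Real.rpow_neg hnp1.le, Real.rpow_add hnp,
    Real.rpow_one]
  set a := (n : ℝ) ^ al with ha
  set b := ((n : ℝ) + 1) ^ al with hb'
  have ha0 : 0 < a := by positivity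
  have hb0 : 0 < b := by positivity
  rw [Real.rpow_sub hnp1, Real.rpow_one, ← hb'] at hb
  have e : 2 / al * (a⁻¹ - b⁻¹) = 2 / al * ((b - a) / (a * b)) := by
    field_simp
  rw [e]
  have h3 : al * (b / ((n : ℝ) + 1)) / (a * b) ≤ (b - a) / (a * b) := by
    gcongr
  have h4 : al * (b / ((n : ℝ) + 1)) / (a * b) = al / (((n : ℝ) + 1) * a) := by
    field_simp
  rw [h4] at h3
  calc ((n : ℝ) * a)⁻¹ ≤ 2 / al * (al / (((n : ℝ) + 1) * a)) := by
        have e5 : 2 / al * (al / (((n : ℝ) + 1) * a)) = 2 / (((n : ℝ) + 1) * a) := by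
          field_simp
        rw [e5, inv_eq_one_div, div_le_div_iff₀ (by positivity) (by positivity)]
        nlinarith
    _ ≤ _ := by gcongr

variable {al : ℝ} {K : ℕ → ℝ}

lemma u_succ (K : ℕ → ℝ) (n : ℕ) :
    u K (n + 1) = ∑ i ∈ Finset.range (n + 1), u K i * K (n + 1 - i) := by
  rw [u, Finset.sum_range (fun i => u K i * K (n + 1 - i))]

lemma u_nonneg (h : ∀ n, 0 ≤ K n) (n : ℕ) : 0 ≤ u K n := by
  induction n using Nat.strong_induction_on with
  | _ n ih =>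
    rcases n with _ | n
    · simp [u]
    · rw [u_succ]
      exact Finset.sum_nonneg fun i hi => mul_nonneg (ih i (Finset.mem_range.1 hi)) (h _)

lemma Kbar_succ (K : ℕ → ℝ) (n : ℕ) : Kbar K (n + 1) = Kbar K n - K (n + 1) := by
  unfold Kbar
  rw [Finset.sum_range_succ _ (n + 1)]
  ring

/-- the renewal identity -/
lemma ren_id (h0 : K 0 = 0) (n : ℕ) :
    ∑ i ∈ Finset.range (n + 1), u K i * Kbar K (n - i) = 1 := by
  induction n with
  | zero => simp [u, Kbar, h0]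
  | succ n ih =>
    rw [Finset.sum_range_succ, Nat.sub_self]
    have e1 : ∑ i ∈ Finset.range (n + 1), u K i * Kbar K (n + 1 - i) =
        ∑ i ∈ Finset.range (n + 1), (u K i * Kbar K (n - i) - u K i * K (n + 1 - i)) := by
      refine Finset.sum_congr rfl fun i hi => ?_
      have hi' : i ≤ n := Nat.lt_succ_iff.1 (Finset.mem_range.1 hi)
      have e2 : n + 1 - i = (n - i) + 1 := by omega
      rw [e2, Kbar_succ]
      ring
    rw [e1, Finset.sum_sub_distrib, ih, ← u_succ]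
    have e3 : Kbar K 0 = 1 := by simp [Kbar, h0]
    rw [e3]
    ring

lemma K_le (hR : Ren al K) : ∃ C : ℝ, 0 < C ∧ ∀ n : ℕ, 1 ≤ n → K n ≤ C * (n : ℝ) ^ (-(1 + al)) := by
  obtain ⟨cK, hc, ht⟩ := hR.tail
  obtain ⟨B, hB⟩ := ht.bddAbove_range
  refine ⟨max B 1, by positivity, fun n hn => ?_⟩
  have hnp : (0 : ℝ) < n := by exact_mod_cast hn
  have h1 : K n * (n : ℝ) ^ (1 + al) ≤ B := hB ⟨n, rfl⟩
  rw [Real.rpow_neg hnp.le, ← div_eq_mul_inv, le_div_iff₀ (by positivity)]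
  exact h1.trans (le_max_left _ _)

lemma Kbar_le (hR : Ren al K) : ∃ D : ℝ, 0 < D ∧ ∀ l : ℕ, Kbar K l ≤ D * ((l : ℝ) + 1) ^ (-al) := by
  obtain ⟨C, hC, hK⟩ := K_le hR
  have hal := hR.al0
  refine ⟨C * (2 / al), by positivity, fun l => ?_⟩
  have key : ∀ M : ℕ, l + 1 ≤ M → ∑ i ∈ Finset.range M, K i ≤ ∑ i ∈ Finset.range (l + 1), K i +
      C * (2 / al) * (((l : ℝ) + 1) ^ (-al) - (M : ℝ) ^ (-al)) := by
    intro M hM
    induction M, hM using Nat.le_induction with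
    | base => push_cast; simp
    | succ M hM ih =>
      rw [Finset.sum_range_succ]
      have h1 := hK M (by omega)
      have h2 := tel hal hR.al1.le M (by omega)
      have h3 : C * (M : ℝ) ^ (-(1 + al)) ≤
          C * (2 / al * ((M : ℝ) ^ (-al) - ((M : ℝ) + 1) ^ (-al))) := by gcongr
      push_cast
      have e : C * (2 / al * ((M : ℝ) ^ (-al) - ((M : ℝ) + 1) ^ (-al))) =
        C * (2 / al) * (M : ℝ) ^ (-al) - C * (2 / al) * ((M : ℝ) + 1) ^ (-al) := by ring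
      rw [e] at h3
      rw [mul_sub] at ih ⊢
      linarith
  have h4 : (1 : ℝ) ≤ ∑ i ∈ Finset.range (l + 1), K i + C * (2 / al) * ((l : ℝ) + 1) ^ (-al) := by
    refine le_of_tendsto hR.sum.tendsto_sum_nat ?_
    filter_upwards [eventually_ge_atTop (l + 1)] with M hM
    refine (key M hM).trans ?_
    have : 0 ≤ C * (2 / al) * (M : ℝ) ^ (-al) := by positivity
    rw [mul_sub]
    linarith
  unfold Kbar
  linarith

lemma Ksum_le (hR : Ren al K) : ∃ D : ℝ, 0 < D ∧ ∀ n : ℕ,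
    ∑ l ∈ Finset.range n, Kbar K l ≤ D * (n : ℝ) ^ (1 - al) := by
  obtain ⟨D, hD, hK⟩ := Kbar_le hR
  have hal : 0 < 1 - al := by linarith [hR.al1]
  refine ⟨D / (1 - al), by positivity, fun n => ?_⟩
  induction n with
  | zero => simp [Real.zero_rpow hal.ne']
  | succ n ih =>
    rw [Finset.sum_range_succ]
    have h1 := hK n
    have h2 := bern1 hal.le (by linarith [hR.al0]) n
    have e1 : 1 - al - 1 = -al := by ring
    rw [e1] at h2
    have h3 : D * ((n : ℝ) + 1) ^ (-al) ≤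
        D / (1 - al) * (((n : ℝ) + 1) ^ (1 - al) - (n : ℝ) ^ (1 - al)) := by
      have h4 : D / (1 - al) * ((1 - al) * ((n : ℝ) + 1) ^ (-al)) ≤
        D / (1 - al) * (((n : ℝ) + 1) ^ (1 - al) - (n : ℝ) ^ (1 - al)) := by gcongr
      refine le_trans (le_of_eq ?_) h4
      field_simp
    rw [mul_sub] at h3
    push_cast
    linarith

lemma U_ge (hR : Ren al K) : ∃ D : ℝ, 0 < D ∧ ∀ m : ℕ,
    ((m : ℝ) + 1) ^ al ≤ D * ∑ i ∈ Finset.range (m + 1), u K i := by
  obtain ⟨D, hD, hK⟩ := Ksum_le hR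
  have hal : 0 < 1 - al := by linarith [hR.al1]
  refine ⟨D, hD, fun m => ?_⟩
  have h1 : ∑ n ∈ Finset.range (m + 1), ∑ i ∈ Finset.range (n + 1), u K i * Kbar K (n - i) =
      (m : ℝ) + 1 := by
    simp [ren_id hR.zero]
  rw [Finset.sum_range_diag_flip (m + 1) (fun i l => u K i * Kbar K l)] at h1
  have h2 : ∑ i ∈ Finset.range (m + 1), ∑ l ∈ Finset.range (m + 1 - i), u K i * Kbar K l ≤
      ∑ i ∈ Finset.range (m + 1), u K i * (D * ((m : ℝ) + 1) ^ (1 - al)) := by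
    refine Finset.sum_le_sum fun i hi => ?_
    rw [← Finset.mul_sum]
    refine mul_le_mul_of_nonneg_left ?_ (u_nonneg hR.nonneg i)
    refine (hK _).trans ?_
    have h3 : ((m + 1 - i : ℕ) : ℝ) ≤ (m : ℝ) + 1 := by
      have : ((m + 1 - i : ℕ) : ℝ) ≤ ((m + 1 : ℕ) : ℝ) := by exact_mod_cast Nat.sub_le _ _
      push_cast at this
      exact this
    gcongr
  rw [h1, ← Finset.sum_mul] at h2
  have hm : (0 : ℝ) < (m : ℝ) + 1 := by positivity
  have e : (m : ℝ) + 1 = ((m : ℝ) + 1) ^ al * ((m : ℝ) + 1) ^ (1 - al) := by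
    rw [← Real.rpow_add hm]
    simp
  have hp : 0 < ((m : ℝ) + 1) ^ (1 - al) := by positivity
  have h4 : ((m : ℝ) + 1) ^ al * ((m : ℝ) + 1) ^ (1 - al) ≤
      (D * ∑ i ∈ Finset.range (m + 1), u K i) * ((m : ℝ) + 1) ^ (1 - al) := by
    rw [← e]
    refine h2.trans (le_of_eq ?_)
    ring
  exact le_of_mul_le_mul_right h4 hp

lemma Ut_succ (K : ℕ → ℝ) (m : ℕ) :
    Ut K (m + 1) = Ut K m + ∑ i ∈ Finset.range (m + 1), u K i := by
  unfold Ut
  have h1 : ∀ y ∈ Finset.Icc 1 (m + 1), ∑ y' ∈ Finset.Icc y (m + 1), u K (y' - y) =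
      ∑ y' ∈ Finset.Icc y m, u K (y' - y) + u K (m + 1 - y) := by
    intro y hy
    rw [Finset.sum_Icc_succ_top (Finset.mem_Icc.1 hy).2]
  rw [Finset.sum_congr rfl h1, Finset.sum_add_distrib]
  congr 1
  · rw [Finset.sum_Icc_succ_top (by omega)]
    simp
  · refine Finset.sum_nbij' (fun y => m + 1 - y) (fun j => m + 1 - j) ?_ ?_ ?_ ?_ ?_
    · intro y hy
      simp only [Finset.mem_Icc, Finset.mem_range] at *
      omega
    · intro y hy
      simp only [Finset.mem_Icc, Finset.mem_range] at *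
      omega
    · intro y hy
      simp only [Finset.mem_Icc] at *
      omega
    · intro y hy
      simp only [Finset.mem_range] at *
      omega
    · intro y _
      rfl

theorem main : S_UT := by
  intro al K hR
  obtain ⟨D, hD, hU⟩ := U_ge hR
  have hal := hR.al0
  have hal1 : 0 < 1 + al := by linarith
  refine ⟨1 / (D * (1 + al)), by positivity, fun m _ => ?_⟩
  induction m with
  | zero => simp [Ut, Real.zero_rpow hal1.ne']
  | succ m ih =>
    rw [Ut_succ]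
    have ih' : 1 / (D * (1 + al)) * (m : ℝ) ^ (1 + al) ≤ Ut K m := by
      rcases Nat.eq_zero_or_pos m with h | h
      · subst h
        simp [Ut, Real.zero_rpow hal1.ne']
      · exact ih h
    have h1 := bern2 (show (1 : ℝ) ≤ 1 + al by linarith) m
    have e1 : 1 + al - 1 = al := by ring
    rw [e1] at h1
    have h2 := hU m
    have h3 : 1 / (D * (1 + al)) * (((m : ℝ) + 1) ^ (1 + al) - (m : ℝ) ^ (1 + al)) ≤
        ∑ i ∈ Finset.range (m + 1), u K i := by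
      calc 1 / (D * (1 + al)) * (((m : ℝ) + 1) ^ (1 + al) - (m : ℝ) ^ (1 + al))
          ≤ 1 / (D * (1 + al)) * ((1 + al) * ((m : ℝ) + 1) ^ al) := by gcongr
        _ ≤ 1 / (D * (1 + al)) * ((1 + al) * (D * ∑ i ∈ Finset.range (m + 1), u K i)) := by
            gcongr
        _ = _ := by field_simp
    rw [mul_sub] at h3
    push_cast
    linarith

end Pool.Agent.N940.CO.Utt
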