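import Mathlib
import Pool.Agent.N940.CO.Stm

/-! Project CO, leaf V: products over the cells of a pattern (helper481). -/

set_option autoImplicit false

namespace Pool.Agent.N940.CO.V

open Finset

lemma sum_parity (a b : ℝ) (j : ℕ) :
    ∑ l ∈ range (2 * j + 1), (if Even l then b else a) = (j + 1) * b + j * a := by
  induction j with
  | zero => simp
  | succ j ih =>
    rw [show 2 * (j + 1) + 1 = (2 * j + 1) + 1 + 1 by ring, sum_range_succ, sum_range_succ, ih]
    have h1 : ¬ Even (2 * j + 1) := by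
      rw [Nat.not_even_iff_odd]
      exact odd_two_mul_add_one j
    have h2 : Even (2 * j + 1 + 1) := ⟨j + 1, by ring⟩
    rw [if_neg h1, if_pos h2]
    push_cast
    ring

lemma Jp_mono {k : ℕ} (g : Fin k → ℕ) : Monotone (Jp g) := by
  intro i j hij
  unfold Jp
  refine sum_le_sum fun l _ => ?_
  by_cases h : l.val < i
  · rw [if_pos h, if_pos (lt_of_lt_of_le h hij)]
  · rw [if_neg h]
    exact Nat.zero_le _

lemma Jp_top {k : ℕ} (g : Fin k → ℕ) : Jp g k = ∑ i, g i := by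
  unfold Jp
  exact sum_congr rfl fun l _ => if_pos l.2

lemma ty_pos {k : ℕ} (g : Fin k → ℕ) {f : ℕ → ℝ} (f0 : f 0 = 1) (f1 : 0 < f 1) (f2 : 0 < f 2) (f3 : 0 < f 3) (c : ℕ) :
    0 < f (ty g c) := by
  unfold ty
  split_ifs
  · exact f1
  · exact f2
  · exact f3
  · rw [f0]; exact one_pos

lemma key (ht : S_TY) {k L R T : ℕ} (hk : Odd k) (hL : 2 ≤ L) {f : ℕ → ℝ} (f0 : f 0 = 1) (f1 : 0 < f 1) (f2 : 0 < f 2)
    (f3 : 0 < f 3) {g : Fin k → ℕ} (hg : g ∈ Pat k L R T) :
    ∃ n : ℕ, n ≤ T ∧ ∏ c ∈ range (T + 1), f (ty g c) = (f 1 * f 2) ^ ((k + 1) / 2) * f 3 ^ n := by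
  unfold Pat at hg
  rw [mem_filter, Fintype.mem_piFinset] at hg
  obtain ⟨hg1, hg2⟩ := hg
  obtain ⟨n, hn⟩ : ∃ n : ℕ, n = ∑ l ∈ range k, (if Even l then (Ioo (Jp g l) (Jp g (l + 1))).card else 0) := ⟨_, rfl⟩
  refine ⟨n, ?_, ?_⟩
  · rw [hn]
    calc ∑ l ∈ range k, (if Even l then (Ioo (Jp g l) (Jp g (l + 1))).card else 0)
        ≤ ∑ l ∈ range k, (Jp g (l + 1) - Jp g l) := by
          refine sum_le_sum fun l _ => ?_
          split_ifs
          · rw [Nat.card_Ioo]; omega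
          · exact Nat.zero_le _
      _ = Jp g k - Jp g 0 := Finset.sum_range_tsub (Jp_mono g) k
      _ ≤ T := by rw [Jp_top, hg2]; exact Nat.sub_le _ _
  · obtain ⟨j, hj⟩ := hk
    have h := ht k g (fun l => le_trans hL (mem_Icc.1 (hg1 l)).1) (fun _ t => Real.log (f t)) (fun _ => by
      simp only [f0, Real.log_one])
    rw [hg2] at h
    have h1 : ∑ l ∈ range k, (if Even l then ∑ c ∈ Ioo (Jp g l) (Jp g (l + 1)), Real.log (f 3) + Real.log (f 2)
        else Real.log (f 1)) = n * Real.log (f 3) + ((j + 1) * Real.log (f 2) + j * Real.log (f 1)) := by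
      have h2 : ∀ l ∈ range k, (if Even l then ∑ c ∈ Ioo (Jp g l) (Jp g (l + 1)), Real.log (f 3) + Real.log (f 2)
          else Real.log (f 1)) = ((if Even l then (Ioo (Jp g l) (Jp g (l + 1))).card else 0 : ℕ) : ℝ) * Real.log (f 3) +
            (if Even l then Real.log (f 2) else Real.log (f 1)) := by
        intro l _
        split_ifs
        · rw [sum_const, nsmul_eq_mul]
        · simp
      have h3 : ∑ x ∈ range k, (if Even x then Real.log (f 2) else Real.log (f 1)) =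
          (j + 1) * Real.log (f 2) + j * Real.log (f 1) := by
        conv_lhs => rw [hj]
        exact sum_parity _ _ j
      rw [sum_congr rfl h2, sum_add_distrib, ← sum_mul, hn, h3]
      push_cast
      rfl
    rw [h1] at h
    have hpos : 0 < ∏ c ∈ range (T + 1), f (ty g c) := prod_pos fun c _ => ty_pos g f0 f1 f2 f3 c
    have hpos2 : 0 < (f 1 * f 2) ^ ((k + 1) / 2) * f 3 ^ n := by positivity
    apply Real.log_injOn_pos (Set.mem_Ioi.2 hpos) (Set.mem_Ioi.2 hpos2)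
    rw [Real.log_prod (fun c _ => (ty_pos g f0 f1 f2 f3 c).ne'), ← h, Real.log_mul (by positivity) (by positivity),
      Real.log_pow, Real.log_pow, Real.log_mul f1.ne' f2.ne']
    have e : (k + 1) / 2 = j + 1 := by omega
    rw [e]
    push_cast
    ring

theorem main (ht : S_TY) : S_V := by
  intro k L R T hk hL f f0 f1 f2 f3 f3'
  refine ⟨fun g hg => ?_, fun g hg g' hg' => ?_⟩
  · obtain ⟨n, hn, h⟩ := key ht hk hL f0 f1 f2 f3 hg
    rw [h]
    exact mul_le_mul_of_nonneg_left (pow_le_pow_of_le_one f3.le f3' hn) (by positivity)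
  · obtain ⟨n, hn, h⟩ := key ht hk hL f0 f1 f2 f3 hg
    obtain ⟨n', hn', h'⟩ := key ht hk hL f0 f1 f2 f3 hg'
    rw [h, h']
    have h1 : f 3 ^ T ≤ f 3 ^ n := pow_le_pow_of_le_one f3.le f3' hn
    have h2 : f 3 ^ n' ≤ 1 := pow_le_one₀ f3.le f3'
    have h3 : 0 ≤ (f 1 * f 2) ^ ((k + 1) / 2) := by positivity
    calc f 3 ^ T * ((f 1 * f 2) ^ ((k + 1) / 2) * f 3 ^ n')
        ≤ f 3 ^ T * ((f 1 * f 2) ^ ((k + 1) / 2) * 1) := by
          apply mul_le_mul_of_nonneg_left _ (by positivity)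
          exact mul_le_mul_of_nonneg_left h2 h3
      _ = (f 1 * f 2) ^ ((k + 1) / 2) * f 3 ^ T := by ring
      _ ≤ (f 1 * f 2) ^ ((k + 1) / 2) * f 3 ^ n := mul_le_mul_of_nonneg_left h1 h3

end Pool.Agent.N940.CO.V
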