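import Pool.Agent.N940.CO.Fin
import Pool.Agent.N940.CO.I
import Pool.Agent.N940.CO.Fz
import Pool.Agent.N940.CO.Ann
import Pool.Agent.N940.CO.Mom
import Pool.Agent.N940.CO.Ms
import Pool.Agent.N940.CO.Nsum
import Pool.Agent.N940.CO.Near
import Pool.Agent.N940.CO.Far
import Pool.Agent.N940.CO.Par
import Pool.Agent.N940.CO.Sm
import Pool.Agent.N940.CO.Sta
import Pool.Agent.N940.CO.Stb
import Pool.Agent.N940.CO.End
import Pool.Agent.N940.CO.Utt
import Pool.Agent.N940.CO.V
import Pool.Agent.N940.CO.Ty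
import Pool.Agent.N940.CO.Pc
import Pool.Agent.N940.CO.Ch
import Pool.Agent.N940.CO.Cut
import Pool.Agent.N940.CO.Hold
import Pool.Agent.N940.CO.Iidb
import Pool.Agent.N940.CO.Br
import Pool.Agent.N940.CO.Br1
import Pool.Agent.N940.CO.Kl
import Pool.Agent.N940.CO.Loc

/-!
Project CO: the critical curve of the copolymer.
-/

open MeasureTheory ProbabilityTheory Filter Topology

namespace Pool.Agent.N940.CO.Main0

open Pool.Agent.N940.CO

theorem det : S_DET :=
  End.det Utt.main Kl.main (Sta.main Cut.main) (Stb.main Cut.main) (Sta.start Cut.main)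

theorem comb : S_COMB := Nsum.comb Near.main Far.main Nsum.main

theorem frac : S_I :=
  I.main Hold.main (Mom.main Mom.expf) Sm.psi Sm.main (V.main Ty.main) comb Par.main

theorem fz : S_FZ := Fz.main (Pc.main Ty.main) Ch.main End.main Kl.main

theorem fin : S_FIN :=
  Fin.main det fz frac Iidb.main Loc.main (Ms.integ Kl.main) Ms.main Kl.main

theorem br : S_BR := Br.main Br1.main

theorem ann : S_ANN := Ann.main br Mom.expf

noncomputable section

/-- Law of the disorder. -/
def dis (nu : Measure ℝ) : Measure (ℕ → ℝ) := Measure.infinitePi (fun _ : ℕ => nu)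

theorem iid {nu : Measure ℝ} (hnu : IsProbabilityMeasure nu) :
    IID (dis nu) nu (fun n (x : ℕ → ℝ) => x n) where
  prob := by unfold dis; infer_instance
  meas n := measurable_pi_apply n
  indep := by
    unfold dis
    exact iIndepFun_infinitePi (X := fun _ x => x) (fun _ => measurable_id)
  law n := Measure.infinitePi_map_eval (fun _ : ℕ => nu) n

/-- Free energy (lower limit). -/
def Fe (K : ℕ → ℝ) (nu : Measure ℝ) (lam h : ℝ) : EReal :=
  liminf (fun N : ℕ => (((1 / (N : ℝ)) *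
    ∫ x, Real.log (Zcop K lam h x N) ∂(dis nu) : ℝ) : EReal)) atTop

theorem bdd {al : ℝ} {K : ℕ → ℝ} {nu : Measure ℝ} (hK : Ren al K) (hnu : Dis nu) {lam : ℝ}
    (hlam : 0 < lam) : BddAbove {h : ℝ | 0 < Fe K nu lam h} := by
  have hpos : 0 < mgf id nu (-2 * lam) := by
    have := hnu.prob
    exact mgf_pos (hnu.exp _)
  refine ⟨Real.log (mgf id nu (-2 * lam)) / (2 * lam), ?_⟩
  intro h hh
  by_contra hlt
  push Not at hlt
  have h1 : mgf id nu (-2 * lam) * Real.exp (-2 * lam * h) ≤ 1 := by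
    rw [div_lt_iff₀ (by positivity)] at hlt
    rw [← Real.exp_log hpos, ← Real.exp_add]
    exact Real.exp_le_one_iff.2 (by linarith)
  have h2 : Fe K nu lam h ≤ 0 := by
    unfold Fe
    have h3 : liminf (fun N : ℕ => (((1 / (N : ℝ)) *
        ∫ x, Real.log (Zcop K lam h x N) ∂(dis nu) : ℝ) : EReal)) atTop
        ≤ liminf (fun _ : ℕ => (0 : EReal)) atTop := by
      refine liminf_le_liminf (Eventually.of_forall fun N => ?_)
      have h4 := ann al K nu hK hnu (ℕ → ℝ) (dis nu) (fun n x => x n) (iid hnu.prob) lam h h1 N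
      have h5 : (1 / (N : ℝ)) * ∫ x, Real.log (Zcop K lam h x N) ∂(dis nu) ≤ 0 :=
        mul_nonpos_of_nonneg_of_nonpos (by positivity) h4
      exact_mod_cast h5
    rwa [liminf_const] at h3
  exact absurd hh (not_lt.2 h2)

theorem pos {al : ℝ} {K : ℕ → ℝ} {nu : Measure ℝ} (hK : Ren al K) (hnu : Dis nu) :
    ∃ eps : ℝ, 0 < eps ∧ ∃ lam0 : ℝ, 0 < lam0 ∧ ∀ lam : ℝ, 0 < lam → lam < lam0 →
      0 < Fe K nu lam ((1 / (1 + al) + eps) * lam) := by
  obtain ⟨eps, heps, lam0, hlam0, h1⟩ := fin al K nu hK hnu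
  refine ⟨eps, heps, lam0, hlam0, ?_⟩
  intro lam hlam hlam1
  obtain ⟨c, hc0, hc1⟩ := h1 lam hlam hlam1 (ℕ → ℝ) (dis nu) (fun n x => x n) (iid hnu.prob)
  have h3 : (c : EReal) ≤ Fe K nu lam ((1 / (1 + al) + eps) * lam) := by
    unfold Fe
    refine le_liminf_of_le (by isBoundedDefault) ?_
    filter_upwards [hc1] with N hN
    have h4 : ∀ x : ℕ → ℝ, Zcop K lam ((1 / (1 + al) + eps) * lam) x N
        = zf K (ee lam ((1 / (1 + al) + eps) * lam) x) N := fun x =>
      (br K hK.nonneg hK.sum hK.zero).2 lam _ x N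
    simp_rw [h4]
    exact_mod_cast hN
  have h5 : (0 : EReal) < (c : EReal) := by exact_mod_cast hc0
  exact lt_of_lt_of_le h5 h3

end

end Pool.Agent.N940.CO.Main0
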