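import Pool.Agent.N940.CO.Stm

/-!
Project CO, piece TY: cells and types of a pattern (helper340).
-/

namespace Pool.Agent.N940.CO.Ty

open Finset

variable {k : ℕ} {g : Fin k → ℕ}

theorem Jp_zero (g : Fin k → ℕ) : Jp g 0 = 0 := by
  simp [Jp]

theorem Jp_succ (g : Fin k → ℕ) {l : ℕ} (h : l < k) : Jp g (l + 1) = Jp g l + g ⟨l, h⟩ := by
  classical
  have h1 : g ⟨l, h⟩ = ∑ i : Fin k, if i = ⟨l, h⟩ then g i else 0 := by
    rw [Finset.sum_ite_eq']
    simp
  unfold Jp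
  rw [h1, ← sum_add_distrib]
  refine sum_congr rfl fun i _ => ?_
  by_cases h2 : i = ⟨l, h⟩
  · subst h2
    simp
  · have h3 : i.val ≠ l := fun h4 => h2 (Fin.ext h4)
    rw [if_neg h2, add_zero]
    by_cases h4 : i.val < l
    · rw [if_pos h4, if_pos (by omega)]
    · rw [if_neg h4, if_neg (by omega)]

theorem Jp_top (g : Fin k → ℕ) : Jp g k = ∑ i, g i :=
  sum_congr rfl fun i _ => if_pos i.isLt

/-- weak monotonicity -/
theorem Jp_le (g : Fin k → ℕ) {i j : ℕ} (h : i ≤ j) : Jp g i ≤ Jp g j := by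
  refine sum_le_sum fun l _ => ?_
  by_cases h1 : l.val < i
  · rw [if_pos h1, if_pos (by omega)]
  · rw [if_neg h1]
    exact Nat.zero_le _

theorem Jp_lt_succ (hg : ∀ l, 1 ≤ g l) {l : ℕ} (h : l < k) : Jp g l < Jp g (l + 1) := by
  rw [Jp_succ g h]
  have := hg ⟨l, h⟩
  omega

/-- strict monotonicity on `0..k` -/
theorem Jp_mono (hg : ∀ l, 1 ≤ g l) {i j : ℕ} (h : i < j) (hj : j ≤ k) : Jp g i < Jp g j := by
  have h1 : Jp g i < Jp g (i + 1) := Jp_lt_succ hg (by omega)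
  exact h1.trans_le (Jp_le g (by omega))

theorem Jp_inj (hg : ∀ l, 1 ≤ g l) {i j : ℕ} (hi : i ≤ k) (hj : j ≤ k)
    (h : Jp g i = Jp g j) : i = j := by
  rcases lt_trichotomy i j with h1 | h1 | h1
  · exact absurd h (Jp_mono hg h1 hj).ne
  · exact h1
  · exact absurd h (Jp_mono hg h1 hi).ne'

/-- a point of an open gap is not a switch -/
theorem gap_ne (g : Fin k → ℕ) {l l' c : ℕ} (h1 : Jp g l < c) (h2 : c < Jp g (l + 1)) :
    c ≠ Jp g l' := by
  intro h
  rcases le_or_gt l' l with h3 | h3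
  · have := Jp_le g h3
    omega
  · have := Jp_le g (show l + 1 ≤ l' by omega)
    omega

/-- open gaps are disjoint -/
theorem gap_inj (g : Fin k → ℕ) {l l' c : ℕ} (h1 : Jp g l < c) (h2 : c < Jp g (l + 1))
    (h3 : Jp g l' < c) (h4 : c < Jp g (l' + 1)) : l = l' := by
  rcases lt_trichotomy l l' with h | h | h
  · have := Jp_le g (show l + 1 ≤ l' by omega)
    omega
  · exact h
  · have := Jp_le g (show l' + 1 ≤ l by omega)
    omega

theorem ty_even (g : Fin k → ℕ) {l : ℕ} (hl : l ≤ k) (he : Even l) : ty g (Jp g l) = 1 :=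
  if_pos ⟨l, hl, he, rfl⟩

theorem ty_odd (hg : ∀ l, 1 ≤ g l) {l : ℕ} (hl : l ≤ k) (ho : Odd l) : ty g (Jp g l) = 2 := by
  unfold ty
  rw [if_neg, if_pos ⟨l, hl, ho, rfl⟩]
  rintro ⟨l', h1, h2, h3⟩
  have h4 := Jp_inj hg hl h1 h3
  subst h4
  exact (Nat.not_even_iff_odd.2 ho) h2

theorem ty_below (g : Fin k → ℕ) {l c : ℕ} (hl : l < k) (he : Even l) (h1 : Jp g l < c)
    (h2 : c < Jp g (l + 1)) : ty g c = 3 := by
  unfold ty
  rw [if_neg, if_neg, if_pos ⟨l, hl, he, h1, h2⟩]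
  · rintro ⟨l', _, _, h5⟩
    exact gap_ne g h1 h2 h5
  · rintro ⟨l', _, _, h5⟩
    exact gap_ne g h1 h2 h5

theorem ty_above (g : Fin k → ℕ) {l c : ℕ} (ho : Odd l) (h1 : Jp g l < c)
    (h2 : c < Jp g (l + 1)) : ty g c = 0 := by
  unfold ty
  rw [if_neg, if_neg, if_neg]
  · rintro ⟨l', _, h4, h5, h6⟩
    have h7 := gap_inj g h1 h2 h5 h6
    subst h7
    exact (Nat.not_even_iff_odd.2 ho) h4
  · rintro ⟨l', _, _, h5⟩
    exact gap_ne g h1 h2 h5
  · rintro ⟨l', _, _, h5⟩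
    exact gap_ne g h1 h2 h5

/-- every cell `c ≤ Jp g j` is a switch or lies in an open gap -/
theorem cell_cases (g : Fin k → ℕ) {j c : ℕ} (hc : c ≤ Jp g j) :
    (∃ l, l ≤ j ∧ c = Jp g l) ∨ ∃ l, l < j ∧ Jp g l < c ∧ c < Jp g (l + 1) := by
  induction j with
  | zero =>
    rw [Jp_zero] at hc
    exact Or.inl ⟨0, le_refl _, by rw [Jp_zero]; omega⟩
  | succ j ih =>
    rcases le_or_gt c (Jp g j) with h | h
    · rcases ih h with ⟨l, h1, h2⟩ | ⟨l, h1, h2⟩
      · exact Or.inl ⟨l, by omega, h2⟩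
      · exact Or.inr ⟨l, by omega, h2⟩
    · rcases hc.lt_or_eq with h1 | h1
      · exact Or.inr ⟨j, by omega, h, h1⟩
      · exact Or.inl ⟨j + 1, le_refl _, h1⟩

theorem Ico_eq (a b : ℕ) : Finset.Ico (a + 1) b = Finset.Ioo a b := by
  ext c
  simp only [Finset.mem_Ico, Finset.mem_Ioo]
  omega

/-- decomposition of the sum over the cells up to the switch `j + 1` -/
theorem sum_step (hg : ∀ l, 1 ≤ g l) {M : Type} [AddCommMonoid M] (G : ℕ → M) {j : ℕ}
    (h : j < k) : ∑ c ∈ range (Jp g (j + 1) + 1), G c =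
      ∑ c ∈ range (Jp g j + 1), G c + (∑ c ∈ Ioo (Jp g j) (Jp g (j + 1)), G c
        + G (Jp g (j + 1))) := by
  have h1 := Jp_lt_succ hg h
  rw [sum_range_succ, ← sum_range_add_sum_Ico G (show Jp g j + 1 ≤ Jp g (j + 1) by omega),
    Ico_eq, add_assoc]

theorem upto (hg : ∀ l, 1 ≤ g l) (F : ℕ → ℕ → ℝ) (hF : ∀ c, F c 0 = 0) (j : ℕ) (hj : j ≤ k) :
    F 0 1 + ∑ l ∈ range j,
      (if Even l then ∑ c ∈ Ioo (Jp g l) (Jp g (l + 1)), F c 3 + F (Jp g (l + 1)) 2
        else F (Jp g (l + 1)) 1)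
      = ∑ c ∈ range (Jp g j + 1), F c (ty g c) := by
  induction j with
  | zero =>
    rw [sum_range_zero, add_zero, Jp_zero, zero_add, sum_range_one]
    have h := ty_even g (Nat.zero_le k) (show Even 0 from Even.zero)
    rw [Jp_zero] at h
    rw [h]
  | succ j ih =>
    rw [sum_range_succ, ← add_assoc, ih (by omega),
      sum_step hg (fun c => F c (ty g c)) (show j < k by omega)]
    congr 1
    by_cases he : Even j
    · rw [if_pos he, ty_odd hg hj he.add_one]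
      congr 1
      refine sum_congr rfl fun c hc => ?_
      rw [mem_Ioo] at hc
      rw [ty_below g (by omega) he hc.1 hc.2]
    · have ho := Nat.not_even_iff_odd.1 he
      rw [if_neg he, ty_even g hj ho.add_one]
      have h0 : ∑ c ∈ Ioo (Jp g j) (Jp g (j + 1)), F c (ty g c) = 0 := by
        refine sum_eq_zero fun c hc => ?_
        rw [mem_Ioo] at hc
        rw [ty_above g ho hc.1 hc.2, hF]
      rw [h0, zero_add]

theorem main : S_TY := by
  intro k g hg F hF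
  rw [upto (fun l => by have := hg l; omega) F hF k (le_refl k), Jp_top]

end Pool.Agent.N940.CO.Ty
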